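import Pool.Agent.Work.MP_db9079_lc.Calc
import Mathlib.Logic.Godel.GodelBetaFunction
import Mathlib.Algebra.Order.Ring.Canonical

/-!
Arithmetic inside a model of Peano arithmetic: least numbers, pairing, the beta function.
-/

set_option linter.unusedSectionVars false

namespace Pool.Agent.Work.MP_1f9298_lc

open Pool.Agent.Work.MP_db9079_lc DC

variable {A : Type} [CommSemiring A] [LinearOrder A] [IsStrictOrderedRing A]
  [CanonicallyOrderedAdd A] {C : DC A} {α : Type}

/-- A nonstandard model of arithmetic with its class of definable predicates. -/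
structure Ar (C : DC A) : Prop where
  add : C.D (fun v : Fin 3 → A => v 0 + v 1 = v 2)
  mul : C.D (fun v : Fin 3 → A => v 0 * v 1 = v 2)
  lt' : C.D (fun v : Fin 2 → A => v 0 < v 1)
  cst : ∀ c : A, C.D (fun v : Fin 1 → A => c = v 0)
  disc : ∀ x y : A, x < y → x + 1 ≤ y
  ind' : ∀ P : A → Prop, C.D (fun v : Fin 1 → A => P (v 0)) → P 0 → (∀ x, P x → P (x + 1)) →
    ∀ x, P x
  ns : ∃ c : A, ∀ n : ℕ, c ≠ n

open Classical in
/-- The least element with a property, if there is one. -/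
noncomputable def mu (P : A → Prop) : A :=
  if h : ∃ y, P y ∧ ∀ z < y, ¬ P z then h.choose else 0

omit [IsStrictOrderedRing A] [CanonicallyOrderedAdd A] in
theorem mu_eq {P : A → Prop} {y : A} (h1 : P y) (h2 : ∀ z < y, ¬ P z) : mu P = y := by
  have h : ∃ y, P y ∧ ∀ z < y, ¬ P z := ⟨y, h1, h2⟩
  rw [mu, dif_pos h]
  rcases lt_trichotomy h.choose y with h3 | h3 | h3
  · exact absurd h.choose_spec.1 (h2 _ h3)
  · exact h3
  · exact absurd h1 (h.choose_spec.2 _ h3)

/-- The pairing function. -/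
def pairA (x y : A) : A := if x < y then y * y + x else x * x + x + y

/-- First projection. -/
noncomputable def leftA (z : A) : A := mu fun x => ∃ y, pairA x y = z

/-- Second projection. -/
noncomputable def rightA (z : A) : A := mu fun y => ∃ x, pairA x y = z

/-- Remainder. -/
noncomputable def modA (a m : A) : A := mu fun r => ∃ q, a = m * q + r

/-- The beta function. -/
noncomputable def betaA (c i : A) : A := modA (leftA c) ((i + 1) * rightA c + 1)

omit [CanonicallyOrderedAdd A] in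
theorem pairA_cast (m n : ℕ) : pairA (m : A) n = (Nat.pair m n : ℕ) := by
  unfold pairA Nat.pair
  by_cases h : m < n <;> simp [h]

namespace Ar

variable (h : Ar C)
include h

omit [IsStrictOrderedRing A] [CanonicallyOrderedAdd A] in
theorem fadd {f g : (α → A) → A} (hf : C.F f) (hg : C.F g) : C.F (fun v => f v + g v) :=
  op2 h.add hf hg

omit [IsStrictOrderedRing A] [CanonicallyOrderedAdd A] in
theorem fmul {f g : (α → A) → A} (hf : C.F f) (hg : C.F g) : C.F (fun v => f v * g v) :=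
  op2 h.mul hf hg

omit [IsStrictOrderedRing A] [CanonicallyOrderedAdd A] in
theorem fc (c : A) : C.F (fun _ : α → A => c) := const (h.cst c)

omit [IsStrictOrderedRing A] [CanonicallyOrderedAdd A] in
theorem lt {f g : (α → A) → A} (hf : C.F f) (hg : C.F g) : C.D (fun v => f v < g v) :=
  app2 (R := fun a b => a < b) h.lt' hf hg

omit [IsStrictOrderedRing A] [CanonicallyOrderedAdd A] in
theorem le {f g : (α → A) → A} (hf : C.F f) (hg : C.F g) : C.D (fun v => f v ≤ g v) :=
  congr (C.not (h.lt hg hf)) fun _ => not_lt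

omit [IsStrictOrderedRing A] [CanonicallyOrderedAdd A] in
theorem fmu {Q : (α → A) → A → Prop}
    (hQ : C.D (fun w : Option α → A => Q (fun a => w (some a)) (w none))) :
    C.F (fun v => mu (Q v)) := by
  have h1 : C.D (fun w : Option α → A => Q (fun a => w (some a)) (w none) ∧
      ∀ z < w none, ¬ Q (fun a => w (some a)) z) :=
    C.and hQ (all (imp (h.lt (var _) (var _))
      (C.not (C.comp (fun o : Option α => o.elim none (fun a => some (some a))) hQ))))
  have h2 : C.D (fun v : α → A => ∃ y, Q v y ∧ ∀ z < y, ¬ Q v z) :=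
    ex (Q := fun v y => Q v y ∧ ∀ z < y, ¬ Q v z) h1
  refine congr (DC.or h1 (C.and (eq (var none) (h.fc 0)) (C.not (C.comp some h2)))) fun w => ?_
  beta_reduce
  constructor
  · rintro (⟨h3, h4⟩ | ⟨h3, h4⟩)
    · exact mu_eq h3 h4
    · rw [mu, dif_neg h4, h3]
  · intro h3
    by_cases h4 : ∃ y, Q (fun a => w (some a)) y ∧ ∀ z < y, ¬ Q (fun a => w (some a)) z
    · obtain ⟨y, h5, h6⟩ := h4
      rw [mu_eq h5 h6] at h3
      exact Or.inl (h3 ▸ ⟨h5, h6⟩)
    · rw [mu, dif_neg h4] at h3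
      exact Or.inr ⟨h3.symm, h4⟩

omit h [CommSemiring A] [LinearOrder A] [IsStrictOrderedRing A] [CanonicallyOrderedAdd A] in
theorem fite {p : (α → A) → Prop} {inst : ∀ v, Decidable (p v)} {f g : (α → A) → A} (hp : C.D p)
    (hf : C.F f) (hg : C.F g) : C.F (fun v => @ite _ (p v) (inst v) (f v) (g v)) := by
  refine congr (DC.or (C.and (C.comp some hp) hf) (C.and (C.not (C.comp some hp)) hg)) fun w => ?_
  by_cases h1 : p (fun a => w (some a)) <;> simp [h1]

omit [IsStrictOrderedRing A] [CanonicallyOrderedAdd A] in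
theorem fpair {f g : (α → A) → A} (hf : C.F f) (hg : C.F g) :
    C.F (fun v => pairA (f v) (g v)) :=
  fite (h.lt hf hg) (h.fadd (h.fmul hg hg) hf) (h.fadd (h.fadd (h.fmul hf hf) hf) hg)

omit [IsStrictOrderedRing A] [CanonicallyOrderedAdd A] in
theorem fleft {f : (α → A) → A} (hf : C.F f) : C.F (fun v => leftA (f v)) :=
  h.fmu (ex (eq (h.fpair (var _) (var _)) ((hf.comp some).comp some)))

omit [IsStrictOrderedRing A] [CanonicallyOrderedAdd A] in
theorem fright {f : (α → A) → A} (hf : C.F f) : C.F (fun v => rightA (f v)) :=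
  h.fmu (ex (eq (h.fpair (var _) (var _)) ((hf.comp some).comp some)))

omit [IsStrictOrderedRing A] [CanonicallyOrderedAdd A] in
theorem fmod {f g : (α → A) → A} (hf : C.F f) (hg : C.F g) : C.F (fun v => modA (f v) (g v)) :=
  h.fmu (ex (eq ((hf.comp some).comp some)
    (h.fadd (h.fmul ((hg.comp some).comp some) (var _)) (var _))))

omit [IsStrictOrderedRing A] [CanonicallyOrderedAdd A] in
theorem fbeta {f g : (α → A) → A} (hf : C.F f) (hg : C.F g) :
    C.F (fun v => betaA (f v) (g v)) :=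
  h.fmod (h.fleft hf) (h.fadd (h.fmul (h.fadd hg (h.fc 1)) (h.fright hf)) (h.fc 1))

omit [CanonicallyOrderedAdd A] in
theorem le_of_lt_succ {x y : A} (hx : x < y + 1) : x ≤ y :=
  not_lt.1 fun h1 => absurd (h.disc _ _ h1) (not_le.2 hx)

theorem std_of_le {x : A} {n : ℕ} (hx : x ≤ n) : ∃ m ≤ n, x = (m : ℕ) := by
  induction n with
  | zero => exact ⟨0, le_rfl, by simpa using hx⟩
  | succ n ih =>
    rcases hx.eq_or_lt with h1 | h1
    · exact ⟨n + 1, le_rfl, h1⟩
    · obtain ⟨m, h2, h3⟩ := ih (h.le_of_lt_succ (by simpa using h1))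
      exact ⟨m, by omega, h3⟩

theorem std_of_lt {x : A} {n : ℕ} (hx : x < n) : ∃ m < n, x = (m : ℕ) := by
  obtain ⟨m, -, rfl⟩ := h.std_of_le hx.le
  exact ⟨m, by simpa using hx, rfl⟩

theorem mu_nat {P : A → Prop} {n : ℕ} (h1 : P n) (h2 : ∀ m < n, ¬ P (m : ℕ)) : mu P = n :=
  mu_eq h1 fun z hz => by
    obtain ⟨m, hm, rfl⟩ := h.std_of_lt hz
    exact h2 m hm

theorem forall_lt_nat {P : A → Prop} {n : ℕ} : (∀ x < (n : A), P x) ↔ ∀ m < n, P (m : ℕ) :=
  ⟨fun h1 m hm => h1 m (by simpa using hm), fun h1 x hx => by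
    obtain ⟨m, hm, rfl⟩ := h.std_of_lt hx
    exact h1 m hm⟩

/-- Overspill. -/
theorem overspill {P : A → Prop} (hP : C.D (fun v : Fin 1 → A => P (v 0)))
    (hs : ∀ n : ℕ, P n) : ∃ x, P x ∧ ∀ n : ℕ, (n : A) < x := by
  by_contra hc
  obtain ⟨c, hc'⟩ := h.ns
  have h1 : ∀ x, (∀ y ≤ x, P y) → ∃ n : ℕ, x = n := fun x hx => by
    by_contra h2
    refine hc ⟨x, hx x le_rfl, fun n => not_le.1 fun h3 => ?_⟩
    obtain ⟨m, -, h4⟩ := h.std_of_le h3
    exact h2 ⟨m, h4⟩
  have h2 := h.ind' (fun x => ∀ y ≤ x, P y)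
    (all (imp (h.le (var _) (var _)) (app1 hP (var _))))
    (fun y hy => by
      have : y = 0 := by simpa using hy
      simpa [this] using hs 0)
    (fun x hx y hy => by
      obtain ⟨n, rfl⟩ := h1 x hx
      obtain ⟨m, -, rfl⟩ := h.std_of_le (n := n + 1) (by simpa using hy)
      exact hs m)
  obtain ⟨n, hn⟩ := h1 c (h2 c)
  exact hc' n hn

theorem pairA_bound (x y : A) : max x y * max x y ≤ pairA x y ∧
    pairA x y < (max x y + 1) * (max x y + 1) := by
  unfold pairA
  split_ifs with h1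
  · rw [max_eq_right h1.le]
    refine ⟨le_self_add, ?_⟩
    calc y * y + x < y * y + y := by gcongr
      _ ≤ y * y + y + (y + 1) := le_self_add
      _ = _ := by ring
  · rw [max_eq_left (not_lt.1 h1)]
    refine ⟨by rw [add_assoc]; exact le_self_add, ?_⟩
    calc x * x + x + y ≤ x * x + x + x := by gcongr; exact not_lt.1 h1
      _ < x * x + x + x + 1 := lt_add_one _
      _ = _ := by ring

theorem pairA_inj {x y x' y' : A} (e : pairA x y = pairA x' y') : x = x' ∧ y = y' := by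
  have key : ∀ a b c d : A, pairA a b = pairA c d → max a b ≤ max c d := fun a b c d e => by
    refine not_lt.1 fun h1 => ?_
    have h2 := h.disc _ _ h1
    have h3 := (h.pairA_bound a b).1
    have h4 := (h.pairA_bound c d).2
    exact absurd (e ▸ (mul_le_mul' h2 h2).trans h3) (not_le.2 h4)
  have hm := le_antisymm (key _ _ _ _ e) (key _ _ _ _ e.symm)
  unfold pairA at e
  split_ifs at e with h1 h2 h2
  · rw [max_eq_right h1.le, max_eq_right h2.le] at hm
    subst hm
    exact ⟨add_left_cancel e, rfl⟩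
  · rw [max_eq_right h1.le, max_eq_left (not_lt.1 h2)] at hm
    subst hm
    rw [add_assoc] at e
    exact absurd (add_left_cancel e ▸ h1) (not_lt.2 le_self_add)
  · rw [max_eq_left (not_lt.1 h1), max_eq_right h2.le] at hm
    subst hm
    rw [add_assoc] at e
    exact absurd ((add_left_cancel e).symm ▸ h2) (not_lt.2 le_self_add)
  · rw [max_eq_left (not_lt.1 h1), max_eq_left (not_lt.1 h2)] at hm
    subst hm
    exact ⟨rfl, add_left_cancel e⟩

theorem pairA_surj (z : A) : ∃ x y, pairA x y = z := by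
  refine h.ind' (fun z => ∃ x y, pairA x y = z) (ex (ex (eq (h.fpair (var _) (var _)) (var _))))
    ⟨0, 0, by simp [pairA]⟩ ?_ z
  rintro _ ⟨x, y, rfl⟩
  by_cases h1 : x < y
  · rcases (h.disc _ _ h1).eq_or_lt with h2 | h2
    · refine ⟨y, 0, ?_⟩
      simp only [pairA, if_pos h1, if_neg (not_lt.2 (zero_le (a := y)))]
      rw [← h2]; ring
    · exact ⟨x + 1, y, by simp only [pairA, if_pos h1, if_pos h2, add_assoc]⟩
  · rcases (not_lt.1 h1).eq_or_lt with h2 | h2
    · refine ⟨0, x + 1, ?_⟩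
      have : (0 : A) < x + 1 := lt_of_le_of_lt (zero_le (a := x)) (lt_add_one x)
      simp only [pairA, if_neg h1, if_pos this]
      rw [h2]; ring
    · exact ⟨x, y + 1, by
        simp only [pairA, if_neg h1, if_neg (not_lt.2 (h.disc _ _ h2)), add_assoc]⟩

theorem leftA_pair (x y : A) : leftA (pairA x y) = x :=
  mu_eq ⟨y, rfl⟩ fun _ hz ⟨_, e⟩ => hz.ne (h.pairA_inj e).1

theorem rightA_pair (x y : A) : rightA (pairA x y) = y :=
  mu_eq ⟨x, rfl⟩ fun _ hz ⟨_, e⟩ => hz.ne (h.pairA_inj e).2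

theorem leftA_cast (n : ℕ) : leftA (n : A) = (n.unpair.1 : ℕ) := by
  conv_lhs => rw [← Nat.pair_unpair n, ← pairA_cast, h.leftA_pair]

theorem rightA_cast (n : ℕ) : rightA (n : A) = (n.unpair.2 : ℕ) := by
  conv_lhs => rw [← Nat.pair_unpair n, ← pairA_cast, h.rightA_pair]

theorem modA_eq {m r : A} (q : A) (hr : r < m) : modA (m * q + r) m = r := by
  refine mu_eq ⟨q, rfl⟩ fun z hz ⟨q', e⟩ => ?_
  rcases lt_or_ge q q' with h1 | h1
  · have : m * q + r < m * q' + z :=
      calc m * q + r < m * q + m := by gcongr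
        _ = m * (q + 1) := by ring
        _ ≤ m * q' := mul_le_mul' le_rfl (h.disc _ _ h1)
        _ ≤ _ := le_self_add
    exact this.ne e
  · have : m * q' + z < m * q + r := add_lt_add_of_le_of_lt (mul_le_mul' le_rfl h1) hz
    exact this.ne' e

theorem exists_div (a m : A) : ∃ q r, a = (m + 1) * q + r ∧ r < m + 1 := by
  refine h.ind' (fun a => ∃ q r, a = (m + 1) * q + r ∧ r < m + 1)
    (ex (ex (C.and (eq (var _) (h.fadd (h.fmul (h.fc _) (var _)) (var _)))
      (h.lt (var _) (h.fc _))))) ⟨0, 0, by simp, by positivity⟩ ?_ a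
  rintro _ ⟨q, r, rfl, hr⟩
  rcases (h.disc _ _ hr).eq_or_lt with h2 | h2
  · exact ⟨q + 1, 0, by rw [add_assoc, h2]; ring, by positivity⟩
  · exact ⟨q, r + 1, by ring, h2⟩

theorem betaA_iff (c i r : A) : betaA c i = r ↔
    ∃ x y q, pairA x y = c ∧ x = ((i + 1) * y + 1) * q + r ∧ r < (i + 1) * y + 1 := by
  constructor
  · rintro rfl
    obtain ⟨x, y, rfl⟩ := h.pairA_surj c
    obtain ⟨q, r, h1, h2⟩ := h.exists_div x ((i + 1) * y)
    have : betaA (pairA x y) i = r := by
      rw [betaA, h.leftA_pair, h.rightA_pair, h1, h.modA_eq q h2]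
    exact ⟨x, y, q, rfl, this ▸ h1, this ▸ h2⟩
  · rintro ⟨x, y, q, rfl, h1, h2⟩
    rw [betaA, h.leftA_pair, h.rightA_pair, h1, h.modA_eq q h2]

theorem betaA_cast (c i : ℕ) : betaA (c : A) i = (Nat.beta c i : ℕ) := by
  refine (h.betaA_iff _ _ _).2 ⟨c.unpair.1, c.unpair.2,
    (c.unpair.1 / ((i + 1) * c.unpair.2 + 1) : ℕ), by rw [pairA_cast, Nat.pair_unpair], ?_, ?_⟩
  · exact_mod_cast (Nat.div_add_mod _ _).symm
  · exact_mod_cast Nat.mod_lt _ (Nat.succ_pos _)

end Ar

/-- Congruence modulo `m`. -/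
def Cg (m x y : A) : Prop := ∃ s t, x + m * s = y + m * t

section
omit [LinearOrder A] [IsStrictOrderedRing A] [CanonicallyOrderedAdd A]

theorem Cg.refl (m x : A) : Cg m x x := ⟨0, 0, rfl⟩

theorem Cg.symm {m x y : A} (h : Cg m x y) : Cg m y x := let ⟨s, t, e⟩ := h; ⟨t, s, e.symm⟩

theorem Cg.trans {m x y z : A} (h : Cg m x y) (h' : Cg m y z) : Cg m x z := by
  obtain ⟨s, t, e⟩ := h
  obtain ⟨s', t', e'⟩ := h'
  refine ⟨s + s', t + t', ?_⟩
  calc x + m * (s + s') = x + m * s + m * s' := by ring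
    _ = y + m * s' + m * t := by rw [e]; ring
    _ = _ := by rw [e']; ring

theorem Cg.add {m x y : A} (h : Cg m x y) (z : A) : Cg m (z + x) (z + y) :=
  let ⟨s, t, e⟩ := h; ⟨s, t, by rw [add_assoc, e, add_assoc]⟩

theorem Cg.mul {m x y : A} (h : Cg m x y) (z : A) : Cg m (x * z) (y * z) := by
  obtain ⟨s, t, e⟩ := h
  refine ⟨s * z, t * z, ?_⟩
  calc x * z + m * (s * z) = (x + m * s) * z := by ring
    _ = _ := by rw [e]; ring

theorem Cg.inv_mul {m x x' : A} (h : ∃ y, Cg m (x * y) 1) (h' : ∃ y, Cg m (x' * y) 1) :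
    ∃ y, Cg m (x * x' * y) 1 := by
  obtain ⟨y, h⟩ := h
  obtain ⟨y', h'⟩ := h'
  refine ⟨y * y', ?_⟩
  have h1 := h.mul (x' * y')
  rw [one_mul] at h1
  have := h1.trans h'
  rwa [show x * y * (x' * y') = x * x' * (y * y') by ring] at this

theorem crt (b : A) (n : ℕ) (hb : ∀ d, 0 < d → d < n → ∃ e, b = (d : ℕ) * e) (f : ℕ → A) :
    ∀ k ≤ n, ∃ x, ∀ i < k, Cg (((i : ℕ) + 1) * b + 1) x (f i) := by
  intro k
  induction k with
  | zero => exact fun _ => ⟨0, by simp⟩
  | succ k ih =>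
    intro hk
    obtain ⟨x, hx⟩ := ih (by omega)
    have h1 : ∀ i < k, ∃ y, Cg ((k + 1) * b + 1) ((((i : ℕ) + 1) * b + 1) * y) 1 := by
      intro i hi
      obtain ⟨d, rfl⟩ : ∃ d, k = i + d := ⟨k - i, by omega⟩
      obtain ⟨e, he⟩ := hb d (by omega) (by omega)
      set K : A := ((i + d : ℕ) : A) + 1 with hK
      have hK' : K = i + 1 + d := by rw [hK]; push_cast; ring
      have h2 : Cg (K * b + 1) (((i + 1) * b + 1) * K) d := ⟨0, i + 1, by rw [hK']; ring⟩
      have h3 : Cg (K * b + 1) (d * (K * e * (K * b))) 1 := by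
        refine ⟨1, K * b, ?_⟩
        have : (d : A) * (K * e * (K * b)) = K * b * (K * b) := by
          conv_rhs => rw [he]
          rw [he]; ring
        rw [this]; ring
      exact ⟨K * (K * e * (K * b)), by rw [← mul_assoc]; exact (h2.mul _).trans h3⟩
    have h2 : ∀ j ≤ k, ∃ P, (∃ y, Cg ((k + 1) * b + 1) (P * y) 1) ∧
        ∀ i < j, ∃ z, P = (((i : ℕ) + 1) * b + 1) * z := by
      intro j
      induction j with
      | zero => exact fun _ => ⟨1, ⟨1, by simpa using Cg.refl _ _⟩, by simp⟩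
      | succ j ihj =>
        intro hj
        obtain ⟨P, h3, h4⟩ := ihj (by omega)
        refine ⟨_, Cg.inv_mul h3 (h1 j (by omega)), fun i hi => ?_⟩
        rcases Nat.lt_succ_iff_lt_or_eq.1 hi with h5 | rfl
        · obtain ⟨z, rfl⟩ := h4 i h5
          exact ⟨_, mul_assoc _ _ _⟩
        · exact ⟨P, mul_comm _ _⟩
    obtain ⟨P, ⟨y, hy⟩, hP⟩ := h2 k le_rfl
    refine ⟨x + P * y * (f k + (k + 1) * b * x), fun i hi => ?_⟩
    rcases Nat.lt_succ_iff_lt_or_eq.1 hi with h5 | rfl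
    · obtain ⟨z, rfl⟩ := hP i h5
      exact Cg.trans ⟨0, z * y * (f k + (k + 1) * b * x), by ring⟩ (hx i h5)
    · exact ((hy.mul _).add x).trans ⟨0, x, by ring⟩

end

theorem Ar.exists_beta (h : Ar C) (f : ℕ → A) (n : ℕ) :
    ∃ c : A, ∀ i < n, betaA c (i : ℕ) = f i := by
  obtain ⟨M, hM⟩ : ∃ M, ∀ i < n, f i ≤ M := by
    induction n with
    | zero => exact ⟨0, by simp⟩
    | succ n ih =>
      obtain ⟨M, hM⟩ := ih
      refine ⟨max M (f n), fun i hi => ?_⟩
      rcases Nat.lt_succ_iff_lt_or_eq.1 hi with h5 | rfl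
      · exact (hM i h5).trans (le_max_left _ _)
      · exact le_max_right _ _
  obtain ⟨x, hx⟩ := crt ((n.factorial : ℕ) * M) n (fun d h1 h2 => by
    obtain ⟨e, he⟩ := Nat.dvd_factorial h1 h2.le
    exact ⟨e * M, by rw [he]; push_cast; ring⟩) f n le_rfl
  refine ⟨pairA x ((n.factorial : ℕ) * M), fun i hi => (h.betaA_iff _ _ _).2 ?_⟩
  have h1 : f i < ((i : ℕ) + 1) * ((n.factorial : ℕ) * M) + 1 := by
    refine lt_of_le_of_lt ((hM i hi).trans ?_) (lt_add_one _)
    have h2 : (1 : A) ≤ (n.factorial : ℕ) := by exact_mod_cast n.factorial_pos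
    calc M = 1 * (1 * M) := by ring
      _ ≤ _ := mul_le_mul' le_add_self (mul_le_mul' h2 le_rfl)
  obtain ⟨s, t, e⟩ := hx i hi
  generalize hm : ((i : ℕ) + 1) * ((n.factorial : ℕ) * M) + 1 = m at h1 e
  rcases le_or_gt s t with h3 | h3
  · obtain ⟨q, rfl⟩ := exists_add_of_le h3
    refine ⟨_, _, q, rfl, ?_, hm ▸ h1⟩
    rw [hm]
    apply add_right_cancel (b := m * s)
    rw [e]; ring
  · obtain ⟨q, rfl⟩ := exists_add_of_le (h.disc _ _ h3)
    have : x + m * q + m = f i := by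
      apply add_right_cancel (b := m * t)
      rw [← e]; ring
    exact absurd (this ▸ h1) (not_lt.2 le_add_self)

end Pool.Agent.Work.MP_1f9298_lc
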