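import Pool.Agent.Work.MP_1f9298_lc.Fml

/-!
The upper level: a presentation with computable access to the existential types.
-/

set_option linter.unusedSectionVars false

namespace Pool.Agent.Work.MP_1f9298_lc

open Pool.Agent.Work.MP_db9079_lc Pool.Agent.Lib.RelComp Encodable

variable {A : Type} [CommSemiring A] [LinearOrder A] [IsStrictOrderedRing A]
  [CanonicallyOrderedAdd A] {C : DC A} {O O1 : Set (ℕ →. ℕ)}

/-- `u'` codes witnesses for `ψ` at the assignment coded by `u`. -/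
def verif (u : A) (ψ : F2) (u' : A) : Prop := Agr ψ.1 (bt u) (bt u') ∧ satL sat1 (bt u') ψ.2

/-- Membership in a column. -/
def Rm (R : Set ℕ) {β : Type} [Primcodable β] (d : ℕ) (x : β) : Prop := Nat.pair d (encode x) ∈ R

theorem cp_Rm {R : Set ℕ} (hR : CP O (fun n => n ∈ R)) {α β : Type} [Primcodable α]
    [Primcodable β] {d : α → ℕ} {x : α → β} (hd : CI O d) (hx : CI O x) :
    CP O (fun a => Rm R (d a) (x a)) :=
  CP.comp (fun n => n ∈ R) (fun a => Nat.pair (d a) (encode (x a))) hR (by fun_prop)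

/-- Refutation of a belief about types of level two. -/
def refG (V : ℕ → F2 → ℕ → Prop) (Bc : ℕ → ℕ → ℕ) {ι : Type} [Primcodable ι] (vf : ι → ℕ)
    (D Z : ι → F2 → Prop) (w s : ℕ) : Prop :=
  ∃ x : ι × F2, encode x < s ∧ (D x.1 x.2 ∧ ((Z x.1 x.2 ∧ ¬ V (vf x.1) x.2 (Bc w (encode x))) ∨
    (¬ Z x.1 x.2 ∧ ∃ u, u < s ∧ V (vf x.1) x.2 u)))

theorem refG_mono {V : ℕ → F2 → ℕ → Prop} {Bc : ℕ → ℕ → ℕ} {ι : Type} [Primcodable ι]
    {vf : ι → ℕ} {D Z : ι → F2 → Prop} {w s s' : ℕ} (h : s ≤ s') :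
    refG V Bc vf D Z w s → refG V Bc vf D Z w s' := fun ⟨x, h1, h2, h3⟩ =>
  ⟨x, h1.trans_le h, h2, h3.imp_right (And.imp_right fun ⟨u, h4, h5⟩ => ⟨u, h4.trans_le h, h5⟩)⟩

/-- Indices of witnesses. -/
abbrev Idx := ℕ × List (Bool × F2)

/-- The conditions on a type of level two. -/
def PZ (R : Set ℕ) (m0 d m j : ℕ) (Z : F2 → Prop) : Prop :=
  (∀ φ : F1, φ.1 ≤ m0 → (Z (emb φ) ↔ Rm R d (emb φ))) ∧
  ∀ L : List (Bool × F2), (∀ p ∈ L, p.2.1 ≤ m + 1 ∧ (Z p.2 ↔ p.1 = true)) →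
    ∀ p ∈ L, (Rm R j (((m, L) : Idx), p.2) ↔ p.1 = true)

/-- The tree of finite approximations. -/
def TZ (R : Set ℕ) (m0 d m j : ℕ) (z : List Bool) : Prop :=
  (∀ φ : F1, encode φ < z.length → encode (emb φ) < z.length → φ.1 ≤ m0 →
    (z.getD (encode (emb φ)) false = true ↔ Rm R d (emb φ))) ∧
  ∀ L : List (Bool × F2), encode L < z.length → (∀ p ∈ L, encode p.2 < z.length ∧
    p.2.1 ≤ m + 1 ∧ (z.getD (encode p.2) false = true ↔ p.1 = true)) →
    ∀ p ∈ L, (Rm R j (((m, L) : Idx), p.2) ↔ p.1 = true)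

theorem TZ_of_PZ {R X : Set ℕ} {m0 d m j : ℕ} (h : PZ R m0 d m j fun ψ => encode ψ ∈ X)
    {z : List Bool} (hz : ∀ i < z.length, (z.getD i false = true ↔ i ∈ X)) : TZ R m0 d m j z :=
  ⟨fun φ _ h1 h2 => (hz _ h1).trans (h.1 φ h2), fun L _ h1 => h.2 L fun p hp =>
    ⟨(h1 p hp).2.1, (hz _ (h1 p hp).1).symm.trans (h1 p hp).2.2⟩⟩

open Classical in
/-- An initial part of the characteristic sequence. -/
noncomputable def bits (X : Set ℕ) (n : ℕ) : List Bool := (List.range n).map fun i => decide (i ∈ X)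

@[simp] theorem length_bits (X : Set ℕ) (n : ℕ) : (bits X n).length = n := by simp [bits]

theorem getD_bits {X : Set ℕ} {n i : ℕ} (h : i < n) :
    (bits X n).getD i false = true ↔ i ∈ X := by simp [bits, h]

theorem PZ_of_TZ {R X : Set ℕ} {m0 d m j : ℕ}
    (h : ∀ z : List Bool, (∀ i < z.length, (z.getD i false = true ↔ i ∈ X)) → TZ R m0 d m j z) :
    PZ R m0 d m j fun ψ => encode ψ ∈ X := by
  have h1 := fun n => h (bits X n) fun i hi => getD_bits (by simpa using hi)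
  refine ⟨fun φ h2 => ?_, fun L h2 => ?_⟩
  · rw [← (h1 (encode φ + encode (emb φ) + 1)).1 φ (by simp) (by simp) h2,
      getD_bits (by omega)]
  · refine (h1 (encode L + (L.map fun p => encode p.2).sum + 1)).2 L (by simp)
      fun p hp => ?_
    have h3 := List.single_le_sum (l := L.map fun p => encode p.2) (by simp) _
      (List.mem_map_of_mem hp)
    exact ⟨by simp only [length_bits]; omega, (h2 p hp).1,
      (getD_bits (by omega)).trans (h2 p hp).2⟩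

theorem cp_TZ {R : Set ℕ} {α : Type} [Primcodable α] {m0 d m j : α → ℕ} {z : α → List Bool}
    (h1 : CP O (fun p : α × F2 => Rm R (d p.1) p.2))
    (h2 : CP O (fun p : α × Idx × F2 => Rm R (j p.1) p.2)) (h3 : CI O m0) (h4 : CI O m)
    (h5 : CI O z) : CP O (fun a => TZ R (m0 a) (d a) (m a) (j a) (z a)) := by
  obtain ⟨r1, e1⟩ : ∃ r : α → F2 → Prop, ∀ a ψ, Rm R (d a) ψ = r a ψ := ⟨_, fun _ _ => rfl⟩
  obtain ⟨r2, e2⟩ : ∃ r : α → Idx × F2 → Prop, ∀ a ψ, Rm R (j a) ψ = r a ψ := ⟨_, fun _ _ => rfl⟩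
  unfold TZ
  simp only [e1, e2] at h1 h2 ⊢
  simp only [forall_nex, exists_prop, Classical.not_not]
  fun_prop

/-- The construction at the upper level. -/
noncomputable def eng2 (ν : ℕ → A) (R : Set ℕ) (Bc : ℕ → ℕ → ℕ) (d0 : ℕ) :
    Eng A (ℕ × ℕ) (ℕ × ℕ) where
  ν := ν
  SatC v c := ∀ φ : F1, φ.1 ≤ c.1 → (sat1 v φ ↔ Rm R c.2 (emb φ))
  bd := Prod.fst
  pm := Prod.fst
  Real v t := ∀ ψ : F2, ψ.1 ≤ t.1 → (sat2 v ψ ↔ Rm R t.2 ψ)
  tn := Prod.fst
  cons t c := ∀ L : List (Bool × F1),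
    (∀ p ∈ L, p.2.1 ≤ c.1 ∧ (Rm R c.2 (emb p.2) ↔ p.1 = true)) → Rm R t.2 ((t.1, L) : F2)
  refB l t w s := (∃ i, i < l.length ∧ ν (Bc w.unpair.1 i) ≠ ν (l.getD i 0)) ∨
    refG (fun a ψ b => verif (ν a) ψ (ν b)) Bc (fun _ : Unit => w.unpair.1)
      (fun _ ψ => ψ.1 ≤ t.1) (fun _ ψ => Rm R t.2 ψ) w.unpair.2 s
  refA l k r s := (∃ x : Idx, encode x < s ∧
      ((∃ i, i < l.length ∧ ν (Bc (Bc r.unpair.1 (encode x)) i) ≠ ν (l.getD i 0)) ∨
      (l.length ≤ x.1 ∧ ν (Bc (Bc r.unpair.1 (encode x)) x.1) ≠ ν k))) ∨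
    refG (fun a ψ b => verif (ν a) ψ (ν b)) Bc (fun x : Idx => Bc r.unpair.1 (encode x))
      (fun _ _ => True) (fun x ψ => Rm R r.unpair.2.unpair.1 (x, ψ)) r.unpair.2.unpair.2 s
  ok l _ r c := ∀ N, ∃ z, z ∈ allLists N ∧
    ∀ n ≤ N, TZ R c.1 c.2 (max c.1 l.length) r.unpair.2.unpair.1 (z.take n)
  prop l _ r c s :=
    (least s fun d => PZ R c.1 c.2 (max c.1 l.length) r.unpair.2.unpair.1 (Rm R d)).map fun d =>
      ((max c.1 l.length + 1, d), (max c.1 l.length + 1, d))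
  t0 := (0, d0)
  a0 := []
  c0 := (0, d0)

namespace Ar

variable (h : Ar C) {ν : ℕ → A} (hν : Function.Surjective ν) {Bc : ℕ → ℕ → ℕ}
  (hB : ∀ e i, ν (Bc e i) = bt (ν e) i)
include h

theorem sat2_iff (u : A) (ψ : F2) : sat2 (bt u) ψ ↔ ∃ u', verif u ψ u' :=
  h.satE_code (loc_satE _) _ ψ

include hν hB

theorem refG_sound {ι : Type} [Primcodable ι] {vf : ι → ℕ} {D Z : ι → F2 → Prop} {w : ℕ}
    (hr : ∀ s, ¬ refG (fun a ψ b => verif (ν a) ψ (ν b)) Bc vf D Z w s) (l : ι) (ψ : F2)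
    (hD : D l ψ) : sat2 (bt (ν (vf l))) ψ ↔ Z l ψ := by
  rw [h.sat2_iff]
  constructor
  · rintro ⟨u, hu⟩
    obtain ⟨u, rfl⟩ := hν u
    by_contra h1
    exact hr (encode (l, ψ) + u + 1) ⟨(l, ψ), by omega, hD, Or.inr ⟨h1, u, by omega, hu⟩⟩
  · intro h1
    by_contra h2
    exact hr _ ⟨(l, ψ), Nat.lt_succ_self _, hD, Or.inl ⟨h1, fun h3 => h2 ⟨_, h3⟩⟩⟩

theorem refG_compl {ι : Type} [Primcodable ι] [Inhabited ι] {vf : ι → ℕ} {D Z : ι → F2 → Prop}
    (hs : ∀ {α γ : Type} [Primcodable α] {f : α → ι}, CI (KK C) f →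
      SF C (fun a (_ : γ → A) => ν (vf (f a))))
    (hr : ∀ l ψ, D l ψ → (sat2 (bt (ν (vf l))) ψ ↔ Z l ψ)) :
    ∃ w, ∀ s, ¬ refG (fun a ψ b => verif (ν a) ψ (ν b)) Bc vf D Z w s := by
  obtain ⟨w, hw⟩ := h.wit (P := fun (x : ι × F2) u =>
      sat2 (bt (ν (vf x.1))) x.2 → verif (ν (vf x.1)) x.2 u)
    (SD.imp (h.sds_app h.sds_sat2 (by fun_prop) (hs (by fun_prop)))
      (SD.and (h.sd_agr (by fun_prop) (hs (by fun_prop)) (SF.var _))
        (h.sds_app (h.sds_satL h.sds_sat1) (by fun_prop) (SF.var _)))) fun x => by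
      by_cases h1 : sat2 (bt (ν (vf x.1))) x.2
      · exact ((h.sat2_iff _ _).1 h1).imp fun _ h2 _ => h2
      · exact ⟨0, fun h2 => absurd h2 h1⟩
  obtain ⟨w, rfl⟩ := hν w
  refine ⟨w, ?_⟩
  rintro s ⟨x, -, h1, ⟨h2, h3⟩ | ⟨h2, u, -, h3⟩⟩
  · exact h3 (by beta_reduce; rw [hB]; exact hw x ((hr _ _ h1).2 h2))
  · exact h2 ((hr _ _ h1).1 ((h.sat2_iff _ _).2 ⟨_, h3⟩))

variable {R : Set ℕ} (hR : SSA A = Set.range fun i => {x | Nat.pair i x ∈ R})
include hR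

omit hν hB in
theorem kRm {α β : Type} [Primcodable α] [Primcodable β] (d : ℕ) {x : α → β} (hx : CI (KK C) x) :
    CP (KK C) (fun a => Rm R d (x a)) :=
  CP.comp (fun n => n ∈ {x | Nat.pair d x ∈ R}) (fun a => encode (x a))
    (h.cp_of_ss (hR ▸ ⟨d, rfl⟩)) (by fun_prop)

omit hν hB in
theorem exists_col {β : Type} [Primcodable β] [Inhabited β] {P : β → Prop}
    (hP : SD C (fun a (_ : Empty → A) => P a)) : ∃ d, ∀ b, Rm R d b ↔ P b := by
  obtain ⟨X, h1, h2⟩ := h.ss_typed hP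
  rw [hR] at h1
  obtain ⟨d, rfl⟩ := h1
  exact ⟨d, h2⟩

theorem good2 {d0 : ℕ} (h0 : ∀ ψ : F2, sat2 (bt 0 : ℕ → A) ψ ↔ Rm R d0 ψ) :
    (eng2 ν R Bc d0).Good := by
  have hc : ∀ (v : ℕ → A) (t c : ℕ × ℕ), (eng2 ν R Bc d0).Real v t →
      ((eng2 ν R Bc d0).cons t c ↔ ∃ w, Agr t.1 v w ∧ (eng2 ν R Bc d0).SatC w c) := by
    intro v t c h1
    constructor
    · intro h2
      classical
      obtain ⟨w, h3, h4⟩ := h.satur (loc_satE _) h.sds_sat1 (D := fun φ => φ.1 ≤ c.1)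
        (Z := fun φ => Rm R c.2 (emb φ)) (by fun_prop) (h.kRm hR _ (by fun_prop))
        (I := fun _ => True) (by fun_prop) t.1 v fun l => by
          obtain ⟨w, h3, h4⟩ := (h1 (t.1, (l.filter fun φ => φ.1 ≤ c.1).map
            fun φ => (decide (Rm R c.2 (emb φ)), φ)) le_rfl).2 (h2 _ fun p hp => by
              obtain ⟨φ, h5, rfl⟩ := List.mem_map.1 hp
              exact ⟨by simpa using (List.mem_filter.1 h5).2, by simp⟩)
          exact ⟨w, fun i hi _ => (h3 i hi).symm, fun φ h5 h6 => by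
            simpa using h4 _ (List.mem_map_of_mem (List.mem_filter.2 ⟨h5, by simpa using h6⟩))⟩
      exact ⟨w, fun i hi => (h3 i hi trivial).symm, h4⟩
    · rintro ⟨w, h2, h3⟩ L h4
      exact (h1 (t.1, L) le_rfl).1 ⟨w, h2, fun p hp => (h3 _ (h4 p hp).1).trans (h4 p hp).2⟩
  have hA : ∀ l k r, (∀ s, ¬ (eng2 ν R Bc d0).refA l k r s) → ∀ x : Idx,
      Agr l.length (asg ν l) (bt (ν (Bc r.unpair.1 (encode x)))) ∧
      (l.length ≤ x.1 → bt (ν (Bc r.unpair.1 (encode x))) x.1 = ν k) ∧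
      ∀ ψ, sat2 (bt (ν (Bc r.unpair.1 (encode x)))) ψ ↔ Rm R r.unpair.2.unpair.1 (x, ψ) := by
    intro l k r h1 x
    refine ⟨fun i hi => ?_, fun h2 => ?_, fun ψ =>
      h.refG_sound hν hB (fun s hs => h1 s (Or.inr hs)) x ψ trivial⟩
    · by_contra h2
      exact h1 _ (Or.inl ⟨x, Nat.lt_succ_self _, Or.inl ⟨i, hi, fun e => h2 (by
        rw [← hB, e]; rfl)⟩⟩)
    · by_contra h3
      exact h1 _ (Or.inl ⟨x, Nat.lt_succ_self _, Or.inr ⟨h2, fun e => h3 (by rw [← hB, e])⟩⟩)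
  refine
    { surj := hν
      satc_loc := fun v w c h1 h2 φ h3 => (satE_agr h3 h1).symm.trans (h2 φ h3)
      real_loc := fun v w c h1 h2 φ h3 => (satE_agr h3 h1).symm.trans (h2 φ h3)
      cons_iff := hc
      refB_mono := fun l τ w s s' h1 => Or.imp_right (refG_mono h1)
      refB_sound := fun l τ w h1 h2 ψ h3 => ?_
      refB_compl := fun l τ h1 h2 => ?_
      refA_mono := fun l k r s s' h1 =>
        Or.imp (fun ⟨x, h2, h3⟩ => ⟨x, h2.trans_le h1, h3⟩) (refG_mono h1)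
      prop_mono := fun l k r c s τ c' h1 => ?_
      prop_true := fun l k r c s τ c' h1 _ h3 => ?_
      prop_ev := fun l k r c _ h1 => ?_
      ok_ex := fun l k => ?_
      base_len := rfl
      base_real := fun ψ h1 => (satE_agr h1 fun _ hi => absurd hi (Nat.not_lt_zero _)).trans (h0 ψ)
      base_cons := (hc (bt 0) _ _ fun ψ _ => h0 ψ).2
        ⟨bt 0, Agr.refl _ _, fun φ _ => (sat2_emb _ φ).symm.trans (h0 _)⟩ }
  · refine Iff.trans (satE_agr (h3.trans h2.ge) fun i hi => ?_)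
      (h.refG_sound hν hB (fun s hs => h1 s (Or.inr hs)) () ψ h3)
    by_contra h4
    exact h1 0 (Or.inl ⟨i, hi, fun e => h4 (by rw [← hB, e]; rfl)⟩)
  · obtain ⟨e, he⟩ := h.exists_agr (asg ν l) l.length
    obtain ⟨e, rfl⟩ := hν e
    obtain ⟨w, hw⟩ := h.refG_compl hν hB (vf := fun _ : Unit => e) (D := fun _ ψ => ψ.1 ≤ τ.1)
      (Z := fun _ ψ => Rm R τ.2 ψ) (fun _ => h.sfc _)
      fun _ ψ h3 => (satE_agr (h3.trans h1.ge) he).symm.trans (h2 ψ h3)
    refine ⟨Nat.pair e w, fun s => ?_⟩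
    simp only [eng2, Nat.unpair_pair]
    rintro (⟨i, hi, h3⟩ | h3)
    · exact h3 (by rw [hB, ← he i hi]; rfl)
    · exact hw s h3
  · simp only [eng2, Option.map_eq_some_iff] at h1
    obtain ⟨d, h2, h3⟩ := h1
    cases h3
    exact ⟨fun v hv φ h3 => (hv φ (by simp only; omega)).trans
      ((least_eq_some.1 h2).2.1.1 φ h3), by simp only [eng2]; omega⟩
  · simp only [eng2, Option.map_eq_some_iff] at h3
    obtain ⟨d, h2, h3⟩ := h3
    cases h3
    have h4 := (least_eq_some.1 h2).2.1.2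
    generalize hm : max c.1 l.length = m at h4 ⊢
    have hlm : l.length ≤ m := hm ▸ le_max_right _ _
    classical
    obtain ⟨v, h5, h6⟩ := h.satur (loc_satE _) h.sds_sat2 (D := fun ψ => ψ.1 ≤ m + 1)
      (Z := fun ψ => Rm R d ψ) (by fun_prop) (h.kRm hR _ (by fun_prop))
      (I := fun i => i < l.length ∨ i = m) (by fun_prop) (m + 1)
      (fun i => if i = m then ν k else asg ν l i) fun L => by
        obtain ⟨h5, h6, h7⟩ := hA l k r h1 (m, (L.filter fun ψ => ψ.1 ≤ m + 1).map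
          fun ψ => (decide (Rm R d ψ), ψ))
        refine ⟨_, fun i _ hi => ?_, fun ψ h8 h9 => (h7 ψ).trans ?_⟩
        · by_cases h8 : i = m
          · rw [if_pos h8, h8]; exact h6 hlm
          · rw [if_neg h8]; exact (h5 i (hi.resolve_right h8)).symm
        · simpa using h4 _ (fun p hp => by
            obtain ⟨φ, h10, rfl⟩ := List.mem_map.1 hp
            exact ⟨by simpa using (List.mem_filter.1 h10).2, by simp⟩) _
            (List.mem_map_of_mem (f := fun ψ => (decide (Rm R d ψ), ψ))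
              (List.mem_filter.2 ⟨h8, by simpa using h9⟩))
    refine ⟨(hc v (m + 1, d) (m + 1, d) h6).2 ⟨v, Agr.refl _ _, fun φ h7 => (sat2_emb _ φ).symm.trans (h6 _ h7)⟩,
      v, m, fun i hi => ?_, hlm, Nat.lt_succ_self _, ?_, h6⟩
    · rw [h5 i (by omega) (Or.inl hi), if_neg (by omega)]; rfl
    · rw [h5 m (by omega) (Or.inr rfl), if_pos rfl]; rfl
  · obtain ⟨X, h2, h3⟩ := h.wkl
      (T := TZ R c.1 c.2 (max c.1 l.length) r.unpair.2.unpair.1)
      (cp_TZ (h.kRm hR _ (by fun_prop)) (h.kRm hR _ (by fun_prop)) (by fun_prop) (by fun_prop)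
        CI.id') fun N => (h1 N).imp fun z hz => ⟨mem_allLists.1 hz.1, hz.2⟩
    rw [hR] at h2
    obtain ⟨d, rfl⟩ := h2
    refine ⟨d + 1, fun s hs => ?_⟩
    obtain ⟨j, -, hj⟩ := exists_least (n := s) (i := d)
      (p := fun d => PZ R c.1 c.2 (max c.1 l.length) r.unpair.2.unpair.1 (Rm R d)) hs (PZ_of_TZ h3)
    simp [eng2, hj]
  · obtain ⟨a, ha⟩ := h.exists_agr (asg ν l) l.length
    obtain ⟨e, he⟩ := h.wit (P := fun (x : Idx) u => (Agr l.length (bt a) (bt u) ∧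
        (l.length ≤ x.1 → bt u x.1 = ν k)) ∧ ((∃ u', (Agr l.length (bt a) (bt u') ∧
        (l.length ≤ x.1 → bt u' x.1 = ν k)) ∧ satL sat2 (bt u') x.2) → satL sat2 (bt u) x.2))
      (SD.and (SD.and (h.sd_agr (by fun_prop) (h.sfc _) (SF.var _))
        (SD.imp (h.sdcp (by fun_prop)) (SD.eq (h.sfbt (SF.var _) (by fun_prop)) (h.sfc _))))
        (SD.imp (SD.exA (SD.and (SD.and (h.sd_agr (by fun_prop) (h.sfc _) (SF.var _))
          (SD.imp (h.sdcp (by fun_prop)) (SD.eq (h.sfbt (SF.var _) (by fun_prop)) (h.sfc _))))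
          (h.sds_app (h.sds_satL h.sds_sat2) (by fun_prop) (SF.var _))))
          (h.sds_app (h.sds_satL h.sds_sat2) (by fun_prop) (SF.var _)))) fun x => by
        by_cases h1 : ∃ u', (Agr l.length (bt a) (bt u') ∧
          (l.length ≤ x.1 → bt u' x.1 = ν k)) ∧ satL sat2 (bt u') x.2
        · exact h1.imp fun u hu => ⟨hu.1, fun _ => hu.2⟩
        · obtain ⟨u, hu⟩ := h.exists_agr (fun i => if i < l.length then bt a i else ν k)
            (l.length + x.1 + 1)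
          exact ⟨u, ⟨fun i hi => by rw [← hu i (by omega)]; exact (if_pos hi).symm, fun h2 => by
            rw [← hu _ (by omega)]; exact if_neg (by omega)⟩, fun h2 => absurd h2 h1⟩
    obtain ⟨e, rfl⟩ := hν e
    obtain ⟨j, hj⟩ := h.exists_col hR (P := fun y : Idx × F2 =>
      sat2 (bt (bt (ν e) (encode y.1))) y.2)
      (h.sds_app h.sds_sat2 (by fun_prop) (h.sfbt (h.sfc _) (by fun_prop)))
    obtain ⟨w, hw⟩ := h.refG_compl hν hB (vf := fun x : Idx => Bc e (encode x))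
      (D := fun _ _ => True) (Z := fun x ψ => Rm R j (x, ψ))
      (fun hf => by simp only [hB]; exact h.sfbt (h.sfc _) (by fun_prop))
      fun x ψ _ => by rw [hj, hB]
    refine ⟨Nat.pair e (Nat.pair j w), fun s => ?_, ?_⟩
    · simp only [eng2, Nat.unpair_pair]
      rintro (⟨x, -, ⟨i, hi, h1⟩ | ⟨h1, h2⟩⟩ | h1)
      · exact h1 (by rw [hB, hB, ← (he x).1.1 i hi, ← ha i hi]; rfl)
      · exact h2 (by rw [hB, hB, (he x).1.2 h1])
      · exact hw s h1
    · rintro c ⟨v, h1, h2⟩ N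
      simp only [Nat.unpair_pair]
      generalize hm : max c.1 l.length = m
      have hlm : l.length ≤ m := hm ▸ le_max_right _ _
      have hcm : c.1 ≤ m := hm ▸ le_max_left _ _
      have h3 : Agr m v (Function.update v m (ν k)) := fun i hi => by
        rw [Function.update_of_ne hi.ne]
      have h4 : PZ R c.1 c.2 m j fun ψ =>
          encode ψ ∈ {n | sat2 (Function.update v m (ν k)) (dec F2 n)} := by
        simp only [Set.mem_ofPred_eq, dec_encode]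
        refine ⟨fun φ h4 => ?_, fun L h4 p hp => ?_⟩
        · exact (sat2_emb _ _).trans ((satE_agr (h4.trans hcm) h3).symm.trans (h2 φ h4))
        · obtain ⟨u, hu⟩ := h.exists_agr (Function.update v m (ν k)) (m + 1)
          rw [hj]
          refine (he (m, L)).2 ⟨u, ⟨(ha.symm.trans h1).trans ((h3.mono hlm).trans
            (hu.mono (by omega))), fun _ => by rw [← hu m (by omega)]; simp⟩, fun q hq => ?_⟩ p hp
          exact (satE_agr (h4 q hq).1 hu).symm.trans (h4 q hq).2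
      refine ⟨bits {n | sat2 (Function.update v m (ν k)) (dec F2 n)} N,
        mem_allLists.2 (length_bits _ _), fun n hn => TZ_of_PZ h4 fun i hi => ?_⟩
      simp only [List.length_take, length_bits] at hi
      rw [← getD_bits (n := N) (by omega)]
      simp only [List.getD_eq_getElem?_getD, List.getElem?_take_of_lt (show i < n by omega)]

/-- The upper level. -/
theorem level2 (cR : CP O1 (fun n => n ∈ R)) (hJ : Jmp O1 O)
    (cB : CI O (fun p : ℕ × ℕ => Bc p.1 p.2)) (cE : CP O (fun p : ℕ × ℕ => ν p.1 = ν p.2))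
    (cS : CP O (fun p : ℕ × F1 => sat1 (bt (ν p.1)) p.2)) :
    ∃ μ : ℕ → A, Function.Surjective μ ∧ ∃ tl : ℕ → ℕ, CI O tl ∧
      ∀ N L, Rm R (tl N) (emb (N, L)) ↔ sat1 μ (N, L) := by
  obtain ⟨d0, h0⟩ := h.exists_col hR (P := fun ψ : F2 => sat2 (bt 0 : ℕ → A) ψ)
    (h.sds_app h.sds_sat2 (by fun_prop) (h.sfc _))
  have cR' := cR.subst hJ.le
  obtain ⟨E, hE⟩ : ∃ E : ℕ → ℕ → Prop, ∀ x y, (ν x = ν y) = E x y := ⟨_, fun _ _ => rfl⟩
  obtain ⟨S, hS⟩ : ∃ S : ℕ → F1 → Prop, ∀ x y, sat1 (bt (ν x)) y = S x y := ⟨_, fun _ _ => rfl⟩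
  obtain ⟨V, hV⟩ : ∃ V : ℕ → F2 → ℕ → Prop, ∀ a ψ b, verif (ν a) ψ (ν b) = V a ψ b :=
    ⟨_, fun _ _ _ => rfl⟩
  obtain ⟨r1, e1⟩ : ∃ r : ℕ → F2 → Prop, ∀ a ψ, Rm R a ψ = r a ψ := ⟨_, fun _ _ => rfl⟩
  obtain ⟨r2, e2⟩ : ∃ r : ℕ → Idx × F2 → Prop, ∀ a ψ, Rm R a ψ = r a ψ := ⟨_, fun _ _ => rfl⟩
  have c1 : CP O1 (fun p : ℕ × F2 => Rm R p.1 p.2) := cp_Rm cR (by fun_prop) (by fun_prop)
  have c2 : CP O1 (fun p : ℕ × Idx × F2 => Rm R p.1 p.2) := cp_Rm cR (by fun_prop) (by fun_prop)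
  have cV : CP O (fun p : ℕ × F2 × ℕ => verif (ν p.1) p.2.1 (ν p.2.2)) := by
    simp only [verif, Agr, satL, hS]
    simp only [← hB, hE] at cE cS ⊢
    simp only [hS] at cS
    simp only [forall_nex, exists_prop, Classical.not_not]
    fun_prop
  have cP : CP O (fun p : (ℕ × ℕ × ℕ × ℕ) × ℕ =>
      PZ R p.1.1 p.1.2.1 p.1.2.2.1 p.1.2.2.2 (Rm R p.2)) := by
    unfold PZ
    simp only [e1, e2] at c1 c2 ⊢
    refine CP.and (hJ.all ?_) (hJ.all ?_) <;>
    · simp only [forall_nex, exists_prop, Classical.not_not]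
      fun_prop
  have cT : CP O1 (fun p : (ℕ × ℕ × ℕ × ℕ) × List Bool =>
      TZ R p.1.1 p.1.2.1 p.1.2.2.1 p.1.2.2.2 p.2) :=
    cp_TZ (cp_Rm cR (by fun_prop) (by fun_prop)) (cp_Rm cR (by fun_prop) (by fun_prop))
      (by fun_prop) (by fun_prop) (by fun_prop)
  have c1' := c1.subst hJ.le
  have c2' := c2.subst hJ.le
  obtain ⟨μ, h5, cs, h6, h7, h8⟩ := Eng.main (O := O)
    (h.good2 hν hB hR fun ψ => (h0 ψ).symm) (by simp only [eng2]; fun_prop)
    (by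
      simp only [eng2, e1] at c1 ⊢
      refine hJ.all ?_
      simp only [forall_nex, exists_prop, Classical.not_not]
      fun_prop)
    (by
      simp only [eng2, refG, hV, e1, ne_eq, hE] at c1' cV cE ⊢
      fun_prop)
    (by
      simp only [eng2, refG, hV, e2, ne_eq, hE] at c2' cV cE ⊢
      fun_prop)
    (by
      simp only [eng2]
      refine hJ.all ?_
      obtain ⟨T, hT⟩ : ∃ T : ℕ × ℕ × ℕ × ℕ → List Bool → Prop, ∀ a b c d z,
        TZ R a b c d z = T (a, b, c, d) z := ⟨fun p => TZ R p.1 p.2.1 p.2.2.1 p.2.2.2,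
          fun _ _ _ _ _ => rfl⟩
      simp only [hT] at cT ⊢
      simp only [forall_nex, exists_prop, Classical.not_not]
      fun_prop)
    (by
      simp only [eng2]
      obtain ⟨T, hT⟩ : ∃ T : ℕ × ℕ × ℕ × ℕ → ℕ → Prop, ∀ a b c d z,
        PZ R a b c d (Rm R z) = T (a, b, c, d) z :=
        ⟨fun p z => PZ R p.1 p.2.1 p.2.2.1 p.2.2.2 (Rm R z), fun _ _ _ _ _ => rfl⟩
      simp only [hT] at cP ⊢
      fun_prop)
  obtain ⟨f, h9, h10⟩ := CI.choose (O := O) (r := fun n s : ℕ => n ≤ (cs s).1) (by fun_prop) h8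
  exact ⟨μ, h5, fun n => (cs (f n)).2, by fun_prop, fun N L => (h7 (f N) (N, L) (h10 N)).symm⟩

end Ar

end Pool.Agent.Work.MP_1f9298_lc
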