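import Pool.Agent.Work.MP_1f9298_lc.L1
import Pool.Agent.Work.MP_1f9298_lc.L2

/-!
The two levels together, and the passage from a presentation to a bijective one of exact degree.
-/

set_option linter.unusedSectionVars false

namespace Pool.Agent.Work.MP_1f9298_lc

open Pool.Agent.Work.MP_db9079_lc Pool.Agent.Lib.RelComp Encodable

variable {A : Type} [CommSemiring A] [LinearOrder A] [IsStrictOrderedRing A]
  [CanonicallyOrderedAdd A] {C : DC A} {O : Set (ℕ →. ℕ)} {ν : ℕ → A}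

theorem cp_add (h : CP O (sat0 ν)) : CP O (fun p : ℕ × ℕ × ℕ => ν p.1 + ν p.2.1 = ν p.2.2) :=
  (CP.comp _ (fun p : ℕ × ℕ × ℕ => Nat.pair 0 (Nat.pair p.1 (Nat.pair p.2.1 p.2.2))) h
    (by fun_prop)).congr fun p => by simp [sat0]

theorem cp_mul (h : CP O (sat0 ν)) : CP O (fun p : ℕ × ℕ × ℕ => ν p.1 * ν p.2.1 = ν p.2.2) :=
  (CP.comp _ (fun p : ℕ × ℕ × ℕ => Nat.pair 1 (Nat.pair p.1 (Nat.pair p.2.1 p.2.2))) h
    (by fun_prop)).congr fun p => by simp [sat0]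

theorem cp_lt (h : CP O (sat0 ν)) : CP O (fun p : ℕ × ℕ => ν p.1 < ν p.2) :=
  (CP.comp _ (fun p : ℕ × ℕ => Nat.pair 2 (Nat.pair p.1 (Nat.pair p.2 0))) h
    (by fun_prop)).congr fun p => by simp [sat0]

theorem cp_eq (h : CP O (sat0 ν)) : CP O (fun p : ℕ × ℕ => ν p.1 = ν p.2) :=
  ((cp_lt h).not.and (CP.comp _ (fun p : ℕ × ℕ => (p.2, p.1)) (cp_lt h) (by fun_prop)).not).congr
    fun p => by simp only [not_lt]; exact ⟨fun h => le_antisymm h.2 h.1, fun h => ⟨h.ge, h.le⟩⟩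

theorem exists_ad (hν : Function.Surjective ν) (h : CP O (sat0 ν)) :
    ∃ f : ℕ → ℕ → ℕ, CI O (fun p : ℕ × ℕ => f p.1 p.2) ∧ ∀ x y, ν (f x y) = ν x + ν y := by
  obtain ⟨f, h1, h2⟩ := CI.choose (O := O) (r := fun (p : ℕ × ℕ) (z : ℕ) => ν p.1 + ν p.2 = ν z)
    (CP.comp _ (fun x : (ℕ × ℕ) × ℕ => (x.1.1, x.1.2, x.2)) (cp_add h) (by fun_prop))
    fun p => (hν _).imp fun _ e => e.symm
  exact ⟨fun x y => f (x, y), h1, fun x y => (h2 (x, y)).symm⟩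

theorem exists_mu (hν : Function.Surjective ν) (h : CP O (sat0 ν)) :
    ∃ f : ℕ → ℕ → ℕ, CI O (fun p : ℕ × ℕ => f p.1 p.2) ∧ ∀ x y, ν (f x y) = ν x * ν y := by
  obtain ⟨f, h1, h2⟩ := CI.choose (O := O) (r := fun (p : ℕ × ℕ) (z : ℕ) => ν p.1 * ν p.2 = ν z)
    (CP.comp _ (fun x : (ℕ × ℕ) × ℕ => (x.1.1, x.1.2, x.2)) (cp_mul h) (by fun_prop))
    fun p => (hν _).imp fun _ e => e.symm
  exact ⟨fun x y => f (x, y), h1, fun x y => (h2 (x, y)).symm⟩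

theorem Ar.exists_Bc (h : Ar C) (hν : Function.Surjective ν) (hs : CP O (sat0 ν)) :
    ∃ f : ℕ → ℕ → ℕ, CI O (fun p : ℕ × ℕ => f p.1 p.2) ∧ ∀ e i, ν (f e i) = bt (ν e) i := by
  classical
  obtain ⟨ad, a1, a2⟩ := exists_ad hν hs
  obtain ⟨ml, m1, m2⟩ := exists_mu hν hs
  obtain ⟨o, ho⟩ := hν 1
  obtain ⟨nu, n1, n2⟩ : ∃ f : ℕ → ℕ, CI O f ∧ ∀ i, ν (f i) = i + 1 := by
    refine ⟨fun i => Nat.rec o (fun _ x => ad x o) i,
      CI.of_rec' (h := fun _ x => ad x o) (by fun_prop) fun _ => rfl, fun i => ?_⟩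
    induction i with
    | zero => simpa using ho
    | succ i ih => simp only [a2, ih, ho]; push_cast; rfl
  obtain ⟨E, hE⟩ : ∃ E : ℕ → ℕ → Prop, ∀ x y, (ν x = ν y) = E x y := ⟨_, fun _ _ => rfl⟩
  obtain ⟨L, hL⟩ : ∃ E : ℕ → ℕ → Prop, ∀ x y, (ν x < ν y) = E x y := ⟨_, fun _ _ => rfl⟩
  have e1 := cp_eq hs
  have l1 := cp_lt hs
  simp only [hE, hL] at e1 l1
  have hp : ∀ x y, ν (if L x y then ad (ml y y) x else ad (ad (ml x x) x) y) =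
      pairA (ν x) (ν y) := fun x y => by
    unfold pairA
    simp only [← hL]
    split_ifs <;> simp only [a2, m2]
  obtain ⟨f, h1, h2⟩ := CI.choose (O := O) (r := fun (p : ℕ × ℕ) (z : ℕ × ℕ × ℕ × ℕ) =>
      E (if L z.1 z.2.1 then ad (ml z.2.1 z.2.1) z.1 else ad (ad (ml z.1 z.1) z.1) z.2.1) p.1 ∧
      E z.1 (ad (ml (ad (ml (nu p.2) z.2.1) o) z.2.2.1) z.2.2.2) ∧
      L z.2.2.2 (ad (ml (nu p.2) z.2.1) o)) (by fun_prop) fun p => by
    obtain ⟨x, y, q, h1⟩ := (h.betaA_iff (ν p.1) p.2 _).1 rfl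
    obtain ⟨x, rfl⟩ := hν x
    obtain ⟨y, rfl⟩ := hν y
    obtain ⟨q, rfl⟩ := hν q
    obtain ⟨r, hr⟩ := hν (betaA (ν p.1) p.2)
    refine ⟨(x, y, q, r), ?_⟩
    rw [← hE, hp, ← hE, ← hL]
    simpa only [a2, m2, n2, ho, hr] using h1
  refine ⟨fun e i => (f (e, i)).2.2.2, by fun_prop, fun e i => ?_⟩
  have h3 := h2 (e, i)
  rw [← hE, hp, ← hE, ← hL] at h3
  simp only [a2, m2, n2, ho] at h3
  exact ((h.betaA_iff _ _ _).2 ⟨_, _, _, h3⟩).symm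

theorem Ar.core (h : Ar C) {R Y : Set ℕ}
    (hR : SSA A = Set.range fun i => {x | Nat.pair i x ∈ R}) (hν : Function.Surjective ν)
    (hs : CP O (sat0 ν)) (hY : CP {chi Y} (fun n => n ∈ R)) (hJ : Jmp O {chi (jump Y)}) :
    ∃ μ : ℕ → A, Function.Surjective μ ∧ CP {chi Y} (sat0 μ) := by
  obtain ⟨Bc, b1, b2⟩ := h.exists_Bc hν hs
  have h1 : CP {chi (jump Y)} (fun p : ℕ × F1 => sat1 (bt (ν p.1)) p.2) := by
    have e1 := cp_eq hs
    obtain ⟨E, hE⟩ : ∃ E : ℕ → ℕ → Prop, ∀ x y, (ν x = ν y) = E x y := ⟨_, fun _ _ => rfl⟩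
    simp only [hE] at e1
    have h2 : CP O (fun x : (ℕ × F1) × ℕ => (∀ i < x.1.2.1, E (Bc x.1.1 i) (Bc x.2 i)) ∧
        ∀ p ∈ x.1.2.2, (sat0 ν (ren0 (Bc x.2) p.2) ↔ p.1 = true)) := by
      generalize sat0 ν = S at hs ⊢
      simp only [forall_nex, exists_prop, Classical.not_not]
      fun_prop
    refine (hJ.ex (r := fun (a : ℕ × F1) (u : ℕ) => (∀ i < a.2.1, E (Bc a.1 i) (Bc u i)) ∧
      ∀ p ∈ a.2.2, (sat0 ν (ren0 (Bc u) p.2) ↔ p.1 = true)) h2).congr fun p => ?_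
    rw [sat1, h.satE_code loc_sat0, hν.exists]
    simp only [← hE, b2, sat0_ren, Agr, satL]
  obtain ⟨μ, h2, tl, h3, h4⟩ := h.level2 hν b2 hR hY (jmp_jump Y) (b1.subst hJ.le)
    ((cp_eq hs).subst hJ.le) h1
  obtain ⟨t, h5, h6⟩ := limit_lemma h3
  exact h.level1 (Q := fun j φ => Rm R j (emb φ)) h6 h4 h2
    (fun j => h.kRm hR j (by fun_prop)) (cp_Rm hY (by fun_prop) (by fun_prop)) h5

theorem cp_sat0_comp (hs : CP O (sat0 ν)) {f : ℕ → ℕ} (hf : CI O f) :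
    CP O (sat0 fun i => ν (f i)) :=
  (CP.comp _ (fun n => ren0 f n) hs (by fun_prop)).congr fun n => sat0_ren ν f n

theorem exists_bij (hν : Function.Surjective ν) (hs : CP O (sat0 ν)) :
    ∃ μ : ℕ → A, Function.Bijective μ ∧ CP O (sat0 μ) := by
  classical
  have e1 := cp_eq hs
  obtain ⟨E, hE⟩ : ∃ E : ℕ → ℕ → Prop, ∀ x y, (ν x = ν y) = E x y := ⟨_, fun _ _ => rfl⟩
  simp only [hE] at e1
  have h1 : CP O (fun x => ¬ ∃ y, y < x ∧ E y x) := by fun_prop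
  simp only [← hE] at h1
  have h2 : ∀ a, ∃ x, (¬ ∃ y, y < x ∧ ν y = ν x) ∧ ν x = a := fun a =>
    ⟨Nat.find (hν a), fun ⟨y, h3, h4⟩ => Nat.find_min (hν a) h3 (h4.trans (Nat.find_spec (hν a))),
      Nat.find_spec (hν a)⟩
  have h3 : {x | ¬ ∃ y, y < x ∧ ν y = ν x}.Infinite := fun h3 => by
    have : Infinite A := Infinite.of_injective (Nat.cast : ℕ → A) Nat.cast_injective
    refine Set.infinite_univ ((h3.image ν).subset fun a _ => ?_)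
    obtain ⟨x, h4, h5⟩ := h2 a
    exact ⟨x, h4, h5⟩
  refine ⟨_, ⟨fun i j e => ?_, fun a => ?_⟩, cp_sat0_comp hs (ci_nth h1 h3)⟩
  · by_contra h4
    rcases lt_or_gt_of_ne h4 with h5 | h5
    · exact Nat.nth_mem_of_infinite h3 j ⟨_, Nat.nth_strictMono h3 h5, e⟩
    · exact Nat.nth_mem_of_infinite h3 i ⟨_, Nat.nth_strictMono h3 h5, e.symm⟩
  · obtain ⟨x, h4, rfl⟩ := h2 a
    exact ⟨Nat.count _ x, by rw [Nat.nth_count h4]⟩

theorem exists_exact {Y : Set ℕ} (hν : Function.Bijective ν) (hs : CP {chi Y} (sat0 ν)) :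
    ∃ μ : ℕ → A, Function.Bijective μ ∧ CP {chi Y} (sat0 μ) ∧
      ∀ n, μ (2 * n) < μ (2 * n + 1) ↔ n ∈ Y := by
  classical
  have l1 := cp_lt hs
  have y1 := cp_self Y
  obtain ⟨L, hL⟩ : ∃ E : ℕ → ℕ → Prop, ∀ x y, (ν x < ν y) = E x y := ⟨_, fun _ _ => rfl⟩
  obtain ⟨P, hP⟩ : ∃ P : ℕ → Prop, ∀ x, (x ∈ Y) = P x := ⟨_, fun _ => rfl⟩
  simp only [hL, hP] at l1 y1
  obtain ⟨K, hK, k1⟩ : ∃ K : ℕ → Prop, (∀ n, K n ↔ (ν (2 * n) < ν (2 * n + 1) ↔ n ∈ Y)) ∧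
      CP {chi Y} K := ⟨fun n => L (2 * n) (2 * n + 1) ↔ P n, by simp [hL, hP], by fun_prop⟩
  let f : ℕ → ℕ := fun x => if K (x / 2) then x else if x % 2 = 0 then x + 1 else x - 1
  have h1 : Function.Involutive f := fun x => by
    by_cases h2 : K (x / 2)
    · simp [f, h2]
    · by_cases h3 : x % 2 = 0
      · simp [f, h2, h3, show (x + 1) / 2 = x / 2 by omega, show ¬ (x + 1) % 2 = 0 by omega]
      · simp only [f, if_neg h2, if_neg h3, show (x - 1) / 2 = x / 2 by omega,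
          if_pos (show (x - 1) % 2 = 0 by omega)]
        omega
  refine ⟨fun x => ν (f x), hν.comp h1.bijective, cp_sat0_comp hs (by simp only [f]; fun_prop),
    fun n => ?_⟩
  have e1 : 2 * n / 2 = n := by omega
  have e2 : (2 * n + 1) / 2 = n := by omega
  by_cases h2 : K n
  · simpa only [f, e1, e2, if_pos h2] using (hK n).1 h2
  · simp only [f, e1, e2, if_neg h2, if_pos (show 2 * n % 2 = 0 by omega),
      if_neg (show ¬ (2 * n + 1) % 2 = 0 by omega), Nat.add_sub_cancel]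
    have h3 : ν (2 * n) ≠ ν (2 * n + 1) := fun e => by simpa using hν.1 e
    rw [hK] at h2
    rw [← not_iff_not, not_lt, h3.le_iff_lt]
    tauto

end Pool.Agent.Work.MP_1f9298_lc
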