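import Pool.Agent.Lib.RelComp.JumpDefs
import Mathlib.ModelTheory.Definability
import Mathlib.Data.Nat.Nth
import Mathlib.Data.Nat.Prime.Defs

/-!
Models of Peano arithmetic, standard systems, enumerations and atomic diagrams.
-/

namespace Pool.Agent.Work.MP_1f9298_lc

open FirstOrder

/-- Function symbols of arithmetic. -/
inductive Fn : ℕ → Type
  | z : Fn 0
  | o : Fn 0
  | plus : Fn 2
  | times : Fn 2

/-- Relation symbols of arithmetic. -/
inductive Rl : ℕ → Type
  | less : Rl 2

/-- The language `{+, ·, 0, 1, <}`. -/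
def LA : Language := ⟨Fn, Rl⟩

section

variable {M : Type} (S : LA.Structure M)

/-- The interpretation of `0`. -/
def zer : M := S.funMap Fn.z ![]

/-- The interpretation of `1`. -/
def one : M := S.funMap Fn.o ![]

/-- The interpretation of `+`. -/
def add (x y : M) : M := S.funMap Fn.plus ![x, y]

/-- The interpretation of `·`. -/
def mul (x y : M) : M := S.funMap Fn.times ![x, y]

/-- The interpretation of `<`. -/
def lt (x y : M) : Prop := S.RelMap Rl.less ![x, y]

/-- Peano arithmetic: the axioms of discretely ordered semirings and induction for all sets that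
are first-order definable with parameters. -/
structure IsPA : Prop where
  add_assoc : ∀ x y z, add S (add S x y) z = add S x (add S y z)
  add_comm : ∀ x y, add S x y = add S y x
  mul_assoc : ∀ x y z, mul S (mul S x y) z = mul S x (mul S y z)
  mul_comm : ∀ x y, mul S x y = mul S y x
  mul_add : ∀ x y z, mul S x (add S y z) = add S (mul S x y) (mul S x z)
  add_zero : ∀ x, add S x (zer S) = x
  mul_zero : ∀ x, mul S x (zer S) = zer S
  mul_one : ∀ x, mul S x (one S) = x
  lt_trans : ∀ x y z, lt S x y → lt S y z → lt S x z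
  lt_irrefl : ∀ x, ¬ lt S x x
  lt_total : ∀ x y, lt S x y ∨ x = y ∨ lt S y x
  add_lt : ∀ x y z, lt S x y → lt S (add S x z) (add S y z)
  mul_lt : ∀ x y z, lt S (zer S) z → lt S x y → lt S (mul S x z) (mul S y z)
  sub : ∀ x y, lt S x y → ∃ z, add S x z = y
  zero_lt_one : lt S (zer S) (one S)
  discrete : ∀ x, lt S (zer S) x → lt S (one S) x ∨ one S = x
  zero_le : ∀ x, lt S (zer S) x ∨ zer S = x
  induction : ∀ D : Set M, @Set.Definable₁ M Set.univ LA S D → zer S ∈ D →
    (∀ x ∈ D, add S x (one S) ∈ D) → ∀ x, x ∈ D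

/-- The value of the numeral `n`. -/
def num (n : ℕ) : M := Nat.rec (motive := fun _ => M) (zer S) (fun _ x => add S x (one S)) n

/-- Some element is not the value of a numeral. -/
def Nonstandard : Prop := ∃ c, ∀ n, c ≠ num S n

/-- The standard system: the sets `{n | p_n divides c}`. -/
def SS : Set (Set ℕ) :=
  {X | ∃ c, X = {n | ∃ z, c = mul S (num S (Nat.nth Nat.Prime n)) z}}

end

/-- `R` is an enumeration of the family `F`. -/
def IsEnum (R : Set ℕ) (F : Set (Set ℕ)) : Prop :=
  F = Set.range fun i => {x | Nat.pair i x ∈ R}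

/-- Goedel numbers of terms with a constant for each natural number. -/
noncomputable def tcode (t : LA.Term ℕ) : ℕ :=
  Language.Term.rec (motive := fun _ => ℕ) (fun i => Nat.pair 0 i)
    (fun f _ c => Fn.rec (motive := fun l _ => (Fin l → ℕ) → ℕ)
      (fun _ => Nat.pair 1 0) (fun _ => Nat.pair 2 0)
      (fun c => Nat.pair 3 (Nat.pair (c 0) (c 1))) (fun c => Nat.pair 4 (Nat.pair (c 0) (c 1)))
      f c) t

/-- The atomic diagram of a structure with universe `ℕ`: the numbers of the true atomic sentences
`s = t` and `s < t`. -/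
def diagram (B : LA.Structure ℕ) : Set ℕ :=
  {n | ∃ s t : LA.Term ℕ,
    (n = Nat.pair 0 (Nat.pair (tcode s) (tcode t)) ∧
      @Language.Term.realize LA ℕ B ℕ id s = @Language.Term.realize LA ℕ B ℕ id t) ∨
    (n = Nat.pair 1 (Nat.pair (tcode s) (tcode t)) ∧
      lt B (@Language.Term.realize LA ℕ B ℕ id s) (@Language.Term.realize LA ℕ B ℕ id t))}

open Pool.Agent.Lib.RelComp

/-- The degree of `X` is the degree of a copy of `S`. -/
def IsCopyDegree {M : Type} (S : LA.Structure M) (X : Set ℕ) : Prop :=
  ∃ B : LA.Structure ℕ, Nonempty (@Language.Equiv LA ℕ M B S) ∧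
    TuringEquivalent (chi (diagram B)) (chi X)

/-- The degree of `X` is the degree of an enumeration of the family `F`. -/
def IsEnumDegree (F : Set (Set ℕ)) (X : Set ℕ) : Prop :=
  ∃ R, IsEnum R F ∧ TuringEquivalent (chi R) (chi X)

end Pool.Agent.Work.MP_1f9298_lc
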