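import Pool.Agent.Lib.RelComp.Stack
import Pool.Agent.Lib.RelComp.Extra

/-!
A back-and-forth finite injury construction, common to the two levels of the proof.
-/

set_option linter.unusedSectionVars false

namespace Pool.Agent.Work.MP_1f9298_lc

open Pool.Agent.Lib.RelComp

variable {A T C : Type}

/-- Agreement below a bound. -/
def Agr (n : ℕ) (v w : ℕ → A) : Prop := ∀ i < n, v i = w i

theorem Agr.refl (n : ℕ) (v : ℕ → A) : Agr n v v := fun _ _ => rfl

theorem Agr.symm {n : ℕ} {v w : ℕ → A} (h : Agr n v w) : Agr n w v := fun i hi => (h i hi).symm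

theorem Agr.trans {n : ℕ} {u v w : ℕ → A} (h : Agr n u v) (h' : Agr n v w) : Agr n u w :=
  fun i hi => (h i hi).trans (h' i hi)

theorem Agr.mono {m n : ℕ} {v w : ℕ → A} (h : Agr n v w) (hm : m ≤ n) : Agr m v w :=
  fun i hi => h i (hi.trans_le hm)

/-- The assignment given by a list of names. -/
def asg (ν : ℕ → A) (l : List ℕ) : ℕ → A := fun i => ν (l.getD i 0)

theorem agr_asg (ν : ℕ → A) {l l' : List ℕ} (h : l <+: l') : Agr l.length (asg ν l) (asg ν l') := by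
  obtain ⟨ρ, rfl⟩ := h
  intro i hi
  simp only [asg, List.getD_eq_getElem?_getD, List.getElem?_append_left hi]

/-- The data of the construction. -/
structure Eng (A T C : Type) where
  ν : ℕ → A
  SatC : (ℕ → A) → C → Prop
  bd : C → ℕ
  pm : C → ℕ
  Real : (ℕ → A) → T → Prop
  tn : T → ℕ
  cons : T → C → Prop
  refB : List ℕ → T → ℕ → ℕ → Prop
  refA : List ℕ → ℕ → ℕ → ℕ → Prop
  ok : List ℕ → ℕ → ℕ → C → Prop
  prop : List ℕ → ℕ → ℕ → C → ℕ → Option (T × C)
  t0 : T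
  a0 : List ℕ
  c0 : C

namespace Eng

variable (G : Eng A T C)

/-- The commitment can be realised over the list. -/
def Rz (l : List ℕ) (c : C) : Prop := ∃ v, Agr l.length (asg G.ν l) v ∧ G.SatC v c

/-- The hypotheses of the construction. -/
structure Good : Prop where
  surj : Function.Surjective G.ν
  satc_loc : ∀ v w c, Agr (G.bd c) v w → G.SatC v c → G.SatC w c
  real_loc : ∀ v w t, Agr (G.tn t) v w → G.Real v t → G.Real w t
  cons_iff : ∀ v t c, G.Real v t → (G.cons t c ↔ ∃ w, Agr (G.tn t) v w ∧ G.SatC w c)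
  refB_mono : ∀ l t w s s', s ≤ s' → G.refB l t w s → G.refB l t w s'
  refB_sound : ∀ l t w, (∀ s, ¬ G.refB l t w s) → l.length = G.tn t → G.Real (asg G.ν l) t
  refB_compl : ∀ l t, l.length = G.tn t → G.Real (asg G.ν l) t → ∃ w, ∀ s, ¬ G.refB l t w s
  refA_mono : ∀ l k r s s', s ≤ s' → G.refA l k r s → G.refA l k r s'
  prop_mono : ∀ l k r c s t c', G.prop l k r c s = some (t, c') →
    (∀ v, G.SatC v c' → G.SatC v c) ∧ G.pm c < G.pm c'
  prop_true : ∀ l k r c s t c', (∀ s, ¬ G.refA l k r s) → G.Rz l c →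
    G.prop l k r c s = some (t, c') → G.cons t c' ∧ ∃ v i, Agr l.length (asg G.ν l) v ∧
      l.length ≤ i ∧ i < G.tn t ∧ v i = G.ν k ∧ G.Real v t
  prop_ev : ∀ l k r c, (∀ s, ¬ G.refA l k r s) → G.ok l k r c →
    ∃ s0, ∀ s, s0 ≤ s → G.prop l k r c s ≠ none
  ok_ex : ∀ l k, ∃ r, (∀ s, ¬ G.refA l k r s) ∧ ∀ c, G.Rz l c → G.ok l k r c
  base_len : G.a0.length = G.tn G.t0
  base_real : G.Real (asg G.ν G.a0) G.t0
  base_cons : G.cons G.t0 G.c0

/-- The current type and tuple. -/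
def top (σ : List (ℕ × T × List ℕ)) : T × List ℕ := (σ.getLast?.map Prod.snd).getD (G.t0, G.a0)

/-- Refutation of a belief. -/
def bad (σ : List (ℕ × T × List ℕ)) (r s : ℕ) : Prop :=
  (σ.length % 2 = 0 ∧ G.refA (G.top σ).2 (σ.length / 2) r s) ∨
  (σ.length % 2 ≠ 0 ∧ (G.refB (dec (List ℕ × ℕ) r).1 (G.top σ).1 (dec (List ℕ × ℕ) r).2 s ∨
    ¬ (G.top σ).2 <+: (dec (List ℕ × ℕ) r).1 ∨ ¬ σ.length / 2 ∈ (dec (List ℕ × ℕ) r).1 ∨
    (dec (List ℕ × ℕ) r).1.length ≠ G.tn (G.top σ).1))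

open Classical in
/-- The next entry. -/
noncomputable def next (σ : List (ℕ × T × List ℕ)) (c : C) (s : ℕ) :
    Option ((ℕ × T × List ℕ) × C) :=
  if σ.length % 2 = 0 then
    (least s fun r => ¬ G.bad σ r s ∧ G.ok (G.top σ).2 (σ.length / 2) r c).bind fun r =>
      (G.prop (G.top σ).2 (σ.length / 2) r c s).bind fun y =>
        if G.cons y.1 y.2 ∧ G.cons G.t0 y.2 ∧ ¬ ∃ x, x ∈ σ ∧ ¬ G.cons x.2.1 y.2 then
          some ((r, y.1, (G.top σ).2), y.2) else none
  else (least s fun r => ¬ G.bad σ r s).map fun r =>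
    ((r, (G.top σ).1, (dec (List ℕ × ℕ) r).1), c)

/-- The finite injury construction. -/
noncomputable def inj : Inj (ℕ × T × List ℕ) C := ⟨Prod.fst, G.bad, G.next, G.c0⟩

variable {G}

@[simp] theorem top_nil : G.top [] = (G.t0, G.a0) := rfl

@[simp] theorem top_snoc (σ : List (ℕ × T × List ℕ)) (x) : G.top (σ ++ [x]) = x.2 := by
  simp [top]

theorem top_mem (σ : List (ℕ × T × List ℕ)) :
    (G.top σ).1 = G.t0 ∨ ∃ x ∈ σ, (G.top σ).1 = x.2.1 := by
  rcases List.eq_nil_or_concat' σ with rfl | ⟨τ, x, rfl⟩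
  · exact Or.inl rfl
  · exact Or.inr ⟨x, by simp, by simp⟩

theorem next_even {σ : List (ℕ × T × List ℕ)} {c c' : C} {s : ℕ} {x} (h : σ.length % 2 = 0)
    (e : G.next σ c s = some (x, c')) :
    least s (fun r => ¬ G.bad σ r s ∧ G.ok (G.top σ).2 (σ.length / 2) r c) = some x.1 ∧
    G.prop (G.top σ).2 (σ.length / 2) x.1 c s = some (x.2.1, c') ∧ x.2.2 = (G.top σ).2 ∧
    G.cons x.2.1 c' ∧ G.cons G.t0 c' ∧ ∀ y ∈ σ, G.cons y.2.1 c' := by
  simp only [next, if_pos h, Option.bind_eq_some_iff] at e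
  obtain ⟨r, h1, y, h2, h3⟩ := e
  split_ifs at h3 with h4
  cases h3
  exact ⟨h1, h2, rfl, h4.1, h4.2.1, by simpa using h4.2.2⟩

theorem next_odd {σ : List (ℕ × T × List ℕ)} {c c' : C} {s : ℕ} {x} (h : σ.length % 2 ≠ 0)
    (e : G.next σ c s = some (x, c')) :
    least s (fun r => ¬ G.bad σ r s) = some x.1 ∧ x.2.1 = (G.top σ).1 ∧
    x.2.2 = (dec (List ℕ × ℕ) x.1).1 ∧ c' = c := by
  simp only [next, if_neg h, Option.map_eq_some_iff] at e
  obtain ⟨r, h1, h2⟩ := e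
  cases h2
  exact ⟨h1, rfl, rfl, rfl⟩

variable [Inhabited T]

theorem inv_cons (hG : G.Good) (s : ℕ) :
    G.cons G.t0 (G.inj.run s).2 ∧ ∀ x ∈ (G.inj.run s).1, G.cons x.2.1 (G.inj.run s).2 := by
  induction s with
  | zero => exact ⟨hG.base_cons, by simp [Inj.run]⟩
  | succ s ih =>
    have h0 : ∀ x ∈ G.inj.cut s (G.inj.run s).1, G.cons x.2.1 (G.inj.run s).2 := fun x hx =>
      ih.2 x ((Inj.cut_pre _ _).subset hx)
    rcases Inj.run_succ (I := G.inj) s with ⟨-, h1⟩ | ⟨x, c, h1, h2⟩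
    · rw [h1]; exact ⟨ih.1, h0⟩
    · rw [h2]
      by_cases h3 : (G.inj.cut s (G.inj.run s).1).length % 2 = 0
      · obtain ⟨-, -, -, h4, h5, h6⟩ := next_even h3 h1
        refine ⟨h5, fun y hy => ?_⟩
        rcases List.mem_append.1 hy with h7 | h7
        · exact h6 y h7
        · rw [List.mem_singleton.1 h7]; exact h4
      · obtain ⟨-, h4, -, rfl⟩ := next_odd h3 h1
        refine ⟨ih.1, fun y hy => ?_⟩
        rcases List.mem_append.1 hy with h7 | h7
        · exact h0 y h7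
        · rw [List.mem_singleton.1 h7, h4]
          rcases top_mem (G := G) (G.inj.cut s (G.inj.run s).1) with h8 | ⟨z, h8, h9⟩
          · rw [h8]; exact ih.1
          · rw [h9]; exact h0 z h8

theorem cons_top (hG : G.Good) {σ : List (ℕ × T × List ℕ)} {s : ℕ} (h : σ <+: (G.inj.run s).1) :
    G.cons (G.top σ).1 (G.inj.run s).2 := by
  rcases top_mem (G := G) σ with h8 | ⟨z, h8, h9⟩
  · rw [h8]; exact (inv_cons hG s).1
  · rw [h9]; exact (inv_cons hG s).2 z (h.subset h8)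

theorem step_mono (hG : G.Good) (s : ℕ) :
    (∀ v, G.SatC v (G.inj.run (s + 1)).2 → G.SatC v (G.inj.run s).2) ∧
    ((G.inj.run s).1.length ≤ 2 * G.pm (G.inj.run s).2 →
      (G.inj.run (s + 1)).1.length ≤ 2 * G.pm (G.inj.run (s + 1)).2) := by
  have h0 := (Inj.cut_pre (I := G.inj) s (G.inj.run s).1).length_le
  rcases Inj.run_succ (I := G.inj) s with ⟨-, h1⟩ | ⟨x, c, h1, h2⟩
  · rw [h1]; exact ⟨fun _ h => h, fun h => h0.trans h⟩
  · rw [h2]
    by_cases h3 : (G.inj.cut s (G.inj.run s).1).length % 2 = 0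
    · obtain ⟨-, h4, -⟩ := next_even h3 h1
      obtain ⟨h5, h6⟩ := hG.prop_mono _ _ _ _ _ _ _ h4
      exact ⟨h5, fun h => by simp only [List.length_append, List.length_singleton]; omega⟩
    · obtain ⟨-, -, -, rfl⟩ := next_odd h3 h1
      exact ⟨fun _ h => h, fun h => by
        simp only [List.length_append, List.length_singleton]; omega⟩

theorem sat_mono (hG : G.Good) {s t : ℕ} (h : s ≤ t) (v : ℕ → A) :
    G.SatC v (G.inj.run t).2 → G.SatC v (G.inj.run s).2 := by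
  induction t, h using Nat.le_induction with
  | base => exact id
  | succ t _ ih => exact fun h => ih ((step_mono hG t).1 v h)

theorem len_le (hG : G.Good) (s : ℕ) : (G.inj.run s).1.length ≤ 2 * G.pm (G.inj.run s).2 := by
  induction s with
  | zero => simp [Inj.run]
  | succ s ih => exact (step_mono hG s).2 ih

theorem bad_mono (hG : G.Good) (σ : List (ℕ × T × List ℕ)) (r s t : ℕ) (h : s ≤ t) :
    G.bad σ r s → G.bad σ r t :=
  Or.imp (And.imp_right (hG.refA_mono _ _ _ _ _ h))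
    (And.imp_right (Or.imp_left (hG.refB_mono _ _ _ _ _ h)))

variable (G) in
/-- A true stack that realises all of its types. -/
structure Ev (k : ℕ) (σ : List (ℕ × T × List ℕ)) : Prop where
  len : σ.length = 2 * k
  tr : G.inj.TrueS σ
  pre : ∃ s, σ <+: (G.inj.run s).1
  tlen : (G.top σ).2.length = G.tn (G.top σ).1
  real : ∀ t, (t = G.t0 ∨ ∃ x ∈ σ, t = x.2.1) →
    G.tn t ≤ (G.top σ).2.length ∧ G.Real (asg G.ν (G.top σ).2) t

theorem Ev.rz (hG : G.Good) {k : ℕ} {σ : List (ℕ × T × List ℕ)} (h : G.Ev k σ) {s : ℕ}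
    (hs : σ <+: (G.inj.run s).1) : G.Rz (G.top σ).2 (G.inj.run s).2 := by
  rw [Rz, h.tlen]
  exact (hG.cons_iff _ _ _ (h.real _ (top_mem σ)).2).1 (cons_top hG hs)

theorem Ev.extA (hG : G.Good) {k : ℕ} {σ : List (ℕ × T × List ℕ)} (h : G.Ev k σ) :
    ∃ x s, G.inj.TrueS (σ ++ [x]) ∧ σ ++ [x] <+: (G.inj.run s).1 ∧ x.2.2 = (G.top σ).2 ∧
      ∃ v i, Agr (G.top σ).2.length (asg G.ν (G.top σ).2) v ∧ (G.top σ).2.length ≤ i ∧
        i < G.tn x.2.1 ∧ v i = G.ν k ∧ G.Real v x.2.1 := by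
  have he : σ.length % 2 = 0 := by rw [h.len]; omega
  have hk : σ.length / 2 = k := by rw [h.len]; omega
  have hb : ∀ r s, G.bad σ r s ↔ G.refA (G.top σ).2 k r s := fun r s => by simp [bad, he, hk]
  have hp : ∀ s, G.inj.cut s (G.inj.run s).1 = σ → σ <+: (G.inj.run s).1 := fun s e =>
    e ▸ Inj.cut_pre _ _
  obtain ⟨s0, hs0⟩ := h.pre
  obtain ⟨N, hN1, hN2⟩ := hG.ok_ex (G.top σ).2 k
  obtain ⟨x, s, h1, h2⟩ := h.tr.extend hs0 (bad_mono hG σ) N
    (fun x s ⟨e, c, h1⟩ => by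
      obtain ⟨-, h2, h3⟩ := least_eq_some.1 (next_even he h1).1
      refine ⟨not_lt.1 fun h4 => h3 N h4 ⟨?_, ?_⟩, h2.1⟩
      · rw [hb]; exact hN1 s
      · rw [hk]; exact hN2 _ (h.rz hG (hp s e)))
    (fun s e => by
      classical
      have hr := h.rz hG (hp s e)
      generalize (G.inj.run s).2 = c at hr ⊢
      have h1 : ∃ r, (∀ s, ¬ G.refA (G.top σ).2 k r s) ∧ G.ok (G.top σ).2 k r c :=
        ⟨N, hN1, hN2 _ hr⟩
      obtain ⟨h2, h3⟩ := Nat.find_spec h1
      obtain ⟨s1, hs1⟩ := hG.prop_ev _ _ _ _ h2 h3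
      have h4 : ∀ r < Nat.find h1, ∃ b, G.ok (G.top σ).2 k r c → G.refA (G.top σ).2 k r b :=
        fun r hr => by
          by_contra h5
          push Not at h5
          exact Nat.find_min h1 hr ⟨fun b => (h5 b).2, (h5 0).1⟩
      choose! b hb' using h4
      obtain ⟨t, ht1, ht2, ht3, ht4⟩ : ∃ t, s ≤ t ∧ s1 ≤ t ∧ Nat.find h1 < t ∧
          (Finset.range (Nat.find h1)).sup b ≤ t :=
        ⟨s + s1 + Nat.find h1 + (Finset.range (Nat.find h1)).sup b + 1, by omega⟩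
      have h5 : least t (fun r => ¬ G.bad σ r t ∧ G.ok (G.top σ).2 (σ.length / 2) r c) =
          some (Nat.find h1) := by
        simp only [hb, hk]
        exact least_eq_some.2 ⟨ht3, ⟨h2 t, h3⟩, fun j hj h6 => h6.1 (hG.refA_mono _ _ _ _ _
          ((Finset.le_sup (f := b) (Finset.mem_range.2 hj)).trans ht4) (hb' j hj h6.2))⟩
      obtain ⟨⟨t', c'⟩, h6⟩ := Option.ne_none_iff_exists'.1 (hs1 t ht2)
      obtain ⟨h7, v, i, h8, h9, h10, -, h11⟩ := hG.prop_true _ _ _ _ _ _ _ h2 hr h6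
      obtain ⟨w, h12, h13⟩ := (hG.cons_iff _ _ _ h11).1 h7
      have h14 : ∀ u, (u = G.t0 ∨ ∃ x ∈ σ, u = x.2.1) → G.cons u c' := fun u hu =>
        (hG.cons_iff _ _ _ (h.real u hu).2).2
          ⟨w, (h8.trans (h12.mono (by omega))).mono (h.real u hu).1, h13⟩
      refine ⟨t, ht1, ?_⟩
      change G.next σ c t ≠ none
      simp only [next, if_pos he, h5, Option.bind_some]
      rw [hk, h6, Option.bind_some, if_pos ⟨h7, h14 _ (Or.inl rfl),
        fun ⟨x, hx, h15⟩ => h15 (h14 _ (Or.inr ⟨x, hx, rfl⟩))⟩]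
      simp)
  obtain ⟨t, e, c, h3⟩ := Inj.exists_push h2
  obtain ⟨-, h4, h5, -⟩ := next_even he h3
  rw [hk] at h4
  refine ⟨x, s, h1, h2, h5, (hG.prop_true _ _ _ _ _ _ _ (fun u hu => ?_) (h.rz hG (hp t e)) h4).2⟩
  exact h1 σ.length (by simp) u ((Inj.badAt_last σ x u).2 ((hb _ _).2 hu))

theorem Ev.ext (hG : G.Good) {k : ℕ} {σ : List (ℕ × T × List ℕ)} (h : G.Ev k σ) :
    ∃ τ, G.Ev (k + 1) τ ∧ (G.top σ).2 <+: (G.top τ).2 ∧
      (G.top σ).2.length < (G.top τ).2.length ∧ k ∈ (G.top τ).2 := by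
  obtain ⟨x, s0, h1, h2, h3, v, i, h4, h5, h6, h7, h8⟩ := h.extA hG
  have he : (σ ++ [x]).length % 2 ≠ 0 := by
    simp only [List.length_append, List.length_singleton, h.len]; omega
  have hk : (σ ++ [x]).length / 2 = k := by
    simp only [List.length_append, List.length_singleton, h.len]; omega
  have hb : ∀ r s, ¬ G.bad (σ ++ [x]) r s ↔
      ¬ G.refB (dec (List ℕ × ℕ) r).1 x.2.1 (dec (List ℕ × ℕ) r).2 s ∧
      (G.top σ).2 <+: (dec (List ℕ × ℕ) r).1 ∧ k ∈ (dec (List ℕ × ℕ) r).1 ∧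
      (dec (List ℕ × ℕ) r).1.length = G.tn x.2.1 := fun r s => by
    simp only [bad, hk, top_snoc, h3]
    tauto
  obtain ⟨N, hN⟩ : ∃ N, ∀ s, ¬ G.bad (σ ++ [x]) N s := by
    classical
    obtain ⟨g, hg⟩ := hG.surj.hasRightInverse
    let f : ℕ → ℕ := fun j =>
      if j < (G.top σ).2.length then (G.top σ).2.getD j 0 else if j = i then k else g (v j)
    have h9 : Agr (G.tn x.2.1) v (asg G.ν ((List.range (G.tn x.2.1)).map f)) := fun j hj => by
      have : ((List.range (G.tn x.2.1)).map f).getD j 0 = f j := by simp [hj]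
      simp only [asg, this, f]
      split_ifs with h10 h11
      · exact (h4 j h10).symm
      · rw [h11, h7]
      · exact (hg _).symm
    obtain ⟨w, hw⟩ := hG.refB_compl ((List.range (G.tn x.2.1)).map f) _ (by simp)
      (hG.real_loc _ _ _ h9 h8)
    refine ⟨Encodable.encode ((List.range (G.tn x.2.1)).map f, w), fun s => (hb _ _).2 ?_⟩
    rw [dec_encode]
    refine ⟨hw s, ?_, List.mem_map.2 ⟨i, List.mem_range.2 h6, by simp [f, not_lt.2 h5]⟩, by simp⟩
    rw [List.prefix_iff_eq_take]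
    refine List.ext_getElem (by simp; omega) fun j h10 h11 => ?_
    simp [f, h10]
  obtain ⟨y, s, h9, h10⟩ := h1.extend h2 (bad_mono hG _) N
    (fun y s ⟨_, c, h9⟩ => by
      obtain ⟨-, h10, h11⟩ := least_eq_some.1 (next_odd he h9).1
      exact ⟨not_lt.1 fun h12 => h11 N h12 (hN s), h10⟩)
    (fun s _ => by
      refine ⟨s + N + 1, by omega, ?_⟩
      change G.next _ _ _ ≠ none
      obtain ⟨j, -, hj⟩ := exists_least (n := s + N + 1)
        (p := fun r => ¬ G.bad (σ ++ [x]) r (s + N + 1)) (i := N) (by omega) (hN _)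
      simp only [next, if_neg he, hj]
      simp)
  obtain ⟨t, -, c, h11⟩ := Inj.exists_push h10
  obtain ⟨-, h12, h13, -⟩ := next_odd he h11
  rw [top_snoc] at h12
  have h14 : ∀ u, ¬ G.bad (σ ++ [x]) y.1 u := fun u hu =>
    h9 (σ ++ [x]).length (by simp) u ((Inj.badAt_last _ y u).2 hu)
  obtain ⟨-, h15, h16, h17⟩ := (hb _ _).1 (h14 0)
  have h18 := hG.refB_sound _ _ _ (fun u => ((hb _ _).1 (h14 u)).1) h17
  rw [← h13] at h15 h16 h17 h18
  refine ⟨σ ++ [x] ++ [y], ⟨by simp [h.len]; omega, h9, ⟨s, h10⟩, by rw [top_snoc, h17, h12],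
    fun u hu => ?_⟩, by rwa [top_snoc], by rw [top_snoc]; omega, by rwa [top_snoc]⟩
  rw [top_snoc]
  by_cases h19 : u = G.t0 ∨ ∃ z ∈ σ, u = z.2.1
  · obtain ⟨h20, h21⟩ := h.real u h19
    exact ⟨by omega, hG.real_loc _ _ _ ((agr_asg _ h15).mono h20) h21⟩
  · have : u = x.2.1 := by
      rcases hu with hu | ⟨z, hz, rfl⟩
      · exact absurd (Or.inl hu) h19
      · simp only [List.mem_append, List.mem_singleton] at hz
        rcases hz with (hz | rfl) | rfl
        · exact absurd (Or.inr ⟨z, hz, rfl⟩) h19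
        · rfl
        · exact h12
    rw [this]
    exact ⟨h17.ge, h18⟩

theorem exists_limit (hG : G.Good) : ∃ μ : ℕ → A, Function.Surjective μ ∧
    (∀ s, G.SatC μ (G.inj.run s).2) ∧ ∀ N, ∃ s, N ≤ G.pm (G.inj.run s).2 := by
  have h0 : G.Ev 0 [] := ⟨rfl, fun _ h => by simp at h, ⟨0, List.nil_prefix⟩, hG.base_len,
    fun t ht => by
      obtain rfl : t = G.t0 := by simpa using ht
      exact ⟨hG.base_len.ge, hG.base_real⟩⟩
  choose! nx hnx using fun k σ (h : G.Ev k σ) => h.ext hG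
  let S : ℕ → List (ℕ × T × List ℕ) := fun k => Nat.rec [] nx k
  have h1 : ∀ k, G.Ev k (S k) := fun k => by
    induction k with
    | zero => exact h0
    | succ k ih => exact (hnx k _ ih).1
  have h2 : ∀ k l, k ≤ l → (G.top (S k)).2 <+: (G.top (S l)).2 := fun k l h => by
    induction l, h using Nat.le_induction with
    | base => exact List.prefix_rfl
    | succ l _ ih => exact ih.trans (hnx l _ (h1 l)).2.1
  have h3 : ∀ k, k ≤ (G.top (S k)).2.length := fun k => by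
    induction k with
    | zero => omega
    | succ k ih => exact ih.trans_lt (hnx k _ (h1 k)).2.2.1
  have h4 : ∀ k, Agr (G.top (S k)).2.length (asg G.ν (G.top (S k)).2)
      (fun i => asg G.ν (G.top (S (i + 1))).2 i) := fun k i hi => by
    rcases le_total k (i + 1) with h | h
    · exact agr_asg _ (h2 _ _ h) i hi
    · exact (agr_asg _ (h2 _ _ h) i (h3 _)).symm
  refine ⟨fun i => asg G.ν (G.top (S (i + 1))).2 i, fun a => ?_, fun s => ?_, fun N => ?_⟩
  · obtain ⟨k, rfl⟩ := hG.surj a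
    obtain ⟨i, hi, e⟩ := List.getElem_of_mem (hnx k _ (h1 k)).2.2.2
    refine ⟨i, (h4 (k + 1) i hi).symm.trans ?_⟩
    simp only [asg]
    rw [List.getD_eq_getElem?_getD, List.getElem?_eq_getElem hi, Option.getD_some]
    exact congrArg _ e
  · obtain ⟨s1, h5⟩ := (h1 (G.bd (G.inj.run s).2)).pre
    obtain ⟨v, h6, h7⟩ := (h1 _).rz hG ((h1 _).tr.persist h5 (le_max_left s1 s))
    exact hG.satc_loc _ _ _ ((h6.symm.trans (h4 _)).mono (h3 _))
      (sat_mono hG (le_max_right _ _) v h7)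
  · obtain ⟨s, h5⟩ := (h1 N).pre
    have h6 := len_le hG s
    have h7 := h5.length_le
    rw [(h1 N).len] at h7
    exact ⟨s, by omega⟩

/-- The main result on the construction. -/
theorem main [Primcodable T] [Primcodable C] {O : Set (ℕ →. ℕ)} (hG : G.Good)
    (c1 : CI O G.tn) (c2 : CP O (fun p : T × C => G.cons p.1 p.2))
    (c3 : CP O (fun p : List ℕ × T × ℕ × ℕ => G.refB p.1 p.2.1 p.2.2.1 p.2.2.2))
    (c4 : CP O (fun p : List ℕ × ℕ × ℕ × ℕ => G.refA p.1 p.2.1 p.2.2.1 p.2.2.2))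
    (c5 : CP O (fun p : List ℕ × ℕ × ℕ × C => G.ok p.1 p.2.1 p.2.2.1 p.2.2.2))
    (c6 : CI O (fun p : List ℕ × ℕ × ℕ × C × ℕ =>
      G.prop p.1 p.2.1 p.2.2.1 p.2.2.2.1 p.2.2.2.2)) :
    ∃ μ : ℕ → A, Function.Surjective μ ∧ ∃ cs : ℕ → C, CI O cs ∧
      (∀ s, G.SatC μ (cs s)) ∧ ∀ N, ∃ s, N ≤ G.pm (cs s) := by
  obtain ⟨μ, h1, h2, h3⟩ := exists_limit hG
  have h4 : CI O G.top := by unfold top; fun_prop
  have h5 : CP O (fun p : List (ℕ × T × List ℕ) × ℕ × ℕ => G.bad p.1 p.2.1 p.2.2) := by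
    unfold bad
    generalize G.top = a1 at *
    generalize G.refA = a2 at *
    generalize G.refB = a3 at *
    generalize G.tn = a4 at *
    fun_prop
  have h6 : CI O (fun p : List (ℕ × T × List ℕ) × C × ℕ => G.next p.1 p.2.1 p.2.2) := by
    unfold next
    generalize G.top = a1 at *
    generalize G.bad = a2 at *
    generalize G.ok = a3 at *
    generalize G.prop = a4 at *
    generalize G.cons = a5 at *
    fun_prop
  have h7 : CI O G.inj.run := Inj.ci_run (I := G.inj) (CI.fst CI.id') h5 h6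
  exact ⟨μ, h1, fun s => (G.inj.run s).2, CI.snd h7, h2, h3⟩

end Eng

end Pool.Agent.Work.MP_1f9298_lc
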