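import Pool.Agent.Work.MP_1f9298_lc.Core
import Pool.Agent.Work.MP_1f9298_lc.Defs

/-!
The bridge between first-order structures and the abstract setting; the main theorem.
-/

set_option linter.unusedSectionVars false

namespace Pool.Agent.Work.MP_1f9298_lc

open Pool.Agent.Work.MP_db9079_lc Pool.Agent.Lib.RelComp Encodable FirstOrder

/-- The term `0`. -/
def tz : LA.Term ℕ := .func Fn.z ![]

/-- The term `1`. -/
def t1 : LA.Term ℕ := .func Fn.o ![]

/-- The sum of two terms. -/
def ta (a b : LA.Term ℕ) : LA.Term ℕ := .func Fn.plus ![a, b]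

/-- The product of two terms. -/
def tm (a b : LA.Term ℕ) : LA.Term ℕ := .func Fn.times ![a, b]

theorem term_ind {P : LA.Term ℕ → Prop} (h0 : ∀ i, P (.var i)) (h1 : P tz) (h2 : P t1)
    (h3 : ∀ a b, P a → P b → P (ta a b)) (h4 : ∀ a b, P a → P b → P (tm a b)) (t : LA.Term ℕ) :
    P t := by
  induction t with
  | var i => exact h0 i
  | func f ts ih =>
    cases f with
    | z => rw [show ts = ![] from Subsingleton.elim _ _]; exact h1
    | o => rw [show ts = ![] from Subsingleton.elim _ _]; exact h2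
    | plus =>
      rw [show ts = ![ts 0, ts 1] from funext fun i => by fin_cases i <;> rfl]
      exact h3 _ _ (ih 0) (ih 1)
    | times =>
      rw [show ts = ![ts 0, ts 1] from funext fun i => by fin_cases i <;> rfl]
      exact h4 _ _ (ih 0) (ih 1)

theorem tcode_var (i : ℕ) : tcode (.var i) = Nat.pair 0 i := rfl
theorem tcode_tz : tcode tz = Nat.pair 1 0 := rfl
theorem tcode_t1 : tcode t1 = Nat.pair 2 0 := rfl
theorem tcode_ta (a b) : tcode (ta a b) = Nat.pair 3 (Nat.pair (tcode a) (tcode b)) := rfl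
theorem tcode_tm (a b) : tcode (tm a b) = Nat.pair 4 (Nat.pair (tcode a) (tcode b)) := rfl

theorem tcode_inj (s : LA.Term ℕ) : ∀ t, tcode s = tcode t → s = t := by
  induction s using term_ind with
  | h0 | h1 | h2 =>
    intro t
    induction t using term_ind <;>
      simp +contextual [tcode_var, tcode_tz, tcode_t1, tcode_ta, tcode_tm, Nat.pair_eq_pair]
  | h3 a b ih ih' | h4 a b ih ih' =>
    intro t
    induction t using term_ind <;>
      simp [tcode_var, tcode_tz, tcode_t1, tcode_ta, tcode_tm, Nat.pair_eq_pair]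
    intro h1 h2
    rw [ih _ h1, ih' _ h2]

section
variable (B : LA.Structure ℕ)

/-- The value of a term. -/
def rz (t : LA.Term ℕ) : ℕ := @Language.Term.realize LA ℕ B ℕ id t

theorem rz_var (i : ℕ) : rz B (.var i) = i := rfl

theorem rz_tz : rz B tz = zer B := congrArg (B.funMap Fn.z) (Subsingleton.elim _ _)

theorem rz_t1 : rz B t1 = one B := congrArg (B.funMap Fn.o) (Subsingleton.elim _ _)

theorem rz_ta (a b) : rz B (ta a b) = add B (rz B a) (rz B b) :=
  congrArg (B.funMap Fn.plus) (funext fun i => by fin_cases i <;> rfl)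

theorem rz_tm (a b) : rz B (tm a b) = mul B (rz B a) (rz B b) :=
  congrArg (B.funMap Fn.times) (funext fun i => by fin_cases i <;> rfl)

theorem mem_diagram_eq (s t : LA.Term ℕ) :
    Nat.pair 0 (Nat.pair (tcode s) (tcode t)) ∈ diagram B ↔ rz B s = rz B t := by
  refine ⟨?_, fun h => ⟨s, t, Or.inl ⟨rfl, h⟩⟩⟩
  rintro ⟨s', t', ⟨h1, h2⟩ | ⟨h1, -⟩⟩
  · simp only [Nat.pair_eq_pair, true_and] at h1
    rw [tcode_inj _ _ h1.1, tcode_inj _ _ h1.2]
    exact h2
  · simp [Nat.pair_eq_pair] at h1

theorem mem_diagram_lt (s t : LA.Term ℕ) :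
    Nat.pair 1 (Nat.pair (tcode s) (tcode t)) ∈ diagram B ↔ lt B (rz B s) (rz B t) := by
  refine ⟨?_, fun h => ⟨s, t, Or.inr ⟨rfl, h⟩⟩⟩
  rintro ⟨s', t', ⟨h1, -⟩ | ⟨h1, h2⟩⟩
  · simp [Nat.pair_eq_pair] at h1
  · simp only [Nat.pair_eq_pair, true_and] at h1
    rw [tcode_inj _ _ h1.1, tcode_inj _ _ h1.2]
    exact h2

open Classical in
/-- The value of the term with a given number. -/
noncomputable def val (n : ℕ) : Option ℕ :=
  if h : ∃ t, tcode t = n then some (rz B h.choose) else none

theorem val_tcode (t : LA.Term ℕ) : val B (tcode t) = some (rz B t) := by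
  have h : ∃ d, tcode d = tcode t := ⟨t, rfl⟩
  rw [val, dif_pos h, tcode_inj _ _ h.choose_spec]

theorem val_eq_some {n y : ℕ} (h : val B n = some y) : ∃ t, tcode t = n ∧ y = rz B t := by
  by_cases h1 : ∃ c, tcode c = n
  · obtain ⟨c, rfl⟩ := h1
    exact ⟨c, rfl, by simpa [val_tcode, eq_comm] using h⟩
  · simp [val, h1] at h

/-- One step of the evaluation of terms. -/
def valG (l : List (Option ℕ)) : Option ℕ :=
  if l.length.unpair.1 = 0 then some l.length.unpair.2
  else if l.length = Nat.pair 1 0 then some (zer B)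
  else if l.length = Nat.pair 2 0 then some (one B)
  else (l.getD l.length.unpair.2.unpair.1 none).bind fun a =>
    (l.getD l.length.unpair.2.unpair.2 none).bind fun b =>
      if l.length.unpair.1 = 3 then some (add B a b)
      else if l.length.unpair.1 = 4 then some (mul B a b) else none

theorem valG_spec (n : ℕ) : valG B ((List.range n).map (val B)) = val B n := by
  have hg : ∀ m, ((List.range n).map (val B)).getD m none = if m < n then val B m else none :=
    fun m => by by_cases h : m < n <;> simp [h]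
  have hl : ∀ k c d, 0 < k → c < Nat.pair k (Nat.pair c d) ∧ d < Nat.pair k (Nat.pair c d) :=
    fun k c d hk => ⟨(Nat.left_le_pair _ _).trans_lt (OCode.lt_pair hk _),
      (Nat.right_le_pair _ _).trans_lt (OCode.lt_pair hk _)⟩
  unfold valG
  simp only [hg, List.length_map, List.length_range]
  by_cases h : ∃ c, tcode c = n
  · obtain ⟨c, rfl⟩ := h
    rw [val_tcode]
    induction c using term_ind <;> simp [tcode_var, tcode_tz, tcode_t1, tcode_ta, tcode_tm,
      Nat.pair_eq_pair, hl, val_tcode, rz_var, rz_tz, rz_t1, rz_ta, rz_tm]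
  · have h0 : val B n = none := by simp [val, h]
    have hn := Nat.pair_unpair n
    have hn2 := Nat.pair_unpair n.unpair.2
    rw [h0, if_neg fun h1 => h ⟨.var n.unpair.2, by rw [tcode_var, ← h1, hn]⟩,
      if_neg fun h1 => h ⟨tz, h1.symm⟩, if_neg fun h1 => h ⟨t1, h1.symm⟩,
      Option.eq_none_iff_forall_ne_some]
    intro y hy
    have key : ∀ m a, (if m < n then val B m else none) = some a → ∃ c, tcode c = m := by
      intro m a ha
      split_ifs at ha
      obtain ⟨c, hc, -⟩ := val_eq_some B ha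
      exact ⟨c, hc⟩
    simp only [Option.bind_eq_some_iff] at hy
    obtain ⟨a, ha, b, hb, hy⟩ := hy
    obtain ⟨c, hc⟩ := key _ _ ha
    obtain ⟨d, hd⟩ := key _ _ hb
    split_ifs at hy with h7 h8
    · exact h ⟨ta c d, by rw [tcode_ta, hc, hd, hn2, ← h7, hn]⟩
    · exact h ⟨tm c d, by rw [tcode_tm, hc, hd, hn2, ← h8, hn]⟩

theorem cp_diagram {O : Set (ℕ →. ℕ)} (h1 : CI O (fun p : ℕ × ℕ => add B p.1 p.2))
    (h2 : CI O (fun p : ℕ × ℕ => mul B p.1 p.2)) (h3 : CP O (fun p : ℕ × ℕ => lt B p.1 p.2)) :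
    CP O (fun n => n ∈ diagram B) := by
  have h4 : CI O (valG B) := by
    unfold valG
    generalize add B = a1 at *
    generalize mul B = a2 at *
    fun_prop
  have h5 := CI.strongRec (O := O) (F := fun (_ : Unit) n => val B n) (g := fun _ l => valG B l)
    (CI.comp _ Prod.snd h4 (CI.snd CI.id')) (fun _ n => valG_spec B n)
  have h6 : CI O (val B) :=
    CI.comp (fun p : Unit × ℕ => val B p.2) (fun n => ((), n)) h5 (by fun_prop)
  have h7 : CP O (fun n : ℕ => (val B n.unpair.2.unpair.1).isSome = true ∧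
      (val B n.unpair.2.unpair.2).isSome = true ∧
      ((n.unpair.1 = 0 ∧
        (val B n.unpair.2.unpair.1).getD 0 = (val B n.unpair.2.unpair.2).getD 0) ∨
      (n.unpair.1 = 1 ∧
        lt B ((val B n.unpair.2.unpair.1).getD 0) ((val B n.unpair.2.unpair.2).getD 0)))) := by
    generalize val B = a1 at *
    generalize lt B = a2 at *
    fun_prop
  refine h7.congr fun n => ⟨fun ⟨h8, h9, h10⟩ => ?_, ?_⟩
  · obtain ⟨x, hx⟩ := Option.isSome_iff_exists.1 h8
    obtain ⟨y, hy⟩ := Option.isSome_iff_exists.1 h9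
    rw [hx, hy] at h10
    obtain ⟨s, hs, rfl⟩ := val_eq_some B hx
    obtain ⟨t, ht, rfl⟩ := val_eq_some B hy
    refine ⟨s, t, h10.imp (And.imp_left fun e => ?_) (And.imp_left fun e => ?_)⟩ <;>
      rw [hs, ht, ← e, Nat.pair_unpair, Nat.pair_unpair]
  · rintro ⟨s, t, ⟨rfl, h8⟩ | ⟨rfl, h8⟩⟩
    · simpa [val_tcode, rz] using h8
    · simpa [val_tcode, rz] using h8

end

section
variable {A : Type} [CommSemiring A] [LinearOrder A] [IsStrictOrderedRing A]
  [CanonicallyOrderedAdd A] {S : LA.Structure A}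

variable (S) in
/-- The structure agrees with the algebraic instances. -/
structure Cmp : Prop where
  zer : zer S = 0
  one : one S = 1
  add : ∀ x y, add S x y = x + y
  mul : ∀ x y, mul S x y = x * y
  lt : ∀ x y, lt S x y ↔ x < y

theorem Cmp.num (h : Cmp S) (n : ℕ) : num S n = n := by
  induction n with
  | zero => exact h.zer.trans Nat.cast_zero.symm
  | succ n ih =>
    change MP_1f9298_lc.add S (MP_1f9298_lc.num S n) (MP_1f9298_lc.one S) = _
    rw [h.add, ih, h.one, Nat.cast_succ]

theorem Cmp.ss (h : Cmp S) : SS S = SSA A := by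
  simp only [SS, SSA, h.num, h.mul]

variable {B : LA.Structure ℕ} (e : @Language.Equiv LA ℕ A B S)

theorem Cmp.map_add (h : Cmp S) (x y : ℕ) : e (MP_1f9298_lc.add B x y) = e x + e y := by
  rw [← h.add]
  refine (@Language.Equiv.map_fun LA ℕ A B S e 2 Fn.plus ![x, y]).trans ?_
  exact congrArg (S.funMap Fn.plus) (funext fun i => by fin_cases i <;> rfl)

theorem Cmp.map_mul (h : Cmp S) (x y : ℕ) : e (MP_1f9298_lc.mul B x y) = e x * e y := by
  rw [← h.mul]
  refine (@Language.Equiv.map_fun LA ℕ A B S e 2 Fn.times ![x, y]).trans ?_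
  exact congrArg (S.funMap Fn.times) (funext fun i => by fin_cases i <;> rfl)

theorem Cmp.map_lt (h : Cmp S) (x y : ℕ) : MP_1f9298_lc.lt B x y ↔ e x < e y := by
  rw [← h.lt]
  refine (@Language.Equiv.map_rel LA ℕ A B S e 2 Rl.less ![x, y]).symm.trans ?_
  exact iff_of_eq (congrArg (S.RelMap Rl.less) (funext fun i => by fin_cases i <;> rfl))

theorem Cmp.cp_sat0 (h : Cmp S) : CP {chi (diagram B)} (sat0 fun i => e i) := by
  have h0 := cp_self (diagram B)
  obtain ⟨P, hP⟩ : ∃ P : ℕ → Prop, ∀ x, (x ∈ diagram B) = P x := ⟨_, fun _ => rfl⟩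
  simp only [hP] at h0
  have h1 : ∀ i j k, (e i + e j = e k) = P (Nat.pair 0 (Nat.pair
      (Nat.pair 3 (Nat.pair (Nat.pair 0 i) (Nat.pair 0 j))) (Nat.pair 0 k))) := fun i j k => by
    rw [← hP, ← h.map_add, EmbeddingLike.apply_eq_iff_eq]
    exact propext ((mem_diagram_eq B (ta (.var i) (.var j)) (.var k)).trans (by rw [rz_ta]; rfl)).symm
  have h2 : ∀ i j k, (e i * e j = e k) = P (Nat.pair 0 (Nat.pair
      (Nat.pair 4 (Nat.pair (Nat.pair 0 i) (Nat.pair 0 j))) (Nat.pair 0 k))) := fun i j k => by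
    rw [← hP, ← h.map_mul, EmbeddingLike.apply_eq_iff_eq]
    exact propext ((mem_diagram_eq B (tm (.var i) (.var j)) (.var k)).trans (by rw [rz_tm]; rfl)).symm
  have h3 : ∀ i j, (e i < e j) = P (Nat.pair 1 (Nat.pair (Nat.pair 0 i) (Nat.pair 0 j))) :=
    fun i j => by
      rw [← hP, ← h.map_lt]
      exact propext (mem_diagram_lt B (.var i) (.var j)).symm
  unfold sat0
  simp only [h1, h2, h3]
  fun_prop

theorem Cmp.cp_diag (h : Cmp S) {O : Set (ℕ →. ℕ)} (hs : CP O (sat0 fun i => e i)) :
    CP O (fun n => n ∈ diagram B) := by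
  have hν : Function.Surjective fun i => e i := EquivLike.surjective e
  obtain ⟨f, f1, f2⟩ := exists_ad hν hs
  obtain ⟨g, g1, g2⟩ := exists_mu hν hs
  exact cp_diagram B
    (f1.congr fun p => EquivLike.injective e ((f2 _ _).trans (h.map_add e _ _).symm))
    (g1.congr fun p => EquivLike.injective e ((g2 _ _).trans (h.map_mul e _ _).symm))
    ((cp_lt hs).congr fun p => (h.map_lt e _ _).symm)

/-- Definability with parameters. -/
def dc {A : Type} (S : LA.Structure A) : DC A where
  D := fun P => @Set.Definable A Set.univ LA S _ {v | P v}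
  comp f _ h := @Set.Definable.preimage_comp A Set.univ LA S _ _ f _ h
  not h := @Set.Definable.compl A Set.univ LA S _ _ h
  and h h' := @Set.Definable.inter A Set.univ LA S _ _ _ h h'
  exs' h := @Set.Definable.exists_of_finite A Set.univ LA S _ _ _ _ h
  eq' := @Set.Definable.diagonal A LA S Set.univ
  tru := fun {α} => @Set.definable_univ A Set.univ LA S α

theorem Cmp.ar (h : Cmp S) (hS : IsPA S) (hN : Nonstandard S) : Ar (dc S) := by
  let _ := S
  refine ⟨?_, ?_, ?_, fun c => ?_, fun x y hxy => ?_, fun P hP h0 h1 => ?_, ?_⟩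
  · refine Set.Definable.mono (A := ∅) (Set.empty_definable_iff.2
      ⟨(Language.Term.func Fn.plus ![.var 0, .var 1]).equal (.var 2), ?_⟩) (Set.empty_subset _)
    ext v
    simp only [Set.mem_ofPred_eq, Language.Formula.realize_equal, Language.Term.realize, ← h.add]
    exact iff_of_eq (congrArg (· = v 2) (congrArg (S.funMap Fn.plus)
      (funext fun i => by fin_cases i <;> rfl)))
  · refine Set.Definable.mono (A := ∅) (Set.empty_definable_iff.2
      ⟨(Language.Term.func Fn.times ![.var 0, .var 1]).equal (.var 2), ?_⟩) (Set.empty_subset _)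
    ext v
    simp only [Set.mem_ofPred_eq, Language.Formula.realize_equal, Language.Term.realize, ← h.mul]
    exact iff_of_eq (congrArg (· = v 2) (congrArg (S.funMap Fn.times)
      (funext fun i => by fin_cases i <;> rfl)))
  · refine Set.Definable.mono (A := ∅) (Set.empty_definable_iff.2
      ⟨Language.Relations.formula₂ (L := LA) Rl.less (.var 0) (.var 1), ?_⟩) (Set.empty_subset _)
    ext v
    simp only [Set.mem_ofPred_eq, Language.Formula.realize_rel₂, Language.Term.realize, ← h.lt]
    rfl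
  · have := Set.Definable.singleton_of_mem LA (Set.mem_univ c)
    simp only [Set.Definable₁, Set.mem_singleton_iff, @eq_comm _ _ c] at this
    exact this
  · obtain ⟨z, rfl⟩ := exists_add_of_le hxy.le
    have h1 : 0 < z := pos_of_lt_add_right hxy
    have h2 := hS.discrete z (by rwa [h.zer, h.lt])
    rw [h.one, h.lt] at h2
    exact add_le_add_right (le_iff_lt_or_eq.2 h2) x
  · exact hS.induction {x | P x} hP (by rwa [h.zer]) fun x hx => by
      rw [h.add, h.one]; exact h1 x hx
  · simpa only [Nonstandard, h.num] using hN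

theorem Cmp.main (h : Cmp S) (hS : IsPA S) (hN : Nonstandard S) {a b : Set ℕ}
    (hb : IsEnumDegree (SS S) b) (ha : IsCopyDegree S a)
    (hj : TuringReducible (chi (jump a)) (chi (jump b))) : IsCopyDegree S b := by
  obtain ⟨R, h1, h2, -⟩ := hb
  obtain ⟨B, ⟨e⟩, h3, -⟩ := ha
  have hJ : Jmp {chi (diagram B)} {chi (jump b)} :=
    ((jmp_jump a).trans fun _ hg => hg ▸ hj).of_le fun _ hg => hg ▸ h3
  obtain ⟨μ, h4, h5⟩ := (h.ar hS hN).core (h.ss.symm.trans h1) (EquivLike.surjective e)
    (h.cp_sat0 e) (red_iff.1 h2) hJ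
  obtain ⟨μ, h6, h7⟩ := exists_bij h4 h5
  obtain ⟨μ, h8, h9, h10⟩ := exists_exact h6 h7
  let _ := S
  let f : ℕ ≃ A := Equiv.ofBijective μ h8
  let B' : LA.Structure ℕ := Equiv.inducedStructure f.symm
  let e' : @Language.Equiv LA ℕ A B' S :=
    @Language.Equiv.symm LA A ℕ S B' (Equiv.inducedStructureEquiv f.symm)
  have h11 : (fun i => e' i) = μ := rfl
  refine ⟨B', ⟨e'⟩, red_iff.2 (h.cp_diag e' (h11 ▸ h9)), red_iff.2 ?_⟩
  have h12 := cp_lt (h.cp_sat0 e')
  exact (CP.comp _ (fun n => (2 * n, 2 * n + 1)) h12 (by fun_prop)).congr h10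

end

section
variable {M : Type} {S : LA.Structure M}

/-- The semiring of a model. -/
@[reducible] def IsPA.cs (h : IsPA S) : CommSemiring M where
  add := add S
  add_assoc := h.add_assoc
  zero := zer S
  zero_add x := (h.add_comm _ _).trans (h.add_zero x)
  add_zero := h.add_zero
  add_comm := h.add_comm
  nsmul := @nsmulRec M ⟨zer S⟩ ⟨add S⟩
  mul := mul S
  left_distrib := h.mul_add
  right_distrib x y z := (h.mul_comm _ _).trans ((h.mul_add z x y).trans
    (congrArg₂ (add S) (h.mul_comm _ _) (h.mul_comm _ _)))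
  zero_mul x := (h.mul_comm _ _).trans (h.mul_zero x)
  mul_zero := h.mul_zero
  mul_assoc := h.mul_assoc
  one := one S
  one_mul x := (h.mul_comm _ _).trans (h.mul_one x)
  mul_one := h.mul_one
  mul_comm := h.mul_comm

open Classical in
/-- The order of a model. -/
@[reducible] noncomputable def IsPA.lo (h : IsPA S) : LinearOrder M :=
  haveI : IsStrictTotalOrder M (lt S) :=
    { trichotomous := fun x y h1 h2 => ((h.lt_total x y).resolve_left h1).resolve_right h2
      irrefl := h.lt_irrefl
      trans := h.lt_trans }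
  linearOrderOfSTO (lt S)

theorem main (hS : IsPA S) (hN : Nonstandard S) {a b : Set ℕ}
    (hb : IsEnumDegree (SS S) b) (ha : IsCopyDegree S a)
    (hj : TuringReducible (chi (jump a)) (chi (jump b))) : IsCopyDegree S b := by
  let _ := hS.cs
  let _ := hS.lo
  have h1 : ∀ x y z : M, x < y → x + z < y + z := hS.add_lt
  have h2 : ∀ x y z : M, 0 < z → x < y → x * z < y * z := hS.mul_lt
  have h3 : ∀ x y : M, x ≤ y → ∀ z, x + z ≤ y + z := fun x y h z => by
    rcases h.lt_or_eq with h | rfl
    exacts [(h1 _ _ _ h).le, le_rfl]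
  have h4 : ∀ x : M, 0 ≤ x := fun x => le_iff_lt_or_eq.2 (hS.zero_le x)
  have h5 : (0 : M) < 1 := hS.zero_lt_one
  have : IsStrictOrderedRing M :=
    { add_le_add_left := h3
      le_of_add_le_add_left := fun x y z h => not_lt.1 fun h' =>
        absurd h (not_le.2 (by rw [add_comm x, add_comm x]; exact h1 _ _ _ h'))
      zero_le_one := h5.le
      exists_pair_ne := ⟨0, 1, h5.ne⟩
      mul_lt_mul_of_pos_left := fun x hx y z h => by
        rw [mul_comm x, mul_comm x]; exact h2 _ _ _ hx h
      mul_lt_mul_of_pos_right := fun x hx y z h => h2 _ _ _ hx h }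
  have : CanonicallyOrderedAdd M :=
    { exists_add_of_le := fun {x y} h => by
        rcases h.lt_or_eq with h | rfl
        · exact (hS.sub x y h).imp fun _ e => e.symm
        · exact ⟨0, (add_zero x).symm⟩
      le_add_self := fun x y => by simpa using h3 0 y (h4 y) x
      le_self_add := fun x y => by simpa [add_comm] using h3 0 y (h4 y) x }
  exact Cmp.main ⟨rfl, rfl, fun _ _ => rfl, fun _ _ => rfl, fun _ _ => Iff.rfl⟩ hS hN hb ha hj

end

end Pool.Agent.Work.MP_1f9298_lc
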