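import Pool.Agent.Work.MP_1f9298_lc.SD
import Pool.Agent.Work.MP_1f9298_lc.Engine

/-!
A hierarchy of existential formulas, their satisfaction predicates and bounded saturation.
-/

set_option linter.unusedSectionVars false

namespace Pool.Agent.Work.MP_1f9298_lc

open Pool.Agent.Work.MP_db9079_lc Pool.Agent.Lib.RelComp Encodable

variable {A : Type} [CommSemiring A] [LinearOrder A] [IsStrictOrderedRing A]
  [CanonicallyOrderedAdd A] {C : DC A} {Φ : Type}

/-- Satisfaction of the atomic formula with number `n`. -/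
def sat0 (v : ℕ → A) (n : ℕ) : Prop :=
  (n.unpair.1 = 0 ∧
    v n.unpair.2.unpair.1 + v n.unpair.2.unpair.2.unpair.1 = v n.unpair.2.unpair.2.unpair.2) ∨
  (n.unpair.1 = 1 ∧
    v n.unpair.2.unpair.1 * v n.unpair.2.unpair.2.unpair.1 = v n.unpair.2.unpair.2.unpair.2) ∨
  (2 ≤ n.unpair.1 ∧ v n.unpair.2.unpair.1 < v n.unpair.2.unpair.2.unpair.1)

/-- Satisfaction of a list of signed formulas. -/
def satL (S : (ℕ → A) → Φ → Prop) (v : ℕ → A) (L : List (Bool × Φ)) : Prop :=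
  ∀ p ∈ L, (S v p.2 ↔ p.1 = true)

/-- Satisfaction of an existential formula: the variables from `φ.1` on are quantified. -/
def satE (S : (ℕ → A) → Φ → Prop) (v : ℕ → A) (φ : ℕ × List (Bool × Φ)) : Prop :=
  ∃ w, Agr φ.1 v w ∧ satL S w φ.2

/-- Formulas of level one. -/
abbrev F1 := ℕ × List (Bool × ℕ)

/-- Formulas of level two. -/
abbrev F2 := ℕ × List (Bool × F1)

/-- Satisfaction at level one. -/
abbrev sat1 : (ℕ → A) → F1 → Prop := satE sat0

/-- Satisfaction at level two. -/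
abbrev sat2 : (ℕ → A) → F2 → Prop := satE sat1

/-- Dependence on finitely many variables. -/
def Loc (S : (ℕ → A) → Φ → Prop) : Prop := ∀ φ, ∃ n, ∀ v w, Agr n v w → S v φ → S w φ

theorem sat0_agr {n m : ℕ} (hm : n < m) {v w : ℕ → A} (h : Agr m v w) : sat0 v n ↔ sat0 w n := by
  have h1 := Nat.unpair_right_le n
  have h2 := Nat.unpair_left_le n.unpair.2
  have h3 := Nat.unpair_right_le n.unpair.2
  have h4 := Nat.unpair_left_le n.unpair.2.unpair.2
  have h5 := Nat.unpair_right_le n.unpair.2.unpair.2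
  simp only [sat0, h n.unpair.2.unpair.1 (by omega), h n.unpair.2.unpair.2.unpair.1 (by omega),
    h n.unpair.2.unpair.2.unpair.2 (by omega)]

theorem loc_sat0 : Loc (sat0 (A := A)) := fun n =>
  ⟨n + 1, fun _ _ h => (sat0_agr (Nat.lt_succ_self n) h).1⟩

theorem satE_agr {S : (ℕ → A) → Φ → Prop} {φ : ℕ × List (Bool × Φ)} {m : ℕ} (hm : φ.1 ≤ m)
    {v w : ℕ → A} (h : Agr m v w) : satE S v φ ↔ satE S w φ :=
  ⟨fun ⟨u, h1, h2⟩ => ⟨u, (h.mono hm).symm.trans h1, h2⟩,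
    fun ⟨u, h1, h2⟩ => ⟨u, (h.mono hm).trans h1, h2⟩⟩

theorem loc_satE (S : (ℕ → A) → Φ → Prop) : Loc (satE S) := fun φ =>
  ⟨φ.1, fun _ _ h => (satE_agr le_rfl h).1⟩

theorem Loc.list {S : (ℕ → A) → Φ → Prop} (hS : Loc S) (l : List Φ) :
    ∃ n, ∀ v w, Agr n v w → ∀ φ ∈ l, (S v φ ↔ S w φ) := by
  induction l with
  | nil => exact ⟨0, by simp⟩
  | cons φ l ih =>
    obtain ⟨n, hn⟩ := ih
    obtain ⟨m, hm⟩ := hS φ
    refine ⟨max n m, fun v w h ψ hψ => ?_⟩
    rcases List.mem_cons.1 hψ with rfl | h1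
    · exact ⟨hm _ _ (h.mono (le_max_right _ _)), hm _ _ (h.mono (le_max_right _ _)).symm⟩
    · exact hn _ _ (h.mono (le_max_left _ _)) ψ h1

theorem Loc.satL {S : (ℕ → A) → Φ → Prop} (hS : Loc S) : Loc (satL S) := fun L => by
  obtain ⟨n, hn⟩ := hS.list (L.map Prod.snd)
  exact ⟨n, fun v w h h1 p hp => (hn v w h _ (List.mem_map_of_mem hp)).symm.trans (h1 p hp)⟩

theorem satL_append {S : (ℕ → A) → Φ → Prop} {v : ℕ → A} {L M : List (Bool × Φ)} :
    satL S v (L ++ M) ↔ satL S v L ∧ satL S v M := List.forall_mem_append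

/-- Renaming of variables in an atomic formula. -/
def ren0 (ρ : ℕ → ℕ) (n : ℕ) : ℕ :=
  Nat.pair n.unpair.1 (Nat.pair (ρ n.unpair.2.unpair.1)
    (Nat.pair (ρ n.unpair.2.unpair.2.unpair.1) (ρ n.unpair.2.unpair.2.unpair.2)))

theorem sat0_ren (v : ℕ → A) (ρ : ℕ → ℕ) (n : ℕ) :
    sat0 v (ren0 ρ n) ↔ sat0 (fun i => v (ρ i)) n := by
  simp [sat0, ren0]

/-- Renaming of variables in a list of literals. -/
def renL (ρ : ℕ → ℕ) (L : List (Bool × ℕ)) : List (Bool × ℕ) := L.map fun p => (p.1, ren0 ρ p.2)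

theorem satL_ren (v : ℕ → A) (ρ : ℕ → ℕ) (L : List (Bool × ℕ)) :
    satL sat0 v (renL ρ L) ↔ satL sat0 (fun i => v (ρ i)) L := by
  simp only [satL, renL, List.forall_mem_map, sat0_ren]

/-- Conjunction of two existential formulas with the same free variables. -/
def merge (n : ℕ) (L M : List (Bool × ℕ)) : List (Bool × ℕ) :=
  renL (fun x => if x < n then x else 2 * x) L ++ renL (fun x => if x < n then x else 2 * x + 1) M

theorem sat1_merge (v : ℕ → A) (n : ℕ) (L M : List (Bool × ℕ)) :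
    sat1 v (n, merge n L M) ↔ sat1 v (n, L) ∧ sat1 v (n, M) := by
  simp only [satE, merge, satL_append, satL_ren]
  constructor
  · rintro ⟨w, h1, h2, h3⟩
    exact ⟨⟨_, fun i hi => by simp only [if_pos hi, h1 i hi], h2⟩,
      ⟨_, fun i hi => by simp only [if_pos hi, h1 i hi], h3⟩⟩
  · rintro ⟨⟨w, h1, h2⟩, ⟨u, h3, h4⟩⟩
    refine ⟨fun x => if x < n then v x else if x % 2 = 0 then w (x / 2) else u (x / 2),
      fun i hi => by simp only [if_pos hi], ?_, ?_⟩
    · convert h2 using 2 with i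
      by_cases hi : i < n
      · simp only [if_pos hi, h1 i hi]
      · simp [hi, show ¬ 2 * i < n by omega]
    · convert h4 using 2 with i
      by_cases hi : i < n
      · simp only [if_pos hi, h3 i hi]
      · simp [hi, show ¬ 2 * i + 1 < n by omega, show (2 * i + 1) / 2 = i by omega]

/-- A formula of level one as a formula of level two. -/
def emb (φ : F1) : F2 := (φ.1, [(true, φ)])

theorem sat2_emb (v : ℕ → A) (φ : F1) : sat2 v (emb φ) ↔ sat1 v φ := by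
  simp only [emb]
  constructor
  · rintro ⟨w, h1, h2⟩
    exact (satE_agr (φ := φ) le_rfl h1).2 ((h2 _ List.mem_cons_self).2 rfl)
  · exact fun h => ⟨v, Agr.refl _ _, by simpa [satL] using h⟩

section
variable {O : Set (ℕ →. ℕ)} {α : Type} [Primcodable α]

@[fun_prop] theorem ci_ren0 {ρ : α → ℕ → ℕ} {n : α → ℕ} (hρ : CI O (fun p : α × ℕ => ρ p.1 p.2))
    (hn : CI O n) : CI O (fun a => ren0 (ρ a) (n a)) := by
  unfold ren0; fun_prop

@[fun_prop] theorem ci_renL {ρ : α → ℕ → ℕ} {L : α → List (Bool × ℕ)}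
    (hρ : CI O (fun p : α × ℕ => ρ p.1 p.2)) (hL : CI O L) :
    CI O (fun a => renL (ρ a) (L a)) := by
  unfold renL; fun_prop

@[fun_prop] theorem ci_merge {n : α → ℕ} {L M : α → List (Bool × ℕ)} (hn : CI O n) (hL : CI O L)
    (hM : CI O M) : CI O (fun a => merge (n a) (L a) (M a)) := by
  unfold merge; fun_prop

@[fun_prop] theorem ci_emb {f : α → F1} (hf : CI O f) : CI O (fun a => emb (f a)) := by
  unfold emb; fun_prop

end

variable [Primcodable Φ]

/-- The satisfaction predicate is definable on coded assignments. -/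
def SDS (C : DC A) (S : (ℕ → A) → Φ → Prop) : Prop :=
  SD C (fun φ (v : Unit → A) => S (bt (v ())) φ)

namespace Ar

variable (h : Ar C)
include h

theorem exists_agr (v : ℕ → A) (n : ℕ) : ∃ u, Agr n v (bt u) :=
  let ⟨u, hu⟩ := h.exists_bt v n; ⟨u, fun i hi => (hu i hi).symm⟩

theorem satE_code {S : (ℕ → A) → Φ → Prop} (hS : Loc S) (v : ℕ → A) (φ : ℕ × List (Bool × Φ)) :
    satE S v φ ↔ ∃ u, Agr φ.1 v (bt u) ∧ satL S (bt u) φ.2 := by
  refine ⟨fun ⟨w, h1, h2⟩ => ?_, fun ⟨u, hu⟩ => ⟨_, hu⟩⟩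
  obtain ⟨n, hn⟩ := hS.satL φ.2
  obtain ⟨u, hu⟩ := h.exists_agr w (max n φ.1)
  exact ⟨u, h1.trans (hu.mono (le_max_right _ _)), hn _ _ (hu.mono (le_max_left _ _)) h2⟩

theorem sd_agr {α γ : Type} [Primcodable α] {n : α → ℕ} {f g : α → (γ → A) → A}
    (hn : CI (KK C) n) (hf : SF C (fun (p : α × ℕ) v => f p.1 v))
    (hg : SF C (fun (p : α × ℕ) v => g p.1 v)) :
    SD C (fun a v => Agr (n a) (bt (f a v)) (bt (g a v))) :=
  h.sdball hn (SD.eq (h.sfbt hf (by fun_prop)) (h.sfbt hg (by fun_prop)))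

theorem sds_sat0 : SDS C (sat0 (A := A)) :=
  SD.or (SD.and (h.sdcp (by fun_prop)) (SD.eq (h.sfadd (h.sfbt (SF.var _) (by fun_prop))
      (h.sfbt (SF.var _) (by fun_prop))) (h.sfbt (SF.var _) (by fun_prop))))
    (SD.or (SD.and (h.sdcp (by fun_prop)) (SD.eq (h.sfmul (h.sfbt (SF.var _) (by fun_prop))
      (h.sfbt (SF.var _) (by fun_prop))) (h.sfbt (SF.var _) (by fun_prop))))
    (SD.and (h.sdcp (by fun_prop)) (h.sdlt (h.sfbt (SF.var _) (by fun_prop))
      (h.sfbt (SF.var _) (by fun_prop)))))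

theorem sds_app {S : (ℕ → A) → Φ → Prop} (hS : SDS C S) {α γ : Type} [Primcodable α] {f : α → Φ}
    {g : α → (γ → A) → A} (hf : CI (KK C) f) (hg : SF C g) :
    SD C (fun a v => S (bt (g a v)) (f a)) :=
  h.sdapp (R := fun φ u => S (bt u) φ) hS hf hg

theorem sds_satL {S : (ℕ → A) → Φ → Prop} (hS : SDS C S) : SDS C (satL S) :=
  h.sdmem CI.id' (SD.iff (h.sds_app hS (by fun_prop) (SF.var _)) (h.sdcp (by fun_prop)))

theorem sds_satE {S : (ℕ → A) → Φ → Prop} (hL : Loc S) (hS : SDS C S) : SDS C (satE S) :=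
  SD.congr (SD.exA (SD.and (h.sd_agr (by fun_prop) (SF.var _) (SF.var _))
    (h.sds_app (h.sds_satL hS) (by fun_prop) (SF.var _)))) fun φ _ => (h.satE_code hL _ φ).symm

theorem sds_sat1 : SDS C (sat1 (A := A)) := h.sds_satE loc_sat0 h.sds_sat0

theorem sds_sat2 : SDS C (sat2 (A := A)) := h.sds_satE (loc_satE _) h.sds_sat1

/-- Bounded saturation. -/
theorem satur [Inhabited Φ] {S : (ℕ → A) → Φ → Prop} (hL : Loc S) (hS : SDS C S)
    {D Z : Φ → Prop} (hD : CP (KK C) D) (hZ : CP (KK C) Z) {I : ℕ → Prop} (hI : CP (KK C) I)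
    (N : ℕ) (v0 : ℕ → A)
    (hs : ∀ l : List Φ, ∃ v, (∀ i < N, I i → v i = v0 i) ∧ ∀ φ ∈ l, D φ → (S v φ ↔ Z φ)) :
    ∃ v, (∀ i < N, I i → v i = v0 i) ∧ ∀ φ, D φ → (S v φ ↔ Z φ) := by
  obtain ⟨u0, h0⟩ := h.exists_bt v0 N
  obtain ⟨u, hu⟩ := h.sat (P := fun φ u => (∀ i < N, I i → bt u i = bt u0 i) ∧
      (D φ → (S (bt u) φ ↔ Z φ)))
    (SD.and (h.sdball (by fun_prop) (SD.imp (h.sdcp (by fun_prop))
      (SD.eq (h.sfbt (SF.var _) (by fun_prop)) (h.sfbt (h.sfc _) (by fun_prop)))))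
      (SD.imp (h.sdcp hD) (SD.iff hS (h.sdcp hZ)))) fun l => by
      obtain ⟨v, h1, h2⟩ := hs l
      obtain ⟨n, hn⟩ := hL.list l
      obtain ⟨u, hu⟩ := h.exists_agr v (max n N)
      exact ⟨u, fun φ hφ => ⟨fun i hi h3 => by
        rw [← hu i (lt_max_of_lt_right hi), h1 i hi h3, h0 i hi], fun h3 =>
        (hn _ _ (hu.mono (le_max_left _ _)) φ hφ).symm.trans (h2 φ hφ h3)⟩⟩
  exact ⟨bt u, fun i hi h1 => ((hu default).1 i hi h1).trans (h0 i hi), fun φ => (hu φ).2⟩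

/-- Typed form of the coding of definable traces. -/
theorem ss_typed {α : Type} [Primcodable α] [Inhabited α] {P : α → Prop}
    (hP : SD C (fun a (_ : Empty → A) => P a)) : ∃ X ∈ SSA A, ∀ a, encode a ∈ X ↔ P a :=
  ⟨_, h.ss_of_sd (P := fun n => P (dec α n)) (h.sdcomp hP (by fun_prop)), fun a => by simp⟩

end Ar

end Pool.Agent.Work.MP_1f9298_lc
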