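import Pool.Agent.Work.MP_1f9298_lc.Fml

/-!
The lower level: from limit computable access to existential types to a computable diagram.
-/

set_option linter.unusedSectionVars false

namespace Pool.Agent.Work.MP_1f9298_lc

open Pool.Agent.Work.MP_db9079_lc Pool.Agent.Lib.RelComp Encodable

variable {A : Type} [CommSemiring A] [LinearOrder A] [IsStrictOrderedRing A]
  [CanonicallyOrderedAdd A] {C : DC A} {O : Set (ℕ →. ℕ)} {α : Type} [Primcodable α]

/-- Lists of literals. -/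
abbrev LL := List (Bool × ℕ)

open Classical in
/-- Greedy conjunction of existential formulas. -/
noncomputable def grd (E : LL → Prop) (n : ℕ) (d : LL) : ℕ → LL
  | 0 => d
  | i + 1 => if encode (dec LL i) = i ∧ E (merge n (grd E n d i) (dec LL i)) then
      merge n (grd E n d i) (dec LL i) else grd E n d i

/-- The greedy maximal existential type. -/
def Dl (E : LL → Prop) (n : ℕ) (d L : LL) : Prop := E (merge n (grd E n d (encode L)) L)

theorem cp_Dl {E : α → LL → Prop} {n : α → ℕ} {d L : α → LL}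
    (hE : CP O (fun p : α × LL => E p.1 p.2)) (hn : CI O n) (hd : CI O d) (hL : CI O L) :
    CP O (fun a => Dl (E a) (n a) (d a) (L a)) := by
  classical
  have h1 := CI.of_rec (O := O) (F := fun a i => grd (E a) (n a) (d a) i)
    (h := fun a i g => if encode (dec LL i) = i ∧ E a (merge (n a) g (dec LL i)) then
      merge (n a) g (dec LL i) else g) hd (by fun_prop) (fun a i => by
        simp only [grd])
  have h2 : CI O (fun a => grd (E a) (n a) (d a) (encode (L a))) :=
    CI.comp (fun p : α × ℕ => grd (E p.1) (n p.1) (d p.1) p.2) (fun a => (a, encode (L a))) h1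
      (by fun_prop)
  unfold Dl
  exact CP.comp (fun p : α × LL => E p.1 p.2) _ hE (CI.pair CI.id' (ci_merge hn h2 hL))

theorem grd_down {E : LL → Prop} {n : ℕ} {d : LL} {v : ℕ → A} (i : ℕ)
    (h : sat1 v (n, grd E n d i)) :
    sat1 v (n, d) ∧ ∀ L, encode L < i → Dl E n d L → sat1 v (n, L) := by
  induction i with
  | zero => exact ⟨h, by simp⟩
  | succ i ih =>
    rw [grd] at h
    split_ifs at h with h1
    · rw [sat1_merge] at h
      refine ⟨(ih h.1).1, fun L h2 h3 => ?_⟩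
      rcases Nat.lt_succ_iff_lt_or_eq.1 h2 with h4 | rfl
      · exact (ih h.1).2 L h4 h3
      · simpa using h.2
    · refine ⟨(ih h).1, fun L h2 h3 => ?_⟩
      rcases Nat.lt_succ_iff_lt_or_eq.1 h2 with h4 | rfl
      · exact (ih h).2 L h4 h3
      · exact absurd ⟨by simp, by simpa [Dl] using h3⟩ h1

theorem grd_up {E : LL → Prop} {n : ℕ} {d : LL} {v : ℕ → A} (h0 : sat1 v (n, d))
    (h : ∀ L, Dl E n d L → sat1 v (n, L)) (i : ℕ) : sat1 v (n, grd E n d i) := by
  induction i with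
  | zero => exact h0
  | succ i ih =>
    rw [grd]
    split_ifs with h1
    · exact (sat1_merge _ _ _ _).2 ⟨ih, h _ (by rw [Dl, h1.1]; exact h1.2)⟩
    · exact ih

theorem Ar.greedy_real (h : Ar C) {E : LL → Prop} {n : ℕ} {d : LL} {I : ℕ → Prop}
    (hI : CP (KK C) I) (v0 : ℕ → A) (hc : CP (KK C) E)
    (hE : ∀ L, E L ↔ ∃ v, (∀ i < n, I i → v i = v0 i) ∧ satL sat0 v L) (hd : E d) :
    ∃ v, (∀ i < n, I i → v i = v0 i) ∧ sat1 v (n, d) ∧ ∀ L, sat1 v (n, L) ↔ Dl E n d L := by
  have h1 : ∀ i, E (grd E n d i) := fun i => by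
    induction i with
    | zero => exact hd
    | succ i ih =>
      rw [grd]
      split_ifs with h1
      exacts [h1.2, ih]
  have h2 : CP (KK C) (fun φ : F1 => Dl E n d φ.2) :=
    cp_Dl (E := fun _ => E) (by fun_prop) (by fun_prop) (by fun_prop) (by fun_prop)
  obtain ⟨v, h3, h4⟩ := h.satur (loc_satE _) h.sds_sat1
    (D := fun φ => φ.1 = n ∧ (φ.2 = d ∨ Dl E n d φ.2)) (Z := fun _ => True)
    (CP.and (by fun_prop) (CP.or (by fun_prop) h2)) (by fun_prop) hI n v0 fun l => by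
      obtain ⟨v, h3, h4⟩ := (hE _).1 (h1 ((l.map fun φ => encode φ.2).sum + 1))
      obtain ⟨h5, h6⟩ := grd_down (E := E) (n := n) (d := d) (v := v)
        ((l.map fun φ => encode φ.2).sum + 1) ⟨v, Agr.refl _ _, h4⟩
      refine ⟨v, h3, ?_⟩
      rintro ⟨m, L⟩ h7 ⟨rfl, rfl | h8⟩
      · simpa using h5
      · simpa using h6 L (Nat.lt_succ_of_le (List.single_le_sum (by simp) _
          (List.mem_map_of_mem (f := fun φ : F1 => encode φ.2) h7))) h8
  have h5 : sat1 v (n, d) := (h4 _ ⟨rfl, Or.inl rfl⟩).2 trivial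
  have h6 : ∀ L, Dl E n d L → sat1 v (n, L) := fun L hL => (h4 _ ⟨rfl, Or.inr hL⟩).2 trivial
  refine ⟨v, h3, h5, fun L => ⟨fun h7 => ?_, h6 L⟩⟩
  obtain ⟨w, h8, h9⟩ := (sat1_merge _ _ _ _).2 ⟨grd_up h5 h6 (encode L), h7⟩
  exact (hE _).2 ⟨w, fun i hi h10 => (h8 i hi).symm.trans (h3 i hi h10), h9⟩

/-- Parameters: index, bound, tuple, new variable, new element. -/
abbrev Par := ℕ × ℕ × List ℕ × ℕ × ℕ

/-- The renaming that puts a tuple into an initial segment of a presentation. -/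
def rho (p : Par) (i : ℕ) : ℕ :=
  if i < p.2.2.1.length then p.2.2.1.getD i 0 else if i = p.2.2.2.1 then p.2.2.2.2 else p.2.1 + i

/-- The believed existential type of a tuple. -/
def Ex (Q : ℕ → F1 → Prop) (p : Par) (L : LL) : Prop := Q p.1 (p.2.1, renL (rho p) L)

theorem cp_Ex {Q : ℕ → F1 → Prop} (hQ : CP O (fun p : ℕ × F1 => Q p.1 p.2)) :
    CP O (fun p : Par × LL => Ex Q p.1 p.2) := by
  unfold Ex rho; fun_prop

theorem Ex_iff {Q : ℕ → F1 → Prop} {ν : ℕ → A} {j N m k : ℕ} {l : List ℕ} (h1 : ∀ x ∈ l, x < N)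
    (h2 : k < N) (h3 : ∀ L, Q j (N, L) ↔ sat1 ν (N, L)) (L : LL) :
    Ex Q (j, N, l, m, k) L ↔ ∃ v, Agr l.length (asg ν l) v ∧ (l.length ≤ m → v m = ν k) ∧
      satL sat0 v L := by
  have h4 : ∀ i < l.length, l.getD i 0 < N := fun i hi => by
    rw [List.getD_eq_getElem _ _ hi]; exact h1 _ (List.getElem_mem _)
  simp only [Ex, h3, satE, satL_ren]
  constructor
  · rintro ⟨w, h5, h6⟩
    refine ⟨_, fun i hi => ?_, fun hm => ?_, h6⟩
    · simp only [rho, if_pos hi, asg, h5 _ (h4 i hi)]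
    · simp [rho, not_lt.2 hm, h5 _ h2]
  · rintro ⟨v, h5, h6, h7⟩
    refine ⟨fun x => if x < N then ν x else v (x - N), fun i hi => by simp only [if_pos hi], ?_⟩
    have : (fun i => if rho (j, N, l, m, k) i < N then ν (rho (j, N, l, m, k) i)
        else v (rho (j, N, l, m, k) i - N)) = v := by
      funext i
      simp only [rho]
      by_cases hi : i < l.length
      · simp only [if_pos hi, if_pos (h4 i hi)]
        exact h5 i hi
      · by_cases hm : i = m
        · subst hm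
          simp [hi, h2, h6 (not_lt.1 hi)]
        · simp [hi, hm]
    rw [this]
    exact h7

/-- The literals decided by a string. -/
def lits (c : List Bool) : LL := (List.range c.length).map fun i => (c.getD i false, i)

@[fun_prop] theorem ci_lits {f : α → List Bool} (hf : CI O f) : CI O (fun a => lits (f a)) := by
  unfold lits; fun_prop

theorem satL_lits {v : ℕ → A} {c : List Bool} :
    satL sat0 v (lits c) ↔ ∀ i < c.length, (sat0 v i ↔ c.getD i false = true) := by
  simp only [satL, lits, List.forall_mem_map, List.mem_range]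

theorem satL_lits_snoc {v : ℕ → A} {c : List Bool} {b : Bool} :
    satL sat0 v (lits (c ++ [b])) ↔ satL sat0 v (lits c) ∧ (sat0 v c.length ↔ b = true) := by
  simp only [satL_lits, List.length_append, List.length_singleton, Nat.forall_lt_succ_right]
  refine and_congr (forall₂_congr fun i hi => ?_) (by simp)
  simp only [List.getD_eq_getElem?_getD, List.getElem?_append_left hi]

/-- Refutation of a guess at the limit. -/
def ref1 (t : ℕ → ℕ → ℕ) (l : List ℕ) (k r s : ℕ) : Prop :=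
  (∃ x, x ∈ l ∧ r.unpair.1 ≤ x) ∨ r.unpair.1 ≤ k ∨
    ∃ s', s' ≤ s ∧ (r.unpair.2 ≤ s' ∧ t r.unpair.1 s' ≠ t r.unpair.1 r.unpair.2)

/-- Membership in the type described by `τ`. -/
def Dt (Q : ℕ → F1 → Prop) (τ : Par × LL) (L : LL) : Prop :=
  Dl (Ex Q τ.1) (τ.1.2.2.2.1 + 1) τ.2 L

/-- The type proposed for a new element. -/
def ty1 (t : ℕ → ℕ → ℕ) (l : List ℕ) (k r : ℕ) (c : List Bool) : Par × LL :=
  ((t r.unpair.1 r.unpair.2, r.unpair.1, l, max l.length c.length, k), lits c)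

open Classical in
/-- The construction at the lower level. -/
noncomputable def eng1 (ν : ℕ → A) (Q : ℕ → F1 → Prop) (t : ℕ → ℕ → ℕ) (j0 : ℕ) :
    Eng A (Par × LL) (List Bool) where
  ν := ν
  SatC v c := satL sat0 v (lits c)
  bd := List.length
  pm := List.length
  Real v τ := ∀ L, sat1 v (τ.1.2.2.2.1 + 1, L) ↔ Dt Q τ L
  tn τ := τ.1.2.2.2.1 + 1
  cons τ c := Dt Q τ (lits c)
  refB l τ w s := ref1 t l 0 w s ∨ ∃ L : LL, encode L < s ∧
    ¬ (Ex Q (t w.unpair.1 w.unpair.2, w.unpair.1, l, 0, 0) L ↔ Dt Q τ L)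
  refA := ref1 t
  ok _ _ _ _ := True
  prop l k r c _ := some (ty1 t l k r c, c ++ [decide (Dt Q (ty1 t l k r c) (lits (c ++ [true])))])
  t0 := ((j0, 1, [], 0, 0), [])
  a0 := [0]
  c0 := []

theorem ref1_mono {t : ℕ → ℕ → ℕ} {l : List ℕ} {k r s s' : ℕ} (h : s ≤ s') :
    ref1 t l k r s → ref1 t l k r s' :=
  Or.imp_right (Or.imp_right fun ⟨u, h1, h2⟩ => ⟨u, h1.trans h, h2⟩)

section
variable {ν : ℕ → A} {Q : ℕ → F1 → Prop} {t : ℕ → ℕ → ℕ} {tl : ℕ → ℕ}
  (hlim : ∀ N, ∃ s0, ∀ s, s0 ≤ s → t N s = tl N)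
  (htp : ∀ N L, Q (tl N) (N, L) ↔ sat1 ν (N, L))
include hlim

theorem ref1_ex (l : List ℕ) (k : ℕ) : ∃ r, ∀ s, ¬ ref1 t l k r s := by
  obtain ⟨s0, h0⟩ := hlim (l.sum + k + 1)
  refine ⟨Nat.pair (l.sum + k + 1) s0, fun s => ?_⟩
  simp only [ref1, Nat.unpair_pair]
  rintro (⟨x, h1, h2⟩ | h1 | ⟨u, -, h1, h2⟩)
  · have := List.single_le_sum (l := l) (by simp) x h1
    omega
  · omega
  · exact h2 (by rw [h0 u h1, h0 s0 le_rfl])

include htp

theorem ref1_true {l : List ℕ} {k r : ℕ} (h : ∀ s, ¬ ref1 t l k r s) (m : ℕ) (L : LL) :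
    Ex Q (t r.unpair.1 r.unpair.2, r.unpair.1, l, m, k) L ↔
      ∃ v, Agr l.length (asg ν l) v ∧ (l.length ≤ m → v m = ν k) ∧ satL sat0 v L := by
  refine Ex_iff (fun x hx => not_le.1 fun h1 => h 0 (Or.inl ⟨x, hx, h1⟩))
    (not_le.1 fun h1 => h 0 (Or.inr (Or.inl h1))) (fun L => ?_) L
  obtain ⟨s0, h0⟩ := hlim r.unpair.1
  have : t r.unpair.1 r.unpair.2 = tl r.unpair.1 := by
    rw [← h0 _ (le_max_left s0 r.unpair.2)]
    by_contra h1
    exact h _ (Or.inr (Or.inr ⟨_, le_rfl, le_max_right _ _, fun e => h1 e.symm⟩))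
  rw [this, htp]

theorem Ar.real1 (h : Ar C) (kQ : ∀ j, CP (KK C) (Q j)) {j N m k : ℕ} {l : List ℕ} {d : LL}
    (hm : l.length ≤ m)
    (hE : ∀ L, Ex Q (j, N, l, m, k) L ↔
      ∃ v, Agr l.length (asg ν l) v ∧ (l.length ≤ m → v m = ν k) ∧ satL sat0 v L)
    (hd : Ex Q (j, N, l, m, k) d) :
    ∃ v, Agr l.length (asg ν l) v ∧ v m = ν k ∧ sat1 v (m + 1, d) ∧
      ∀ L, sat1 v (m + 1, L) ↔ Dt Q ((j, N, l, m, k), d) L := by
  have h1 : ∀ v : ℕ → A, (∀ i < m + 1, (i < l.length ∨ i = m) →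
      v i = if i = m then ν k else asg ν l i) ↔ Agr l.length (asg ν l) v ∧ v m = ν k := fun v =>
    ⟨fun h1 => ⟨fun i hi => by rw [h1 i (by omega) (Or.inl hi), if_neg (by omega)],
      by rw [h1 m (by omega) (Or.inr rfl), if_pos rfl]⟩, fun ⟨h1, h2⟩ i _ hi => by
      by_cases h3 : i = m
      · rw [if_pos h3, h3, h2]
      · rw [if_neg h3, h1 i (hi.resolve_right h3)]⟩
  obtain ⟨v, h2, h3, h4⟩ := h.greedy_real (E := Ex Q (j, N, l, m, k)) (n := m + 1) (d := d)
    (I := fun i => i < l.length ∨ i = m) (by fun_prop)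
    (fun i => if i = m then ν k else asg ν l i)
    (by
      have := kQ j
      unfold Ex rho
      generalize Q j = q at this ⊢
      fun_prop)
    (fun L => by simp only [hE, h1, hm, true_imp_iff, and_assoc]) hd
  exact ⟨v, ((h1 v).1 h2).1, ((h1 v).1 h2).2, h3, h4⟩

theorem Ar.good1 (h : Ar C) (hν : Function.Surjective ν) (kQ : ∀ j, CP (KK C) (Q j)) :
    (eng1 ν Q t (tl 1)).Good := by
  have hb := h.real1 hlim htp kQ (j := tl 1) (N := 1) (m := 0) (k := 0) (l := []) (d := [])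
    le_rfl (Ex_iff (by simp) (by simp) (htp 1))
    ((Ex_iff (ν := ν) (by simp) (by simp) (htp 1) _).2 ⟨ν, by simp [Agr], by simp, by simp [satL]⟩)
  refine
    { surj := hν
      satc_loc := fun v w c h1 h2 => satL_lits.2 fun i hi =>
        (sat0_agr hi h1).symm.trans (satL_lits.1 h2 i hi)
      real_loc := fun v w τ h1 h2 L => (satE_agr le_rfl h1).symm.trans (h2 L)
      cons_iff := fun v τ c h1 => (h1 _).symm
      refB_mono := fun l τ w s s' h1 =>
        Or.imp (ref1_mono h1) fun ⟨L, h2, h3⟩ => ⟨L, h2.trans_le h1, h3⟩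
      refB_sound := fun l τ w h1 h2 L => ?_
      refB_compl := fun l τ h1 h2 => ?_
      refA_mono := fun l k r s s' h1 => ref1_mono h1
      prop_mono := fun l k r c s τ c' h1 => ?_
      prop_true := fun l k r c s τ c' h1 h2 h3 => ?_
      prop_ev := fun l k r c _ _ => ⟨0, fun _ _ => by simp [eng1]⟩
      ok_ex := fun l k => (ref1_ex hlim l k).imp fun r hr => ⟨hr, fun _ _ => trivial⟩
      base_len := rfl
      base_real := ?_
      base_cons := ?_ }
  · have h3 : Ex Q (t w.unpair.1 w.unpair.2, w.unpair.1, l, 0, 0) L ↔ Dt Q τ L := by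
      by_contra h3
      exact h1 _ (Or.inr ⟨L, Nat.lt_succ_self _, h3⟩)
    rw [← h3, ref1_true hlim htp fun s hs => h1 s (Or.inl hs)]
    change l.length = τ.1.2.2.2.1 + 1 at h2
    simp only [satE, ← h2, show ¬ l.length ≤ 0 by omega, false_imp_iff, true_and]
    rfl
  · obtain ⟨w, hw⟩ := ref1_ex hlim l 0
    refine ⟨w, fun s hs => hs.elim (hw s) fun ⟨L, _, h3⟩ => h3 ?_⟩
    rw [ref1_true hlim htp hw, ← h2 L]
    change l.length = τ.1.2.2.2.1 + 1 at h1
    simp only [satE, ← h1, show ¬ l.length ≤ 0 by omega, false_imp_iff, true_and]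
    rfl
  · cases h1
    exact ⟨fun v hv => (satL_lits_snoc.1 hv).1, by simp [eng1]⟩
  · obtain ⟨v, h4, h5⟩ := h2
    have h6 := ref1_true hlim htp h1 (max l.length c.length)
    obtain ⟨u, h7, h8, ⟨w, h9, h10⟩, h11⟩ := h.real1 hlim htp kQ (le_max_left _ _) h6
      (d := lits c) ((h6 _).2 ⟨Function.update v (max l.length c.length) (ν k),
        fun i hi => by rw [Function.update_of_ne (by omega)]; exact h4 i hi,
        fun _ => by simp, satL_lits.2 fun i hi => (sat0_agr (m := c.length) hi fun x hx => by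
          rw [Function.update_of_ne (by omega)]).trans (satL_lits.1 h5 i hi)⟩)
    cases h3
    refine ⟨?_, u, max l.length c.length, h7, le_max_left _ _, Nat.lt_succ_self _, h8, h11⟩
    change Dt Q _ (lits _)
    by_cases h12 : Dt Q (ty1 t l k r c) (lits (c ++ [true]))
    · simp only [h12, decide_true]
    · simp only [h12, decide_false]
      refine (h11 _).1 ⟨w, h9, satL_lits_snoc.2 ⟨h10, ?_⟩⟩
      simp only [Bool.false_eq_true, iff_false]
      exact fun h13 => h12 ((h11 _).1 ⟨w, h9, satL_lits_snoc.2 ⟨h10, by simpa using h13⟩⟩)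
  · obtain ⟨v, -, h1, -, h2⟩ := hb
    intro L
    refine (satE_agr (m := 1) le_rfl fun i hi => ?_).trans (h2 L)
    obtain rfl : i = 0 := by omega
    exact h1.symm
  · obtain ⟨v, -, -, h1, h2⟩ := hb
    exact (h2 _).1 h1

/-- The lower level. -/
theorem Ar.level1 (h : Ar C) (hν : Function.Surjective ν) (kQ : ∀ j, CP (KK C) (Q j))
    (cQ : CP O (fun p : ℕ × F1 => Q p.1 p.2)) (ct : CI O (fun p : ℕ × ℕ => t p.1 p.2)) :
    ∃ μ : ℕ → A, Function.Surjective μ ∧ CP O (sat0 μ) := by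
  classical
  have h1 := cp_Ex cQ
  have h2 : CP O (fun p : (Par × LL) × LL => Dt Q p.1 p.2) :=
    cp_Dl (E := fun p : (Par × LL) × LL => Ex Q p.1.1)
      (by generalize Ex Q = e at *; fun_prop) (by fun_prop) (by fun_prop) (by fun_prop)
  have h3 : CP O (fun p : List ℕ × ℕ × ℕ × ℕ => ref1 t p.1 p.2.1 p.2.2.1 p.2.2.2) := by
    unfold ref1; fun_prop
  have h4 : CI O (fun p : List ℕ × ℕ × ℕ × List Bool => ty1 t p.1 p.2.1 p.2.2.1 p.2.2.2) := by
    unfold ty1; fun_prop
  obtain ⟨μ, h5, cs, h6, h7, h8⟩ := Eng.main (O := O) (h.good1 hlim htp hν kQ)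
    (by simp only [eng1]; fun_prop)
    (by simp only [eng1]; generalize Dt Q = a1 at *; fun_prop)
    (by
      simp only [eng1]
      generalize Dt Q = a1 at *
      generalize Ex Q = a2 at *
      generalize ref1 t = a3 at *
      fun_prop)
    h3 (by simp only [eng1]; fun_prop)
    (by
      simp only [eng1]
      generalize Dt Q = a1 at *
      generalize ty1 t = a2 at *
      fun_prop)
  obtain ⟨f, h9, h10⟩ := CI.choose (O := O) (r := fun n s : ℕ => n + 1 ≤ (cs s).length)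
    (by fun_prop) fun n => h8 (n + 1)
  exact ⟨μ, h5, CP.congr (p := fun n => (cs (f n)).getD n false = true) (by fun_prop) fun n =>
    (satL_lits.1 (h7 (f n)) n (h10 n)).symm⟩

end

end Pool.Agent.Work.MP_1f9298_lc
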