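import Pool.Agent.Work.MP_1f9298_lc.Arith
import Pool.Agent.Lib.RelComp.Jump

/-!
Functions on the standard numbers that extend to definable functions of the model.
-/

set_option linter.unusedSectionVars false

namespace Pool.Agent.Work.MP_1f9298_lc

open Pool.Agent.Work.MP_db9079_lc DC Pool.Agent.Lib.RelComp Encodable

variable {A : Type} [CommSemiring A] [LinearOrder A] [IsStrictOrderedRing A]
  [CanonicallyOrderedAdd A] {C : DC A} {ι : Type}

theorem fapp {F : A → A} (hF : C.F (fun v : Unit → A => F (v ()))) {g : (ι → A) → A}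
    (hg : C.F g) : C.F (fun v => F (g v)) :=
  op1 (op := F) (C.comp (fun o : Option Unit => (o.elim 1 (fun _ => 0) : Fin 2)) hF) hg

/-- The function extends to a definable function. -/
def RF (C : DC A) (f : ℕ → ℕ) : Prop :=
  ∃ F : A → A, C.F (fun v : Unit → A => F (v ())) ∧ ∀ n : ℕ, F n = (f n : ℕ)

theorem RF.congr {f g : ℕ → ℕ} (hf : RF C f) (e : ∀ n, f n = g n) : RF C g :=
  (funext e : f = g) ▸ hf

theorem RF.comp {f g : ℕ → ℕ} (hf : RF C f) (hg : RF C g) : RF C (fun n => f (g n)) := by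
  obtain ⟨F, hF, eF⟩ := hf
  obtain ⟨G, hG, eG⟩ := hg
  exact ⟨fun x => F (G x), fapp hF hG, fun n => by simp only [eG, eF]⟩

namespace Ar

variable (h : Ar C)
include h

theorem rf_pair {f g : ℕ → ℕ} (hf : RF C f) (hg : RF C g) :
    RF C (fun n => Nat.pair (f n) (g n)) := by
  obtain ⟨F, hF, eF⟩ := hf
  obtain ⟨G, hG, eG⟩ := hg
  exact ⟨fun x => pairA (F x) (G x), h.fpair hF hG, fun n => by simp only [eG, eF, pairA_cast]⟩

theorem rf_prec {f g : ℕ → ℕ} (hf : RF C f) (hg : RF C g) :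
    RF C (Nat.unpaired fun z n => n.rec (f z) fun y IH => g (Nat.pair z (Nat.pair y IH))) := by
  classical
  obtain ⟨F, hF, eF⟩ := hf
  obtain ⟨G, hG, eG⟩ := hg
  let P : A → A → Prop := fun x c => betaA c 0 = F (leftA x) ∧
    ∀ i < rightA x, betaA c (i + 1) = G (pairA (leftA x) (pairA i (betaA c i)))
  refine ⟨fun x => betaA (mu (P x)) (rightA x), h.fbeta (h.fmu (C.and
    (eq (h.fbeta (var _) (h.fc _)) (fapp hF (h.fleft (var _))))
    (all (imp (h.lt (var _) (h.fright (var _))) (eq (h.fbeta (var _) (h.fadd (var _) (h.fc _)))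
      (fapp hG (h.fpair (h.fleft (var _)) (h.fpair (var _) (h.fbeta (var _) (var _))))))))))
    (h.fright (var _)), fun n => ?_⟩
  let s : ℕ → ℕ := fun k => k.rec (f n.unpair.1) fun y IH => g (Nat.pair n.unpair.1 (Nat.pair y IH))
  have h1 : ∀ c : ℕ, P n c ↔ ∀ i ≤ n.unpair.2, Nat.beta c i = s i := by
    intro c
    have e0 : betaA (c : A) 0 = (Nat.beta c 0 : ℕ) := by simpa using h.betaA_cast c 0
    have e1 : ∀ i : ℕ, betaA (c : A) (i + 1) = (Nat.beta c (i + 1) : ℕ) := fun i => by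
      simpa using h.betaA_cast c (i + 1)
    simp only [P, h.leftA_cast, h.rightA_cast, h.forall_lt_nat, e0, e1, h.betaA_cast, pairA_cast,
      eF, eG, Nat.cast_inj]
    constructor
    · rintro ⟨h2, h3⟩ i
      induction i with
      | zero => exact fun _ => h2
      | succ i ih => intro hi; rw [h3 i hi, ih (by omega)]
    · intro h2
      exact ⟨h2 0 (by omega), fun i hi => by rw [h2 (i + 1) hi, h2 i hi.le]⟩
  have h2 : ∃ c : ℕ, P n c := by
    refine ⟨Nat.unbeta ((List.range (n.unpair.2 + 1)).map s), (h1 _).2 fun i hi => ?_⟩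
    simpa using Nat.beta_unbeta_coe ((List.range (n.unpair.2 + 1)).map s) ⟨i, by simp; omega⟩
  have h3 : mu (P n) = (Nat.find h2 : ℕ) :=
    h.mu_nat (Nat.find_spec h2) fun m hm => Nat.find_min h2 hm
  simp only [h3, h.rightA_cast, h.betaA_cast]
  rw [(h1 _).1 (Nat.find_spec h2) _ le_rfl]

theorem rf_primrec {f : ℕ → ℕ} (hf : Primrec f) : RF C f := by
  rw [Primrec.nat_iff] at hf
  induction hf with
  | zero => exact ⟨fun _ => 0, h.fc _, by simp⟩
  | succ => exact ⟨fun x => x + 1, h.fadd (var _) (h.fc _), by simp⟩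
  | left => exact ⟨leftA, h.fleft (var _), h.leftA_cast⟩
  | right => exact ⟨rightA, h.fright (var _), h.rightA_cast⟩
  | pair _ _ ih1 ih2 => exact h.rf_pair ih1 ih2
  | comp _ _ ih1 ih2 => exact ih1.comp ih2
  | prec _ _ ih1 ih2 => exact h.rf_prec ih1 ih2

theorem rf_find {f : ℕ → ℕ} (hf : RF C f) (ex : ∀ x, ∃ n, f (Nat.pair x n) ≠ 0) :
    RF C (fun x => Nat.find (ex x)) := by
  obtain ⟨F, hF, eF⟩ := hf
  refine ⟨fun x => mu fun y => F (pairA x y) ≠ 0,
    h.fmu (ne (fapp hF (h.fpair (var _) (var _))) (h.fc _)), fun n => h.mu_nat ?_ fun m hm => ?_⟩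
  · simpa [pairA_cast, eF] using Nat.find_spec (ex n)
  · simpa [pairA_cast, eF] using Nat.find_min (ex n) hm

theorem rf_seg {g : ℕ → ℕ} (hg : RF C g) : RF C (fun n => encode (OCode.seg g n)) := by
  have h1 : Primrec (fun z : ℕ =>
      encode ((decode (α := List ℕ) z.unpair.1).getD [] ++ [z.unpair.2])) :=
    Primrec.encode.comp (Primrec.list_concat.comp (Primrec.option_getD.comp
      (Primrec.decode.comp (Primrec.fst.comp Primrec.unpair)) (Primrec.const _))
      (Primrec.snd.comp Primrec.unpair))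
  have hl := h.rf_primrec (Primrec.fst.comp Primrec.unpair)
  have hr := h.rf_primrec (Primrec.snd.comp Primrec.unpair)
  have h2 := (h.rf_prec (h.rf_primrec (Primrec.const (encode ([] : List ℕ))))
    ((h.rf_primrec h1).comp (h.rf_pair (hr.comp hr) (hg.comp (hl.comp hr))))).comp
    (h.rf_pair (h.rf_primrec (Primrec.const 0)) (h.rf_primrec Primrec.id))
  refine h2.congr fun n => ?_
  simp only [Nat.unpaired, Nat.unpair_pair, id]
  induction n with
  | zero => rfl
  | succ n ih => simp only [ih, encodek, Option.getD_some, OCode.seg, List.range_succ,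
      List.map_append, List.map_cons, List.map_nil]

theorem rf_of_ci {g f : ℕ → ℕ} (hg : RF C g) (hf : CI {fun n => Part.some (g n)} f) : RF C f := by
  obtain ⟨c, hc⟩ := ci_normal hf
  have h1 : Primrec (fun z : ℕ =>
      encode (Nat.Partrec.Code.evaln z.unpair.1 c z.unpair.2)) :=
    Primrec.encode.comp (Nat.Partrec.Code.primrec_evaln.comp
      (((Primrec.fst.comp Primrec.unpair).pair (Primrec.const c)).pair
        (Primrec.snd.comp Primrec.unpair)))
  have hl := h.rf_primrec (Primrec.fst.comp Primrec.unpair)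
  have hr := h.rf_primrec (Primrec.snd.comp Primrec.unpair)
  have h2 := (h.rf_primrec h1).comp (h.rf_pair (hr.comp hr)
    (h.rf_pair ((h.rf_seg hg).comp (hl.comp hr)) hl))
  simp only [Nat.unpair_pair] at h2
  obtain ⟨E, hE⟩ : ∃ E : ℕ → ℕ, E = fun n : ℕ => encode (Nat.Partrec.Code.evaln n.unpair.2.unpair.2 c
      (Nat.pair (encode (OCode.seg g n.unpair.2.unpair.1)) n.unpair.1)) := ⟨_, rfl⟩
  rw [← hE] at h2
  have ex : ∀ x, ∃ p, E (Nat.pair x p) ≠ 0 := by
    intro x
    obtain ⟨p, hp⟩ := (hc x _).1 rfl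
    refine ⟨p, ?_⟩
    simp only [encode_nat] at hp
    simp only [hE, Nat.unpair_pair, hp]
    simp
  have h3 := (h.rf_primrec Primrec.pred).comp
    (h2.comp (h.rf_pair (h.rf_primrec Primrec.id) (h.rf_find h2 ex)))
  refine h3.congr fun x => ?_
  have h4 := Nat.find_spec (ex x)
  generalize Nat.find (ex x) = p at h4 ⊢
  simp only [hE, Nat.unpair_pair, id] at h4 ⊢
  cases e : Nat.Partrec.Code.evaln p.unpair.2 c (Nat.pair (encode (OCode.seg g p.unpair.1)) x) with
  | none => simp [e] at h4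
  | some y => simpa using (hc x y).2 ⟨p, e⟩

end Ar

/-- The representable functions as a set of oracles. -/
def KK (C : DC A) : Set (ℕ →. ℕ) := {g | ∃ f, RF C f ∧ g = fun n => Part.some (f n)}

theorem RF.ci {f : ℕ → ℕ} (hf : RF C f) : CI (KK C) f := CI.oracle ⟨f, hf, rfl⟩

namespace Ar

variable (h : Ar C)
include h

theorem exists_join {f g : ℕ → ℕ} (hf : RF C f) (hg : RF C g) : ∃ j, RF C j ∧
    Nat.RecursiveIn {fun n => Part.some (j n)} (fun n => Part.some (f n)) ∧
    Nat.RecursiveIn {fun n => Part.some (j n)} (fun n => Part.some (g n)) := by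
  have h1 : Primrec (fun z : ℕ =>
      if z.unpair.1 % 2 = 0 then z.unpair.2.unpair.1 else z.unpair.2.unpair.2) :=
    Primrec.ite (Primrec.eq.comp (Primrec.nat_mod.comp (Primrec.fst.comp Primrec.unpair)
      (Primrec.const 2)) (Primrec.const 0))
      (Primrec.fst.comp (Primrec.unpair.comp (Primrec.snd.comp Primrec.unpair)))
      (Primrec.snd.comp (Primrec.unpair.comp (Primrec.snd.comp Primrec.unpair)))
  have h2 := h.rf_primrec (Primrec.nat_div.comp Primrec.id (Primrec.const 2))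
  have h3 := (h.rf_primrec h1).comp (h.rf_pair (h.rf_primrec Primrec.id)
    (h.rf_pair (hf.comp h2) (hg.comp h2)))
  simp only [Nat.unpair_pair, id] at h3
  obtain ⟨j, hj⟩ : ∃ j : ℕ → ℕ, j = fun n => if n % 2 = 0 then f (n / 2) else g (n / 2) := ⟨_, rfl⟩
  rw [← hj] at h3
  have h4 : CI {fun n => Part.some (j n)} j := CI.oracle rfl
  have h5 : CI {fun n => Part.some (j n)} (fun n => j (2 * n)) := by fun_prop
  have h6 : CI {fun n => Part.some (j n)} (fun n => j (2 * n + 1)) := by fun_prop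
  exact ⟨j, h3, RecursiveIn.iff_nat.1 (h5.congr (g := f) fun n => by simp [hj]),
    RecursiveIn.iff_nat.1 (h6.congr (g := g) fun n => by
      simp [hj, show (2 * n + 1) / 2 = n by omega])⟩

theorem exists_single {f : ℕ →. ℕ} (hf : Nat.RecursiveIn (KK C) f) :
    ∃ g, RF C g ∧ Nat.RecursiveIn {fun n => Part.some (g n)} f := by
  have h0 := h.rf_primrec (Primrec.const 0)
  induction hf with
  | zero => exact ⟨_, h0, .zero⟩
  | succ => exact ⟨_, h0, .succ⟩
  | left => exact ⟨_, h0, .left⟩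
  | right => exact ⟨_, h0, .right⟩
  | oracle g hg =>
    obtain ⟨f, hf, rfl⟩ := hg
    exact ⟨f, hf, .oracle _ rfl⟩
  | pair _ _ ih1 ih2 =>
    obtain ⟨a, ha, h1⟩ := ih1
    obtain ⟨b, hb, h2⟩ := ih2
    obtain ⟨j, hj, h3, h4⟩ := h.exists_join ha hb
    exact ⟨j, hj, .pair (h1.subst fun _ e => e ▸ h3) (h2.subst fun _ e => e ▸ h4)⟩
  | comp _ _ ih1 ih2 =>
    obtain ⟨a, ha, h1⟩ := ih1
    obtain ⟨b, hb, h2⟩ := ih2
    obtain ⟨j, hj, h3, h4⟩ := h.exists_join ha hb
    exact ⟨j, hj, .comp (h1.subst fun _ e => e ▸ h3) (h2.subst fun _ e => e ▸ h4)⟩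
  | prec _ _ ih1 ih2 =>
    obtain ⟨a, ha, h1⟩ := ih1
    obtain ⟨b, hb, h2⟩ := ih2
    obtain ⟨j, hj, h3, h4⟩ := h.exists_join ha hb
    exact ⟨j, hj, .prec (h1.subst fun _ e => e ▸ h3) (h2.subst fun _ e => e ▸ h4)⟩
  | rfind _ ih =>
    obtain ⟨a, ha, h1⟩ := ih
    exact ⟨a, ha, .rfind h1⟩

theorem ext_of_ci {α β : Type} [Primcodable α] [Primcodable β] {f : α → β} (hf : CI (KK C) f) :
    ∃ F : A → A, C.F (fun v : Unit → A => F (v ())) ∧
      ∀ a, F (encode a : ℕ) = (encode (f a) : ℕ) := by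
  have h1 : CI (KK C) (fun n : ℕ => ((decode (α := α) n).map fun a => encode (f a)).getD 0) := by
    fun_prop
  obtain ⟨g, hg, h2⟩ := h.exists_single (RecursiveIn.iff_nat.1 h1)
  obtain ⟨F, hF, eF⟩ := h.rf_of_ci hg (RecursiveIn.iff_nat.2 h2)
  exact ⟨F, hF, fun a => by simp [eF]⟩

end Ar

end Pool.Agent.Work.MP_1f9298_lc
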