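import Pool.Agent.Work.MP_1f9298_lc.Rep
import Pool.Agent.Lib.RelComp.Extra

/-!
Predicates with a standard argument that are traces of definable predicates; overspill,
witness sequences, the standard system.
-/

set_option linter.unusedSectionVars false

namespace Pool.Agent.Work.MP_1f9298_lc

open Pool.Agent.Work.MP_db9079_lc DC Pool.Agent.Lib.RelComp Encodable

variable {A : Type} [CommSemiring A] [LinearOrder A] [IsStrictOrderedRing A]
  [CanonicallyOrderedAdd A] {C : DC A} {γ : Type} {α β : Type} [Primcodable α] [Primcodable β]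

/-- The sequence coded by an element. -/
noncomputable def bt (c : A) (i : ℕ) : A := betaA c (i : ℕ)

/-- Traces of definable predicates. -/
def SD (C : DC A) {α γ : Type} [Primcodable α] (P : α → (γ → A) → Prop) : Prop :=
  ∃ D : A → (γ → A) → Prop, C.D (fun w : Option γ → A => D (w none) (fun i => w (some i))) ∧
    ∀ a v, D (encode a : ℕ) v ↔ P a v

/-- Traces of definable functions. -/
def SF (C : DC A) {α γ : Type} [Primcodable α] (f : α → (γ → A) → A) : Prop :=
  ∃ F : A → (γ → A) → A, C.F (fun w : Option γ → A => F (w none) (fun i => w (some i))) ∧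
    ∀ a v, F (encode a : ℕ) v = f a v

namespace SD

variable {P Q : α → (γ → A) → Prop}

theorem congr (hP : SD C P) (e : ∀ a v, P a v ↔ Q a v) : SD C Q :=
  let ⟨D, h1, h2⟩ := hP; ⟨D, h1, fun a v => (h2 a v).trans (e a v)⟩

theorem not (hP : SD C P) : SD C (fun a v => ¬ P a v) :=
  let ⟨D, h1, h2⟩ := hP; ⟨fun x v => ¬ D x v, C.not h1, fun a v => not_congr (h2 a v)⟩

theorem and (hP : SD C P) (hQ : SD C Q) : SD C (fun a v => P a v ∧ Q a v) :=
  let ⟨D, h1, h2⟩ := hP
  let ⟨E, h3, h4⟩ := hQ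
  ⟨fun x v => D x v ∧ E x v, C.and h1 h3, fun a v => and_congr (h2 a v) (h4 a v)⟩

theorem imp (hP : SD C P) (hQ : SD C Q) : SD C (fun a v => P a v → Q a v) :=
  (hP.and hQ.not).not.congr fun _ _ => by tauto

theorem iff (hP : SD C P) (hQ : SD C Q) : SD C (fun a v => P a v ↔ Q a v) :=
  ((hP.imp hQ).and (hQ.imp hP)).congr fun _ _ => by tauto

theorem or (hP : SD C P) (hQ : SD C Q) : SD C (fun a v => P a v ∨ Q a v) :=
  (hP.not.imp hQ).congr fun _ _ => by tauto

theorem exA {R : α → (γ → A) → A → Prop}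
    (hR : SD C (fun a (w : Option γ → A) => R a (fun i => w (some i)) (w none))) :
    SD C (fun a v => ∃ u, R a v u) := by
  obtain ⟨D, h1, h2⟩ := hR
  refine ⟨fun x v => ∃ u, D x (fun o => o.elim u v), ex ?_, fun a v =>
    exists_congr fun u => h2 a _⟩
  refine DC.congr (C.comp (fun o : Option (Option γ) =>
    o.elim (some none) (fun p => p.elim none fun i => some (some i))) h1) fun w => ?_
  refine iff_of_eq (congrArg _ (funext fun o => ?_))
  cases o <;> rfl

theorem eq {f g : α → (γ → A) → A} (hf : SF C f) (hg : SF C g) :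
    SD C (fun a v => f a v = g a v) :=
  let ⟨F, h1, h2⟩ := hf
  let ⟨G, h3, h4⟩ := hg
  ⟨fun x v => F x v = G x v, DC.eq h1 h3, fun a v => by simp only [h2, h4]⟩

end SD

theorem SF.var (i : γ) : SF C (fun (_ : α) (v : γ → A) => v i) :=
  ⟨fun _ v => v i, DC.var (some i), fun _ _ => rfl⟩

namespace Ar

variable (h : Ar C)
include h

theorem sfc (c : A) : SF C (fun (_ : α) (_ : γ → A) => c) := ⟨fun _ _ => c, h.fc c, fun _ _ => rfl⟩

theorem sfadd {f g : α → (γ → A) → A} (hf : SF C f) (hg : SF C g) :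
    SF C (fun a v => f a v + g a v) :=
  let ⟨F, h1, h2⟩ := hf
  let ⟨G, h3, h4⟩ := hg
  ⟨fun x v => F x v + G x v, h.fadd h1 h3, fun a v => by simp only [h2, h4]⟩

theorem sfmul {f g : α → (γ → A) → A} (hf : SF C f) (hg : SF C g) :
    SF C (fun a v => f a v * g a v) :=
  let ⟨F, h1, h2⟩ := hf
  let ⟨G, h3, h4⟩ := hg
  ⟨fun x v => F x v * G x v, h.fmul h1 h3, fun a v => by simp only [h2, h4]⟩

theorem sdlt {f g : α → (γ → A) → A} (hf : SF C f) (hg : SF C g) :
    SD C (fun a v => f a v < g a v) :=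
  let ⟨F, h1, h2⟩ := hf
  let ⟨G, h3, h4⟩ := hg
  ⟨fun x v => F x v < G x v, h.lt h1 h3, fun a v => by simp only [h2, h4]⟩

theorem sfcast {n : α → ℕ} (hn : CI (KK C) n) : SF C (fun a (_ : γ → A) => (n a : A)) :=
  let ⟨F, h1, h2⟩ := h.ext_of_ci hn
  ⟨fun x _ => F x, fapp h1 (DC.var none), fun a _ => h2 a⟩

theorem sfbt {f : α → (γ → A) → A} {n : α → ℕ} (hf : SF C f) (hn : CI (KK C) n) :
    SF C (fun a v => bt (f a v) (n a)) :=
  let ⟨F, h1, h2⟩ := hf
  let ⟨G, h3, h4⟩ := h.sfcast (γ := γ) hn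
  ⟨fun x v => betaA (F x v) (G x v), h.fbeta h1 h3, fun a v => by simp only [h2, h4, bt]⟩

theorem sdcp {p : α → Prop} (hp : CP (KK C) p) : SD C (fun a (_ : γ → A) => p a) := by
  classical
  refine (SD.eq (h.sfcast (n := fun a => if p a then 1 else 0) (by fun_prop)) (h.sfc 1)).congr
    fun a _ => ?_
  by_cases h1 : p a <;> simp [h1]

theorem sdapp {R : β → A → Prop} (hR : SD C (fun b (v : Unit → A) => R b (v ())))
    {f : α → β} {g : α → (γ → A) → A} (hf : CI (KK C) f) (hg : SF C g) :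
    SD C (fun a v => R (f a) (g a v)) := by
  obtain ⟨D, h1, h2⟩ := hR
  obtain ⟨F, h3, h4⟩ := h.ext_of_ci hf
  obtain ⟨G, h5, h6⟩ := hg
  refine ⟨fun x v => D (F x) (fun _ => G x v), ?_, fun a v => by simp only [h4, h6, h2]⟩
  exact app h1 (g := fun w : Option γ → A => fun o : Option Unit =>
    o.elim (F (w none)) (fun _ => G (w none) (fun i => w (some i))))
    (fun o => by cases o; exacts [fapp h3 (DC.var none), h5])

theorem sdball {R : α → ℕ → (γ → A) → Prop} {n : α → ℕ} (hn : CI (KK C) n)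
    (hR : SD C (fun (p : α × ℕ) v => R p.1 p.2 v)) : SD C (fun a v => ∀ i < n a, R a i v) := by
  obtain ⟨D, h1, h2⟩ := hR
  obtain ⟨F, h3, h4⟩ := h.ext_of_ci hn
  refine ⟨fun x v => ∀ y < F x, ∃ z, pairA x y = z ∧ D z v,
    all (imp (h.lt (DC.var _) (fapp h3 (DC.var _))) (ex (C.and
      (DC.eq (h.fpair (DC.var _) (DC.var _)) (DC.var _))
      (C.comp (fun o : Option γ => o.elim none (fun i => some (some (some i)))) h1)))),
    fun a v => ?_⟩
  simp only [h4, encode_nat, h.forall_lt_nat, pairA_cast, exists_eq_left']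
  exact forall₂_congr fun i _ => h2 (a, i) v

theorem sdcomp {P : β → (γ → A) → Prop} (hP : SD C P) {f : α → β} (hf : CI (KK C) f) :
    SD C (fun a v => P (f a) v) := by
  obtain ⟨D, h1, h2⟩ := hP
  obtain ⟨F, h3, h4⟩ := h.ext_of_ci hf
  refine ⟨fun x v => ∃ z, F x = z ∧ D z v, ex (C.and (DC.eq (fapp h3 (DC.var _)) (DC.var _))
      (C.comp (fun o : Option γ => o.elim none (fun i => some (some i))) h1)), fun a v => ?_⟩
  simp only [h4, exists_eq_left', h2]

theorem sdmem {R : α → β → (γ → A) → Prop} {l : α → List β} (hl : CI (KK C) l)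
    (hR : SD C (fun (p : α × β) v => R p.1 p.2 v)) : SD C (fun a v => ∀ b ∈ l a, R a b v) := by
  by_cases hb : Nonempty β
  · obtain ⟨b⟩ := hb
    refine (h.sdball (n := fun a => (l a).length) (R := fun a i v => R a ((l a).getD i b) v)
      (by fun_prop) (h.sdcomp hR (f := fun p : α × ℕ => (p.1, (l p.1).getD p.2 b))
        (by fun_prop))).congr fun a v => ?_
    rw [List.forall_mem_iff_forall_getElem]
    exact forall₂_congr fun i hi => by rw [List.getD_eq_getElem _ _ hi]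
  · exact (h.sdcp (p := fun _ => True) (by fun_prop)).congr fun a v =>
      ⟨fun _ b => absurd ⟨b⟩ hb, fun _ => trivial⟩

theorem exists_bt (f : ℕ → A) (n : ℕ) : ∃ c : A, ∀ i < n, bt c i = f i := h.exists_beta f n

/-- Overspill for families of conditions. -/
theorem sat_nat {P : ℕ → A → Prop} (hP : SD C (fun n (v : Unit → A) => P n (v ())))
    (hs : ∀ N, ∃ u, ∀ n < N, P n u) : ∃ u, ∀ n, P n u := by
  obtain ⟨D, h1, h2⟩ := hP
  obtain ⟨x, ⟨u, h3⟩, h4⟩ := h.overspill (P := fun x => ∃ u, ∀ y < x, D y (fun _ => u))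
    (ex (all (imp (h.lt (DC.var _) (DC.var _))
      (C.comp (fun o : Option Unit => o.elim none (fun _ => some none)) h1))))
    (fun N => by
      obtain ⟨u, hu⟩ := hs N
      exact ⟨u, h.forall_lt_nat.2 fun n hn => (h2 n _).2 (hu n hn)⟩)
  exact ⟨u, fun n => (h2 n _).1 (h3 _ (h4 n))⟩

theorem sat [Inhabited α] {P : α → A → Prop} (hP : SD C (fun a (v : Unit → A) => P a (v ())))
    (hs : ∀ l : List α, ∃ u, ∀ a ∈ l, P a u) : ∃ u, ∀ a, P a u := by
  obtain ⟨u, hu⟩ := h.sat_nat (P := fun n u => P (dec α n) u)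
    (h.sdcomp hP (f := dec α) (by fun_prop)) fun N => by
      obtain ⟨u, hu⟩ := hs ((List.range N).map (dec α))
      exact ⟨u, fun n hn => hu _ (List.mem_map_of_mem (List.mem_range.2 hn))⟩
  exact ⟨u, fun a => by simpa using hu (encode a)⟩

/-- Witness sequences. -/
theorem wit [Inhabited α] {P : α → A → Prop} (hP : SD C (fun a (v : Unit → A) => P a (v ())))
    (hs : ∀ a, ∃ u, P a u) : ∃ w, ∀ a, P a (bt w (encode a)) := by
  refine h.sat (h.sdapp hP CI.id' (h.sfbt (SF.var ()) (by fun_prop))) fun l => ?_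
  choose u hu using hs
  obtain ⟨w, hw⟩ := h.exists_bt (fun i => u (dec α i)) ((l.map encode).sum + 1)
  refine ⟨w, fun a ha => ?_⟩
  rw [hw _ (Nat.lt_succ_of_le (List.single_le_sum (by simp) _ (List.mem_map_of_mem ha))),
    dec_encode]
  exact hu a

end Ar

/-- The standard system. -/
def SSA (A : Type) [CommSemiring A] : Set (Set ℕ) :=
  {X | ∃ c : A, X = {n | ∃ z, c = (Nat.nth Nat.Prime n : ℕ) * z}}

/-- Prime elements. -/
def PrimeA (q : A) : Prop :=
  1 < q ∧ ∀ x y, (∃ z, x * y = q * z) → (∃ z, x = q * z) ∨ (∃ z, y = q * z)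

namespace Ar

variable (h : Ar C)
include h

theorem cp_of_ss {X : Set ℕ} (hX : X ∈ SSA A) : CP (KK C) (fun n => n ∈ X) := by
  classical
  obtain ⟨c, rfl⟩ := hX
  obtain ⟨F, h1, h2⟩ := h.ext_of_ci (ci_nth (O := KK C) cp_prime Nat.infinite_setOfPred_prime)
  refine ci_ind.1 (RF.ci ⟨fun x => if ∃ z, c = F x * z then 1 else 0,
    fite (ex (DC.eq (h.fc _) (h.fmul (fapp h1 (DC.var _)) (DC.var _)))) (h.fc _) (h.fc _),
    fun n => ?_⟩)
  simp only [encode_nat] at h2
  simp only [h2, ind, Set.mem_ofPred_eq]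
  split_ifs <;> simp

theorem primeA_cast {p : ℕ} (hp : p.Prime) : PrimeA (p : A) := by
  refine ⟨by exact_mod_cast hp.one_lt, fun x y ⟨z, hz⟩ => ?_⟩
  obtain ⟨m, rfl⟩ : ∃ m, p = m + 1 := ⟨p - 1, by have := hp.pos; omega⟩
  obtain ⟨q, r, h1, h2⟩ := h.exists_div x m
  obtain ⟨q', r', h3, h4⟩ := h.exists_div y m
  obtain ⟨r, hr, rfl⟩ := h.std_of_lt (n := m + 1) (x := r) (by simpa using h2)
  obtain ⟨r', hr', rfl⟩ := h.std_of_lt (n := m + 1) (x := r') (by simpa using h4)
  have h5 : x * y = ((m + 1 : ℕ) : A) * (q * y + r * q' + (r * r' / (m + 1) : ℕ)) +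
      (r * r' % (m + 1) : ℕ) := by
    have h6 : ((r : A) * r') = ((m + 1 : ℕ) : A) * (r * r' / (m + 1) : ℕ) +
        (r * r' % (m + 1) : ℕ) := by exact_mod_cast (Nat.div_add_mod _ _).symm
    rw [mul_add, add_assoc, ← h6, h1, h3]
    push_cast
    ring
  have h7 := h.modA_eq (m := ((m + 1 : ℕ) : A)) (r := (r * r' % (m + 1) : ℕ))
    (q * y + r * q' + (r * r' / (m + 1) : ℕ)) (by exact_mod_cast Nat.mod_lt _ (Nat.succ_pos _))
  have h8 := h.modA_eq (m := ((m + 1 : ℕ) : A)) (r := 0) z (by exact_mod_cast Nat.succ_pos _)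
  rw [← h5, hz, ← add_zero (_ * z), h8] at h7
  have h9 : (m + 1) ∣ r * r' := Nat.dvd_of_mod_eq_zero (by exact_mod_cast h7.symm)
  rcases (Nat.Prime.dvd_mul hp).1 h9 with h10 | h10
  · exact Or.inl ⟨q, by simp [h1, Nat.eq_zero_of_dvd_of_lt h10 hr]⟩
  · exact Or.inr ⟨q', by simp [h3, Nat.eq_zero_of_dvd_of_lt h10 hr']⟩

theorem primeA_eq {q M z : A} (hq : 1 < q) (hM : PrimeA M) (e : M = q * z) : q = M := by
  have h0 : (0 : A) < M := zero_lt_one.trans hM.1
  have key : ∀ a b : A, 0 < a * b → a ≤ a * b := fun a b hab => by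
    have : 0 < b := pos_of_ne_zero fun hb => by simp [hb] at hab
    calc a = a * (0 + 1) := by ring
      _ ≤ a * b := mul_le_mul' le_rfl (h.disc _ _ this)
  rcases hM.2 q z ⟨1, by rw [← e, mul_one]⟩ with ⟨w, hw⟩ | ⟨w, hw⟩
  · exact le_antisymm (e ▸ key q z (e ▸ h0)) (hw ▸ key M w (hw ▸ zero_lt_one.trans hq))
  · have h1 : M * 1 = M * (q * w) := by
      conv_lhs => rw [e, hw]
      ring
    have h2 : 1 = q * w := mul_left_cancel₀ h0.ne' h1
    exact absurd (h2 ▸ key q w (h2 ▸ zero_lt_one)) (not_le.2 hq)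

theorem ss_of_sd {P : ℕ → Prop} (hP : SD C (fun n (_ : Empty → A) => P n)) :
    {n | P n} ∈ SSA A := by
  classical
  obtain ⟨D, h1, h2⟩ := h.sdcomp hP (ci_count (O := KK C) cp_prime)
  have hp : ∀ {ι : Type} (i : ι), C.D (fun v : ι → A => PrimeA (v i)) := fun i =>
    C.and (h.lt (h.fc _) (DC.var _)) (all (all (imp
      (ex (DC.eq (h.fmul (DC.var _) (DC.var _)) (h.fmul (DC.var _) (DC.var _))))
      (DC.or (ex (DC.eq (DC.var _) (h.fmul (DC.var _) (DC.var _))))
        (ex (DC.eq (DC.var _) (h.fmul (DC.var _) (DC.var _))))))))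
  have hD : ∀ {ι : Type} (i : ι), C.D (fun v : ι → A => D (v i) Empty.elim) := fun i =>
    DC.congr (C.comp (fun _ => i) h1) fun v =>
      iff_of_eq (congrArg _ (funext fun o => o.elim))
  have h3 := h.ind' (fun M => ∃ c, ∀ q, PrimeA q → ((∃ z, c = q * z) ↔ q < M ∧ D q Empty.elim))
    (ex (all (imp (hp _) (DC.iff (ex (DC.eq (DC.var _) (h.fmul (DC.var _) (DC.var _))))
      (C.and (h.lt (DC.var _) (DC.var _)) (hD _))))))
    ⟨1, fun q hq => by
      simp only [not_lt_zero, false_and, iff_false]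
      rintro ⟨z, hz⟩
      have h4 : 0 < z := pos_of_ne_zero fun hb => by simp [hb] at hz
      exact absurd hz (one_lt_mul_of_lt_of_le' hq.1 (by simpa using h.disc _ _ h4)).ne⟩
    (fun M ⟨c, hc⟩ => by
      have h5 : ∀ q, q < M + 1 ↔ q < M ∨ q = M := fun q =>
        ⟨fun h6 => (h.le_of_lt_succ h6).lt_or_eq, fun h6 =>
          (le_iff_lt_or_eq.2 h6).trans_lt (lt_add_one M)⟩
      by_cases hM : PrimeA M ∧ D M Empty.elim
      · refine ⟨c * M, fun q hq => ⟨fun h6 => ?_, fun ⟨h6, h7⟩ => ?_⟩⟩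
        · rcases hq.2 _ _ h6 with h7 | ⟨z, h7⟩
          · exact ((hc q hq).1 h7).imp_left fun h8 => (h5 q).2 (Or.inl h8)
          · obtain rfl := h.primeA_eq hq.1 hM.1 h7
            exact ⟨lt_add_one _, hM.2⟩
        · rcases (h5 q).1 h6 with h8 | rfl
          · obtain ⟨z, rfl⟩ := (hc q hq).2 ⟨h8, h7⟩
            exact ⟨_, mul_assoc _ _ _⟩
          · exact ⟨c, mul_comm _ _⟩
      · refine ⟨c, fun q hq => (hc q hq).trans ⟨fun h6 => ⟨(h5 q).2 (Or.inl h6.1), h6.2⟩,
          fun ⟨h6, h7⟩ => ⟨((h5 q).1 h6).resolve_right fun e => hM (e ▸ ⟨hq, h7⟩), h7⟩⟩⟩)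
  obtain ⟨M, -, hM⟩ := h.overspill (P := fun _ => True) C.tru fun _ => trivial
  obtain ⟨c, hc⟩ := h3 M
  refine ⟨c, Set.ext fun n => ?_⟩
  have h4 := h2 (Nat.nth Nat.Prime n) Empty.elim
  beta_reduce at h4
  rw [Nat.count_nth_of_infinite (p := Nat.Prime) Nat.infinite_setOfPred_prime, encode_nat] at h4
  simp only [Set.mem_ofPred_eq, hc _ (h.primeA_cast
    (Nat.nth_mem_of_infinite (p := Nat.Prime) Nat.infinite_setOfPred_prime n)), hM, true_and, h4]

/-- Weak Koenig's lemma in the standard system. -/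
theorem wkl {T : List Bool → Prop} (hT : CP (KK C) T)
    (hs : ∀ N, ∃ z : List Bool, z.length = N ∧ ∀ n ≤ N, T (z.take n)) :
    ∃ Z ∈ SSA A, ∀ z : List Bool, (∀ i < z.length, (z.getD i false = true ↔ i ∈ Z)) → T z := by
  obtain ⟨u, hu⟩ := h.sat_nat (P := fun n u => ∀ z ∈ allLists n,
      (∀ i < n, (z.getD i false = true ↔ bt u i = 1)) → T z)
    (h.sdmem (by fun_prop) (SD.imp (h.sdball (by fun_prop) (SD.iff (h.sdcp (by fun_prop))
      (SD.eq (h.sfbt (SF.var _) (by fun_prop)) (h.sfc _)))) (h.sdcp (by fun_prop)))) fun N => by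
      obtain ⟨z, h1, h2⟩ := hs N
      obtain ⟨u, hu⟩ := h.exists_bt (fun i => if z.getD i false = true then 1 else 0) N
      refine ⟨u, fun n hn y hy h3 => ?_⟩
      rw [mem_allLists] at hy
      have : y = z.take n := by
        refine List.ext_getElem (by simp; omega) fun i h4 h5 => ?_
        have h6 := h3 i (by omega)
        rw [hu i (by omega), List.getD_eq_getElem _ _ h4,
          List.getD_eq_getElem _ _ (show i < z.length by omega)] at h6
        rw [List.getElem_take]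
        cases h7 : z[i] <;> simpa [h7] using h6
      exact this ▸ h2 n hn.le
  exact ⟨_, h.ss_of_sd (P := fun i => bt u i = 1)
    (SD.eq (h.sfbt (h.sfc _) (by fun_prop)) (h.sfc _)),
    fun z hz => hu _ z (mem_allLists.2 rfl) hz⟩

end Ar

end Pool.Agent.Work.MP_1f9298_lc
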